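import Mathlib

set_option autoImplicit false

namespace Pool.Agent.Lib.MP_5a6238_co

open Finset Real

/-- Uniform average over a finite type. -/
noncomputable def av {X : Type*} [Fintype X] (f : X → ℝ) : ℝ := (∑ x, f x) / Fintype.card X

section
variable {X Y : Type*} [Fintype X] [Fintype Y]

lemma av_mono {f g : X → ℝ} (h : ∀ x, f x ≤ g x) : av f ≤ av g :=
  div_le_div_of_nonneg_right (sum_le_sum fun x _ => h x) (Nat.cast_nonneg _)

lemma av_nonneg {f : X → ℝ} (h : ∀ x, 0 ≤ f x) : 0 ≤ av f :=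
  div_nonneg (sum_nonneg fun x _ => h x) (Nat.cast_nonneg _)

lemma av_add (f g : X → ℝ) : av (fun x => f x + g x) = av f + av g := by
  unfold av; rw [sum_add_distrib, add_div]

lemma av_sub (f g : X → ℝ) : av (fun x => f x - g x) = av f - av g := by
  unfold av; rw [sum_sub_distrib, sub_div]

lemma av_mul_left (c : ℝ) (f : X → ℝ) : av (fun x => c * f x) = c * av f := by
  unfold av; rw [← mul_sum, mul_div_assoc]

lemma av_mul_right (c : ℝ) (f : X → ℝ) : av (fun x => f x * c) = av f * c := by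
  unfold av; rw [← sum_mul]; ring

lemma av_sum {ι : Type*} (s : Finset ι) (f : ι → X → ℝ) :
    av (fun x => ∑ i ∈ s, f i x) = ∑ i ∈ s, av (f i) := by
  unfold av; rw [sum_comm, sum_div]

lemma av_const [Nonempty X] (c : ℝ) : av (fun _ : X => c) = c := by
  unfold av
  have : (Fintype.card X : ℝ) ≠ 0 := Nat.cast_ne_zero.2 Fintype.card_ne_zero
  simp only [sum_const, card_univ, nsmul_eq_mul]
  field_simp

lemma av_equiv (e : X ≃ Y) (f : Y → ℝ) : av (fun x => f (e x)) = av f := by
  unfold av; rw [e.sum_comp, Fintype.card_congr e]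

lemma av_prod_type (f : X × Y → ℝ) : av f = av fun x => av fun y => f (x, y) := by
  unfold av
  rw [Fintype.sum_prod_type, Fintype.card_prod, ← sum_div, div_div]
  push_cast
  rw [mul_comm]

lemma exists_ge_av [Nonempty X] (f : X → ℝ) : ∃ x, av f ≤ f x := by
  by_contra h
  push Not at h
  have h1 : ∑ x, f x < ∑ _x : X, av f := sum_lt_sum_of_nonempty univ_nonempty fun x _ => h x
  have h2 : (0 : ℝ) < Fintype.card X := Nat.cast_pos.2 Fintype.card_pos
  simp only [sum_const, card_univ, nsmul_eq_mul] at h1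
  unfold av at h1
  rw [mul_div_cancel₀ _ h2.ne'] at h1
  exact lt_irrefl _ h1

lemma av_pi {ι : Type*} [Fintype ι] [DecidableEq ι] (f : ι → X → ℝ) :
    av (fun x : ι → X => ∏ i, f i (x i)) = ∏ i, av (f i) := by
  unfold av
  rw [prod_div_distrib, prod_univ_sum, Fintype.piFinset_univ]
  simp

lemma av_comp_inj {V W : Type*} [Fintype V] [Fintype W] [DecidableEq V] [DecidableEq W]
    [Nonempty X] (φ : V ↪ W) (F : (V → X) → ℝ) : av (fun x : W → X => F (x ∘ φ)) = av F := by
  classical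
  let e := Equiv.piEquivPiSubtypeProd (fun w => w ∈ Set.range φ) fun _ => X
  let e₁ : (V → X) ≃ ({w // w ∈ Set.range φ} → X) :=
    Equiv.arrowCongr (Equiv.ofInjective φ φ.injective) (Equiv.refl X)
  rw [← av_equiv e.symm, av_prod_type, ← av_equiv e₁]
  congr 1
  funext y
  have : ∀ z, F (e.symm (e₁ y, z) ∘ φ) = F y := by
    intro z
    congr 1
    funext v
    simp [e, e₁, Equiv.piEquivPiSubtypeProd, Equiv.arrowCongr]
  simp only [this]
  exact av_const _

end

/-- The sign attached to a bit. -/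
def sg (b : Bool) : ℝ := if b then 1 else -1

lemma sg_sq (b : Bool) : sg b * sg b = 1 := by cases b <;> simp [sg]

lemma abs_sg (b : Bool) : |sg b| = 1 := by cases b <;> simp [sg]

lemma av_bool (f : Bool → ℝ) : av f = (f true + f false) / 2 := by
  unfold av; simp

lemma av_exp_sg (c : ℝ) : av (fun b => exp (c * sg b)) ≤ exp (c ^ 2 / 2) := by
  rw [av_bool]
  have := cosh_le_exp_half_sq c
  rw [cosh_eq] at this
  simpa [sg] using this

/-- Moment generating bound for a weighted sum of independent signs. -/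
lemma av_exp_sum {ι : Type*} [Fintype ι] [DecidableEq ι] (c : ι → ℝ) :
    av (fun y : ι → Bool => exp (∑ i, c i * sg (y i))) ≤ exp ((∑ i, c i ^ 2) / 2) := by
  simp only [exp_sum]
  rw [av_pi (fun i b => exp (c i * sg b)), sum_div, exp_sum]
  exact prod_le_prod (fun i _ => av_nonneg fun _ => (exp_pos _).le) fun i _ => av_exp_sg _

lemma av_exp_sq (k : ℕ) (hk : 0 < k) :
    av (fun a : Fin k → Bool => exp ((∑ j, sg (a j)) ^ 2 / (2 * k))) ≤ 2 * k + 1 := by
  have hk' : (0 : ℝ) < k := Nat.cast_pos.2 hk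
  have h1 : ∀ a : Fin k → Bool, exp ((∑ j, sg (a j)) ^ 2 / (2 * k)) ≤
      ∑ v ∈ Icc (-(k : ℤ)) k, exp (∑ j, (v / k : ℝ) * sg (a j)) * exp (-(v : ℝ) ^ 2 / (2 * k)) := by
    intro a
    have hz : ((∑ j, (if a j then 1 else -1 : ℤ) : ℤ) : ℝ) = ∑ j, sg (a j) := by
      push_cast
      rfl
    have hb : |∑ j, sg (a j)| ≤ k := by
      refine le_trans (abs_sum_le_sum_abs _ _) ?_
      simp [abs_sg]
    have hm : (∑ j, (if a j then 1 else -1 : ℤ)) ∈ Icc (-(k : ℤ)) k := by
      rw [← hz, abs_le] at hb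
      rw [mem_Icc]
      exact ⟨by exact_mod_cast hb.1, by exact_mod_cast hb.2⟩
    refine le_trans (le_of_eq ?_) (single_le_sum
      (f := fun v : ℤ => exp (∑ j, (v / k : ℝ) * sg (a j)) * exp (-(v : ℝ) ^ 2 / (2 * k)))
      (fun v _ => by positivity) hm)
    rw [hz, ← mul_sum, ← exp_add]
    congr 1
    field_simp
    ring
  refine le_trans (av_mono h1) ?_
  rw [av_sum]
  refine le_trans (sum_le_sum (g := fun _ => (1 : ℝ)) fun v _ => ?_) ?_
  · rw [av_mul_right]
    refine le_trans (mul_le_mul_of_nonneg_right (av_exp_sum fun _ : Fin k => (v / k : ℝ))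
      (exp_pos _).le) ?_
    rw [← exp_add]
    simp only [sum_const, card_univ, Fintype.card_fin, nsmul_eq_mul]
    have : (k : ℝ) * (v / k) ^ 2 / 2 + -(v : ℝ) ^ 2 / (2 * k) = 0 := by field_simp; ring
    rw [this, exp_zero]
  · simp only [sum_const, Int.card_Icc, nsmul_eq_mul, mul_one]
    have : ((k : ℤ) + 1 - -(k : ℤ)).toNat = 2 * k + 1 := by omega
    rw [this]; push_cast; rfl

/-- Tail bound under a tilted product measure. -/
lemma tilt_tail {X : Type*} [Fintype X] (w g : X → ℝ) (hw : ∀ x, 0 ≤ w x) (hw1 : av w = 1)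
    (hg : av (fun x => w x * g x) = 0) (hg2 : ∀ x, |g x| ≤ 2) {η : ℝ} (hη : 0 ≤ η) (hη1 : η ≤ 1)
    (D : ℕ) :
    av (fun ω : Fin D → X => (∏ i, w (ω i)) * if η * D ≤ ∑ i, g (ω i) then 1 else 0)
      ≤ exp (-(η ^ 2 / 16) * D) := by
  have h1 : av (fun x => w x * exp (η / 8 * g x)) ≤ exp (η ^ 2 / 16) := by
    have h2 : ∀ x, w x * exp (η / 8 * g x) ≤ w x + η / 8 * (w x * g x) + η ^ 2 / 16 * w x := by
      intro x
      have a1 : |η / 8 * g x| ≤ η / 4 := by
        rw [abs_mul, abs_of_nonneg (by positivity)]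
        nlinarith [hg2 x]
      have a2 := abs_exp_sub_one_sub_id_le (x := η / 8 * g x) (by linarith)
      have a3 : (η / 8 * g x) ^ 2 ≤ (η / 4) ^ 2 := by
        rw [← sq_abs]; exact pow_le_pow_left₀ (abs_nonneg _) a1 2
      have a4 : exp (η / 8 * g x) ≤ 1 + η / 8 * g x + η ^ 2 / 16 := by
        linarith [(abs_le.1 a2).2]
      nlinarith [mul_le_mul_of_nonneg_left a4 (hw x)]
    refine le_trans (av_mono h2) ?_
    rw [av_add, av_add, av_mul_left, av_mul_left, hg, hw1]
    linarith [add_one_le_exp (η ^ 2 / 16)]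
  have h3 : ∀ ω : Fin D → X, ((∏ i, w (ω i)) * if η * D ≤ ∑ i, g (ω i) then 1 else 0)
      ≤ (∏ i, w (ω i) * exp (η / 8 * g (ω i))) * exp (-(η ^ 2 / 8) * D) := by
    intro ω
    rw [prod_mul_distrib, ← exp_sum, ← mul_sum, mul_assoc, ← exp_add]
    refine mul_le_mul_of_nonneg_left ?_ (prod_nonneg fun i _ => hw _)
    split_ifs with h
    · apply one_le_exp
      nlinarith
    · exact (exp_pos _).le
  refine le_trans (av_mono h3) ?_
  rw [av_mul_right, av_pi fun _ x => w x * exp (η / 8 * g x)]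
  simp only [prod_const, card_univ, Fintype.card_fin]
  have h4 : av (fun x => w x * exp (η / 8 * g x)) ^ D ≤ exp (η ^ 2 / 16) ^ D :=
    pow_le_pow_left₀ (av_nonneg fun x => mul_nonneg (hw x) (exp_pos _).le) h1 D
  refine le_trans (mul_le_mul_of_nonneg_right h4 (exp_pos _).le) (le_of_eq ?_)
  rw [← exp_nat_mul, ← exp_add]
  congr 1; ring

end Pool.Agent.Lib.MP_5a6238_co
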