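import Mathlib

/-!
Paraboloid lift of the Brown graph: a tripartite graph with many triangles and no `K_{1,3,3}`.
-/

namespace Pool.Agent.Lib.MP_5a6238_co.Brown

variable {F : Type} [Field F]

/-- the quadratic form -/
def Q (w : F × F × F) : F := w.1 ^ 2 - w.2.1 * w.2.2

/-- its polar form -/
def B (w d : F × F × F) : F := 2 * w.1 * d.1 - w.2.1 * d.2.2 - w.2.2 * d.2.1

theorem no_line {δ : F} (hδ : ¬ IsSquare δ) {w d d' : F × F × F} (hw : Q w = δ)
    (h1 : Q (w + d) = δ) (h2 : Q (w + d') = δ) (hd : d ≠ 0) (hd' : d' ≠ 0) (hne : d ≠ d')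
    (c1 : d.1 * d'.2.1 = d.2.1 * d'.1) (c2 : d.1 * d'.2.2 = d.2.2 * d'.1)
    (c3 : d.2.1 * d'.2.2 = d.2.2 * d'.2.1) : False := by
  obtain ⟨l, hl⟩ : ∃ l : F, d' = l • d := by
    obtain ⟨a, b, c⟩ := d
    obtain ⟨a', b', c'⟩ := d'
    simp only at c1 c2 c3
    by_cases ha : a = 0
    · by_cases hb : b = 0
      · have hc : c ≠ 0 := by
          rintro rfl
          exact hd (by simp [ha, hb])
        refine ⟨c' / c, ?_⟩
        simp only [Prod.smul_mk, smul_eq_mul, Prod.mk.injEq]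
        refine ⟨?_, ?_, ?_⟩ <;> field_simp <;> grind
      · refine ⟨b' / b, ?_⟩
        simp only [Prod.smul_mk, smul_eq_mul, Prod.mk.injEq]
        refine ⟨?_, ?_, ?_⟩ <;> field_simp <;> grind
    · refine ⟨a' / a, ?_⟩
      simp only [Prod.smul_mk, smul_eq_mul, Prod.mk.injEq]
      refine ⟨?_, ?_, ?_⟩ <;> field_simp <;> grind
  subst hl
  have hl0 : l ≠ 0 := by rintro rfl; exact hd' (by simp)
  have hl1 : l - 1 ≠ 0 := by
    intro h
    rw [sub_eq_zero] at h
    exact hne (by simp [h])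
  obtain ⟨a, b, c⟩ := d
  obtain ⟨x, y, z⟩ := w
  simp only [Q, Prod.mk_add_mk, Prod.smul_mk, smul_eq_mul] at hw h1 h2
  have e1 : a ^ 2 - b * c = 0 := by
    have : l * (l - 1) * (a ^ 2 - b * c) = 0 := by linear_combination h2 - l * h1 + (l - 1) * hw
    simpa [hl0, hl1] using this
  have e2 : 2 * x * a - y * c - z * b = 0 := by linear_combination h1 - hw - e1
  apply hδ
  by_cases hb : b = 0
  · have ha : a = 0 := by simpa [hb] using e1
    have hc : c ≠ 0 := by
      rintro rfl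
      exact hd (by simp [ha, hb])
    have hy : y = 0 := by simpa [ha, hb, hc] using e2
    exact ⟨x, by rw [← hw, hy]; ring⟩
  · refine ⟨x - y * a / b, ?_⟩
    rw [← hw]
    field_simp
    linear_combination (-y ^ 2) * e1 + (y * b) * e2

theorem brown (h2 : (2 : F) ≠ 0) {δ : F} (hδ : ¬ IsSquare δ) (a b : Fin 3 → F × F × F)
    (ha : Function.Injective a) (hb : Function.Injective b) (h : ∀ i j, Q (a i + b j) = δ) :
    False := by
  have orth : ∀ i j, B (a i - a 0) (b j - b 0) = 0 := by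
    intro i j
    have e1 := h i j
    have e2 := h i 0
    have e3 := h 0 j
    have e4 := h 0 0
    simp only [Q, B, Prod.fst_add, Prod.snd_add, Prod.fst_sub, Prod.snd_sub] at *
    linear_combination e1 - e2 - e3 + e4
  have hne : ∀ (c : Fin 3 → F × F × F), Function.Injective c →
      c 1 - c 0 ≠ 0 ∧ c 2 - c 0 ≠ 0 ∧ c 1 - c 0 ≠ c 2 - c 0 := fun c hc =>
    ⟨sub_ne_zero.2 (hc.ne (by decide)), sub_ne_zero.2 (hc.ne (by decide)),
      fun h => hc.ne (show (1 : Fin 3) ≠ 2 by decide) (sub_left_injective h)⟩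
  obtain ⟨a1, a2, a3⟩ := hne a ha
  obtain ⟨b1, b2, b3⟩ := hne b hb
  have A := no_line hδ (w := a 0 + b 0) (d := a 1 - a 0) (d' := a 2 - a 0) (h 0 0)
    (by rw [← h 1 0]; congr 1; abel) (by rw [← h 2 0]; congr 1; abel) a1 a2 a3
  have C := no_line hδ (w := a 0 + b 0) (d := b 1 - b 0) (d' := b 2 - b 0) (h 0 0)
    (by rw [← h 0 1]; congr 1; abel) (by rw [← h 0 2]; congr 1; abel) b1 b2 b3
  have o11 := orth 1 1
  have o12 := orth 1 2
  have o21 := orth 2 1
  have o22 := orth 2 2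
  generalize a 1 - a 0 = d at *
  generalize a 2 - a 0 = d' at *
  generalize b 1 - b 0 = e at *
  generalize b 2 - b 0 = e' at *
  obtain ⟨p, q, r⟩ := d
  obtain ⟨p', q', r'⟩ := d'
  obtain ⟨x, y, z⟩ := e
  obtain ⟨x', y', z'⟩ := e'
  simp only [B] at o11 o12 o21 o22 A C
  by_cases n1 : p * q' = q * p'
  · by_cases n2 : p * r' = r * p'
    · by_cases n3 : q * r' = r * q'
      · exact A n1 n2 n3
      · rw [← ne_eq, ← sub_ne_zero] at n3
        apply C
        · apply mul_left_cancel₀ n3; grind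
        · apply mul_left_cancel₀ n3; grind
        · apply mul_left_cancel₀ n3; grind
    · rw [← ne_eq, ← sub_ne_zero] at n2
      apply C
      · apply mul_left_cancel₀ (mul_ne_zero h2 n2); grind
      · apply mul_left_cancel₀ (mul_ne_zero h2 n2); grind
      · apply mul_left_cancel₀ (mul_ne_zero h2 n2); grind
  · rw [← ne_eq, ← sub_ne_zero] at n1
    apply C
    · apply mul_left_cancel₀ (mul_ne_zero h2 n1); grind
    · apply mul_left_cancel₀ (mul_ne_zero h2 n1); grind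
    · apply mul_left_cancel₀ (mul_ne_zero h2 n1); grind

/-- vertices -/
abbrev T (F : Type) := Fin 3 × (F × F × F) × F

/-- directed adjacency -/
def R (δ : F) (v w : T F) : Prop :=
  w.1 = v.1 + 1 ∧ v.2.2 - w.2.2 = B v.2.1 w.2.1 + Q v.2.1 - (if v.1 = 2 then δ else 0)

/-- adjacency -/
def Adj (δ : F) (v w : T F) : Prop := R δ v w ∨ R δ w v

theorem tri {δ : F} {x y z : T F} (h1 : Adj δ x y) (h2 : Adj δ x z) (h3 : Adj δ y z) :
    Q (x.2.1 + y.2.1 + z.2.1) = δ := by
  obtain ⟨i, u, t⟩ := x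
  obtain ⟨j, u', t'⟩ := y
  obtain ⟨k, u'', t''⟩ := z
  simp only [Adj, R, Q, B, Prod.fst_add, Prod.snd_add] at *
  fin_cases i <;> fin_cases j <;> fin_cases k <;> simp at h1 h2 h3 <;>
    linear_combination -h1 - h2 - h3

theorem part_ne {δ : F} {x y : T F} (h : Adj δ x y) : x.1 ≠ y.1 := by
  obtain ⟨i, u, t⟩ := x
  obtain ⟨j, u', t'⟩ := y
  rcases h with h | h <;> have := h.1 <;> revert this <;> simp only <;> revert i j <;> intros <;>
    omega

theorem adj_inj {δ : F} {x y y' : T F} (h : Adj δ x y) (h' : Adj δ x y') (h1 : y.1 = y'.1)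
    (h2 : y.2.1 = y'.2.1) : y = y' := by
  obtain ⟨i, u, t⟩ := x
  obtain ⟨j, v, s⟩ := y
  obtain ⟨j', v', s'⟩ := y'
  simp only at h1 h2
  subst h1 h2
  simp only [Adj, R] at h h'
  have : s = s' := by
    rcases h with h | h <;> rcases h' with h' | h'
    · linear_combination h'.2 - h.2
    · exfalso; have a := h.1; have b := h'.1; omega
    · exfalso; have a := h.1; have b := h'.1; omega
    · linear_combination h.2 - h'.2
  rw [this]

theorem no_K133 (h2 : (2 : F) ≠ 0) {δ : F} (hδ : ¬ IsSquare δ) (x : T F) (y z : Fin 3 → T F)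
    (hy : Function.Injective y) (hz : Function.Injective z) (h1 : ∀ i, Adj δ x (y i))
    (h3 : ∀ j, Adj δ x (z j)) (h4 : ∀ i j, Adj δ (y i) (z j)) : False := by
  refine brown h2 hδ (fun i => x.2.1 + (y i).2.1) (fun j => (z j).2.1) (fun i i' h => hy ?_)
    (fun j j' h => hz ?_) (fun i j => tri (h1 i) (h3 j) (h4 i j))
  · refine adj_inj (h1 i) (h1 i') ?_ (add_left_cancel h)
    have a1 := part_ne (h1 i)
    have a2 := part_ne (h1 i')
    have a3 := part_ne (h3 0)
    have a4 := part_ne (h4 i 0)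
    have a5 := part_ne (h4 i' 0)
    omega
  · refine adj_inj (h3 j) (h3 j') ?_ h
    have a1 := part_ne (h3 j)
    have a2 := part_ne (h3 j')
    have a3 := part_ne (h1 0)
    have a4 := part_ne (h4 0 j)
    have a5 := part_ne (h4 0 j')
    omega

/-- parameters of triangles -/
abbrev Par (F : Type) [Field F] := (F × F × F) × (F × F × F) × F × F × Fˣ

/-- the three vertices of the triangle with given parameters -/
def vert (δ : F) (p : Par F) : Fin 3 → T F :=
  let w : F × F × F := (p.2.2.2.1, p.2.2.2.2, (p.2.2.2.1 ^ 2 - δ) / p.2.2.2.2)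
  ![(0, p.1, p.2.2.1), (1, p.2.1, p.2.2.1 - (B p.1 p.2.1 + Q p.1)),
    (2, w - p.1 - p.2.1, p.2.2.1 - (B p.1 p.2.1 + Q p.1) - (B p.2.1 (w - p.1 - p.2.1) + Q p.2.1))]

theorem vert_fst (δ : F) (p : Par F) (i : Fin 3) : (vert δ p i).1 = i := by
  fin_cases i <;> rfl

theorem vert_R (δ : F) (p : Par F) (i : Fin 3) : R δ (vert δ p i) (vert δ p (i + 1)) := by
  obtain ⟨⟨a, b, c⟩, ⟨a', b', c'⟩, t, x, y⟩ := p
  fin_cases i
  · simp [R, vert]
  · simp [R, vert]
  · simp [R, vert, Q, B]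
    field_simp
    ring

theorem vert_adj (δ : F) (p : Par F) {i j : Fin 3} (h : i ≠ j) :
    Adj δ (vert δ p i) (vert δ p j) := by
  have : j = i + 1 ∨ i = j + 1 := by omega
  rcases this with rfl | rfl
  · exact Or.inl (vert_R δ p i)
  · exact Or.inr (vert_R δ p j)

theorem vert_inj (δ : F) : Function.Injective (vert (F := F) δ) := by
  rintro ⟨u, u', t, x, y⟩ ⟨v, v', s, x', y'⟩ h
  have h0 := congrFun h 0
  have h1 := congrFun h 1
  have h2 := congrFun h 2
  simp only [vert, Matrix.cons_val_zero, Matrix.cons_val_one, Matrix.cons_val, Prod.mk.injEq,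
    true_and] at h0 h1 h2
  obtain ⟨rfl, rfl⟩ := h0
  obtain ⟨rfl, -⟩ := h1
  have := h2.1
  simp only [sub_left_inj, Prod.mk.injEq, Units.val_inj] at this
  rw [this.1, this.2.1]

open Finset in
/-- the hypergraph on `Fin n` -/
theorem exists_hypergraph {n : ℕ} (hn : 768 ≤ n) :
    ∃ H : Finset (Finset (Fin n)), (∀ e ∈ H, e.card = 3) ∧
      (1 / (2 * 4 ^ 9) : ℝ) * (n : ℝ) ^ (9 / 4 : ℝ) ≤ H.card ∧
      ∀ (x : Fin n) (y z : Fin 3 → Fin n), Function.Injective y → Function.Injective z →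
        (∀ i, x ≠ y i ∧ ∃ e ∈ H, x ∈ e ∧ y i ∈ e) → (∀ j, x ≠ z j ∧ ∃ e ∈ H, x ∈ e ∧ z j ∈ e) →
        (∀ i j, y i ≠ z j ∧ ∃ e ∈ H, y i ∈ e ∧ z j ∈ e) → False := by
  classical
  set m := Nat.sqrt (Nat.sqrt (n / 3)) with hm
  have hm4 : 4 ≤ m := by
    rw [hm, Nat.le_sqrt, Nat.le_sqrt]; omega
  have hm1 : m * m * (m * m) ≤ n / 3 := by
    rw [← Nat.le_sqrt, ← Nat.le_sqrt]
  have hm2 : n / 3 < (m + 1) * (m + 1) * ((m + 1) * (m + 1)) := by
    rw [← Nat.sqrt_lt, ← Nat.sqrt_lt]; omega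
  obtain ⟨p, hp, hp1, hp2⟩ := Nat.exists_prime_lt_and_le_two_mul (m / 2) (by omega)
  have := Fact.mk hp
  have hp3 : 3 ≤ p := by omega
  have hchar : ringChar (ZMod p) ≠ 2 := by rw [ZMod.ringChar_zmod_n]; omega
  have h2 : (2 : ZMod p) ≠ 0 := Ring.two_ne_zero hchar
  obtain ⟨δ, hδ⟩ := FiniteField.exists_nonsquare hchar
  have hcard : Fintype.card (T (ZMod p)) ≤ Fintype.card (Fin n) := by
    simp only [T, Fintype.card_prod, Fintype.card_fin, ZMod.card]
    have hpm : p ≤ m := by omega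
    have : p * (p * p) * p ≤ m * m * (m * m) := by
      calc p * (p * p) * p = p * p * (p * p) := by ring
        _ ≤ _ := by gcongr
    omega
  obtain ⟨ι⟩ := Function.Embedding.nonempty_of_card_le hcard
  let E : Par (ZMod p) → Finset (Fin n) := fun q => univ.image fun i => ι (vert δ q i)
  have hE : Function.Injective E := by
    intro q q' h
    apply vert_inj δ
    funext i
    have : ι (vert δ q i) ∈ E q' := h ▸ mem_image_of_mem _ (mem_univ i)
    obtain ⟨j, -, hj⟩ := mem_image.1 this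
    have hj' := ι.injective hj
    have := congrArg Prod.fst hj'
    rw [vert_fst, vert_fst] at this
    rw [← hj', this]
  have key : ∀ a b : Fin n, (a ≠ b ∧ ∃ e ∈ univ.image E, a ∈ e ∧ b ∈ e) →
      ∃ v w, a = ι v ∧ b = ι w ∧ Adj δ v w := by
    rintro a b ⟨hab, e, he, ha, hb⟩
    obtain ⟨q, -, rfl⟩ := mem_image.1 he
    obtain ⟨i, -, rfl⟩ := mem_image.1 ha
    obtain ⟨j, -, rfl⟩ := mem_image.1 hb
    exact ⟨_, _, rfl, rfl, vert_adj δ q (by rintro rfl; exact hab rfl)⟩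
  refine ⟨univ.image E, fun e he => ?_, ?_, fun x y z hy hz h1 h3 h4 => ?_⟩
  · obtain ⟨q, -, rfl⟩ := mem_image.1 he
    rw [card_image_of_injective _ (fun i j h => by
      have := congrArg Prod.fst (ι.injective h)
      rwa [vert_fst, vert_fst] at this)]
    simp
  · rw [card_image_of_injective _ hE, card_univ]
    simp only [Par, Fintype.card_prod, ZMod.card, ZMod.card_units]
    have hn4 : n ≤ (4 * p) ^ 4 := by
      have : m + 1 ≤ 2 * p := by omega
      have : (m + 1) * (m + 1) * ((m + 1) * (m + 1)) ≤ 2 * p * (2 * p) * (2 * p * (2 * p)) := by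
        gcongr
      have e : (4 * p) ^ 4 = 16 * (2 * p * (2 * p) * (2 * p * (2 * p))) := by ring
      omega
    have hr : (n : ℝ) ^ (9 / 4 : ℝ) ≤ (4 * p : ℝ) ^ 9 := by
      calc (n : ℝ) ^ (9 / 4 : ℝ) ≤ ((4 * p : ℝ) ^ 4) ^ (9 / 4 : ℝ) := by
            gcongr; exact_mod_cast hn4
        _ = _ := by
            rw [← Real.rpow_natCast, ← Real.rpow_mul (by positivity), ← Real.rpow_natCast]
            norm_num
    have hp' : (3 : ℝ) ≤ p := by exact_mod_cast hp3
    push_cast [Nat.cast_sub hp.one_le]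
    calc (1 / (2 * 4 ^ 9) : ℝ) * (n : ℝ) ^ (9 / 4 : ℝ) ≤ (1 / (2 * 4 ^ 9) : ℝ) * (4 * p : ℝ) ^ 9 := by
          gcongr
      _ = (p : ℝ) ^ 8 * (p / 2) := by ring
      _ ≤ (p : ℝ) ^ 8 * (p - 1) := by gcongr; linarith
      _ = _ := by ring
  · obtain ⟨x', -, rfl, -⟩ := key _ _ (h1 0)
    choose x1 y' hx1 hy' hadj1 using fun i => key _ _ (h1 i)
    choose x2 z' hx2 hz' hadj2 using fun j => key _ _ (h3 j)
    refine no_K133 h2 hδ x' y' z' (fun i j h => hy (by rw [hy', hy', h]))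
      (fun i j h => hz (by rw [hz', hz', h])) (fun i => ι.injective (hx1 i) ▸ hadj1 i)
      (fun j => ι.injective (hx2 j) ▸ hadj2 j) fun i j => ?_
    obtain ⟨v, w, hv, hw, h⟩ := key _ _ (h4 i j)
    rw [hy'] at hv
    rw [hz'] at hw
    rwa [ι.injective hv, ι.injective hw]

end Pool.Agent.Lib.MP_5a6238_co.Brown
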