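import Mathlib

/-!
Graphs with many triangles and no `K_{1,2,2}`, part A: intersecting ternary codes, the
quadric cutting out the Delaunay triangle of `A_2`, and the hypergraph built from a system.
-/

set_option autoImplicit false

namespace Pool.Agent.Lib.MP_5a6238_co.Wheel

open Finset

/-- rows killing two vectors with disjoint supports -/
theorem card_rows {κ : Type} [Fintype κ] [DecidableEq κ] (u v : κ → ZMod 3) (hu : u ≠ 0)
    (hv : v ≠ 0) (huv : ∀ i, u i = 0 ∨ v i = 0) :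
    9 * #{h : κ → ZMod 3 | ∑ i, h i * u i = 0 ∧ ∑ i, h i * v i = 0} = 3 ^ Fintype.card κ := by
  classical
  have : Fact (Nat.Prime 3) := ⟨by norm_num⟩
  let g : (κ → ZMod 3) →+ ZMod 3 × ZMod 3 :=
    { toFun := fun h => (∑ i, h i * u i, ∑ i, h i * v i)
      map_zero' := by simp
      map_add' := fun a b => by simp [add_mul, sum_add_distrib] }
  obtain ⟨i, hi⟩ := Function.ne_iff.1 hu
  obtain ⟨j, hj⟩ := Function.ne_iff.1 hv
  have hi' : u i ≠ 0 := hi
  have hj' : v j ≠ 0 := hj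
  have hvi : v i = 0 := (huv i).resolve_left hi'
  have huj : u j = 0 := (huv j).resolve_right hj'
  have hsurj : Function.Surjective g := by
    rintro ⟨a, b⟩
    refine ⟨Pi.single i (a / u i) + Pi.single j (b / v j), ?_⟩
    simp [g, add_mul, sum_add_distrib, Pi.single_apply, hvi, huj, hi', hj']
  have h1 := AddSubgroup.card_mul_index g.ker
  rw [AddSubgroup.index_ker, AddMonoidHom.range_eq_top.2 hsurj, AddSubgroup.card_top] at h1
  have h2 : Nat.card g.ker = #{h : κ → ZMod 3 | ∑ i, h i * u i = 0 ∧ ∑ i, h i * v i = 0} := by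
    rw [← Nat.card_eq_finsetCard]
    refine Nat.card_congr (Equiv.subtypeEquivRight fun h => ?_)
    simp [g, AddMonoidHom.mem_ker]
  rw [h2] at h1
  simp only [Nat.card_eq_fintype_card, Fintype.card_prod, ZMod.card, Fintype.card_pi,
    prod_const, card_univ] at h1
  omega

/-- existence of intersecting ternary codes -/
theorem exists_code {κ : Type} [Fintype κ] [DecidableEq κ] (r : ℕ)
    (hr : 5 ^ Fintype.card κ < 9 ^ r) :
    ∃ H : Fin r → κ → ZMod 3, ∀ u v : κ → ZMod 3, (∀ i, u i = 0 ∨ v i = 0) →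
      (∀ a, ∑ i, H a i * u i = 0) → (∀ a, ∑ i, H a i * v i = 0) → u = 0 ∨ v = 0 := by
  classical
  by_contra hcon
  push Not at hcon
  let D : Finset (κ → ZMod 3 × ZMod 3) :=
    Fintype.piFinset fun _ => ({p | p.1 = 0 ∨ p.2 = 0} : Finset (ZMod 3 × ZMod 3))
  have hD : #D = 5 ^ Fintype.card κ := by
    have : #({p | p.1 = 0 ∨ p.2 = 0} : Finset (ZMod 3 × ZMod 3)) = 5 := by decide
    simp only [D, Fintype.card_piFinset, this, prod_const, card_univ]
  let D' := D.filter fun p => (fun i => (p i).1) ≠ 0 ∧ (fun i => (p i).2) ≠ 0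
  let B : (κ → ZMod 3 × ZMod 3) → Finset (Fin r → κ → ZMod 3) := fun p =>
    Fintype.piFinset fun _ =>
      ({h | ∑ i, h i * (p i).1 = 0 ∧ ∑ i, h i * (p i).2 = 0} : Finset (κ → ZMod 3))
  have hcov : (univ : Finset (Fin r → κ → ZMod 3)) ⊆ D'.biUnion B := by
    intro H _
    obtain ⟨u, v, h1, h2, h3, h4, h5⟩ := hcon H
    refine mem_biUnion.2 ⟨fun i => (u i, v i), mem_filter.2 ⟨?_, h4, h5⟩, ?_⟩
    · simp [D, h1]
    · simp [B, h2, h3]
  have hB : ∀ p ∈ D', 9 ^ r * #(B p) = (3 ^ Fintype.card κ) ^ r := by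
    intro p hp
    obtain ⟨hp, h1, h2⟩ := mem_filter.1 hp
    have := card_rows _ _ h1 h2 (fun i => by simpa [D] using Fintype.mem_piFinset.1 hp i)
    simp only [B, Fintype.card_piFinset, prod_const, card_univ, Fintype.card_fin]
    rw [← mul_pow, this]
  have h1 := (card_le_card hcov).trans card_biUnion_le
  have h2 : 9 ^ r * ∑ p ∈ D', #(B p) = #D' * (3 ^ Fintype.card κ) ^ r := by
    rw [mul_sum, sum_congr rfl hB]; simp
  have h3 : #D' ≤ 5 ^ Fintype.card κ := hD ▸ card_filter_le _ _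
  simp only [card_univ, Fintype.card_pi, ZMod.card, prod_const, Fintype.card_fin] at h1
  have h4 : 0 < (3 ^ Fintype.card κ) ^ r := by positivity
  have h5 : 9 ^ r * (3 ^ Fintype.card κ) ^ r ≤ 5 ^ Fintype.card κ * (3 ^ Fintype.card κ) ^ r :=
    calc _ ≤ 9 ^ r * ∑ p ∈ D', #(B p) := Nat.mul_le_mul_left _ h1
      _ = _ := h2
      _ ≤ _ := Nat.mul_le_mul_right _ h3
  have := Nat.le_of_mul_le_mul_right h5 h4
  omega

/-- splitting the fibres of a map into pieces of size at most `s` -/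
theorem exists_pieces {α β : Type} [DecidableEq α] [Fintype β] [DecidableEq β] (X : Finset α)
    (c : α → β) {s : ℕ} (hs : 0 < s) :
    ∃ (π : α → β × ℕ) (P : Finset (β × ℕ)), (∀ x, (π x).1 = c x) ∧ (∀ x ∈ X, π x ∈ P) ∧
      #P ≤ Fintype.card β + #X / s ∧ ∀ p, #{x ∈ X | π x = p} ≤ s := by
  classical
  have : ∀ b : β, ∃ g : α → ℕ, Set.InjOn g {x ∈ X | c x = b} ∧
      ∀ x ∈ X, c x = b → g x < #{x ∈ X | c x = b} := by
    intro b
    let e := ({x ∈ X | c x = b} : Finset α).equivFin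
    refine ⟨fun x => if h : x ∈ ({x ∈ X | c x = b} : Finset α) then e ⟨x, h⟩ else 0, ?_, ?_⟩
    · intro x hx y hy hxy
      have hx' : x ∈ ({x ∈ X | c x = b} : Finset α) := by simpa using hx
      have hy' : y ∈ ({x ∈ X | c x = b} : Finset α) := by simpa using hy
      simp only [dif_pos hx', dif_pos hy'] at hxy
      exact congrArg Subtype.val (e.injective (Fin.ext hxy))
    · intro x hx hb
      have hx' : x ∈ ({x ∈ X | c x = b} : Finset α) := by simp [hx, hb]
      simp only [dif_pos hx']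
      exact (e ⟨x, hx'⟩).2
  choose g hg hlt using this
  refine ⟨fun x => (c x, g (c x) x / s),
    univ.biUnion fun b => (range (#{x ∈ X | c x = b} / s + 1)).image (Prod.mk b), fun _ => rfl,
    fun x hx => ?_, ?_, ?_⟩
  · refine mem_biUnion.2 ⟨c x, mem_univ _, mem_image.2 ⟨_, mem_range.2 ?_, rfl⟩⟩
    exact Nat.lt_succ_of_le (Nat.div_le_div_right (hlt _ x hx rfl).le)
  · refine card_biUnion_le.trans ((sum_le_sum fun b _ => card_image_le).trans ?_)
    simp only [card_range, sum_add_distrib, sum_const, card_univ, smul_eq_mul, mul_one]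
    rw [add_comm]
    refine Nat.add_le_add_left ?_ _
    rw [Nat.le_div_iff_mul_le hs, sum_mul, card_eq_sum_card_fiberwise (f := c) (t := univ)
      (fun _ _ => mem_univ _)]
    exact sum_le_sum fun b _ => Nat.div_mul_le_self _ _
  · rintro ⟨b, k⟩
    refine le_of_le_of_eq (card_le_card_of_injOn (t := range s) (fun x => g b x % s)
      (fun x _ => ?_) ?_) (card_range s)
    · simpa using Nat.mod_lt _ hs
    · intro x hx y hy hxy
      simp only [coe_filter, Prod.mk.injEq, Set.mem_ofPred_eq] at hx hy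
      obtain ⟨hx, rfl, hx2⟩ := hx
      obtain ⟨hy, hy1, hy2⟩ := hy
      rw [hy1] at hy2
      refine hg (c x) (by simp [hx]) (by simp [hy, hy1]) ?_
      simp only at hxy
      rw [← Nat.div_add_mod (g (c x) x) s, ← Nat.div_add_mod (g (c x) y) s, hx2, hy2, hxy]

/-- a most popular fibre -/
theorem exists_fibre {α β : Type} [DecidableEq β] (T : Finset α) (c : α → β) (P : Finset β)
    (h : ∀ t ∈ T, c t ∈ P) (hT : T.Nonempty) :
    ∃ p ∈ P, #T ≤ #P * #{t ∈ T | c t = p} := by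
  obtain ⟨t, ht⟩ := hT
  obtain ⟨p, hp, hmax⟩ := exists_max_image P (fun p => #{t ∈ T | c t = p}) ⟨_, h t ht⟩
  exact ⟨p, hp, (card_le_mul_card_image_of_maps_to h _ hmax).trans (mul_comm _ _).le⟩

/-- the plane lattice -/
abbrev P := ℤ × ℤ

/-- the quadric vanishing exactly on a Delaunay triangle of `A_2` -/
def q (s : P) : ℤ :=
  (s.1 - 1) * (s.1 - 2) + (s.2 - 1) * (s.2 - 2) + (s.1 + s.2 - 2) * (s.1 + s.2 - 3)

theorem consec (a : ℤ) : 0 ≤ a * (a - 1) := by
  rcases le_or_gt a 0 with h | h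
  · exact mul_nonneg_of_nonpos_of_nonpos h (by omega)
  · exact mul_nonneg h.le (by omega)

theorem q_nonneg (s : P) : 0 ≤ q s := by
  have h1 := consec (s.1 - 1)
  have h2 := consec (s.2 - 1)
  have h3 := consec (s.1 + s.2 - 2)
  unfold q
  nlinarith

theorem q_eq_zero {s : P} (h : q s = 0) : s = (1, 1) ∨ s = (2, 1) ∨ s = (1, 2) := by
  obtain ⟨a, b⟩ := s
  have h1 := consec (a - 1)
  have h2 := consec (b - 1)
  have h3 := consec (a + b - 2)
  simp only [q] at h
  have e1 : (a - 1) * (a - 2) = 0 := by nlinarith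
  have e2 : (b - 1) * (b - 2) = 0 := by nlinarith
  have e3 : (a + b - 2) * (a + b - 3) = 0 := by nlinarith
  simp only [mul_eq_zero, Prod.mk.injEq] at *
  omega

/-- the three-colouring of the lattice -/
def φ (s : P) : ZMod 3 := ((s.1 - s.2 : ℤ) : ZMod 3)

/-- pair potential -/
def f (x y : P) : ℤ := q (x + y) - q x

theorem q_three (x y z : P) : q (x + y + z) = f x y + f y z + f z x + 10 := by
  simp only [q, f, Prod.fst_add, Prod.snd_add]
  ring

theorem block_sidon {x y y' z z' : P} (h1 : q (x + y + z) = 0) (h2 : q (x + y + z') = 0)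
    (h3 : q (x + y' + z) = 0) (h4 : q (x + y' + z') = 0) : y = y' ∨ z = z' := by
  have e1 := q_eq_zero h1
  have e2 := q_eq_zero h2
  have e3 := q_eq_zero h3
  have e4 := q_eq_zero h4
  simp only [Prod.ext_iff, Prod.fst_add, Prod.snd_add] at *
  omega

theorem block_inj {w y y' : P} (h1 : q (w + y) = 0) (h3 : q (w + y') = 0) (h : φ y = φ y') :
    y = y' := by
  have e1 := q_eq_zero h1
  have e3 := q_eq_zero h3
  rw [φ, φ, ZMod.intCast_eq_intCast_iff_dvd_sub] at h
  simp only [Prod.ext_iff, Prod.fst_add, Prod.snd_add] at *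
  omega

theorem no_wheel {κ : Type} [Fintype κ] {r : ℕ} {H : Fin r → κ → ZMod 3}
    (hH : ∀ u v : κ → ZMod 3, (∀ i, u i = 0 ∨ v i = 0) →
      (∀ a, ∑ i, H a i * u i = 0) → (∀ a, ∑ i, H a i * v i = 0) → u = 0 ∨ v = 0)
    {x y y' z z' : κ → P} (h1 : ∀ i, q (x i + y i + z i) = 0) (h2 : ∀ i, q (x i + y i + z' i) = 0)
    (h3 : ∀ i, q (x i + y' i + z i) = 0) (h4 : ∀ i, q (x i + y' i + z' i) = 0)
    (hy : ∀ a, ∑ i, H a i * φ (y i) = ∑ i, H a i * φ (y' i))
    (hz : ∀ a, ∑ i, H a i * φ (z i) = ∑ i, H a i * φ (z' i)) : y = y' ∨ z = z' := by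
  rcases hH (fun i => φ (y i) - φ (y' i)) (fun i => φ (z i) - φ (z' i))
    (fun i => (block_sidon (h1 i) (h2 i) (h3 i) (h4 i)).imp (fun h => by simp [h])
      (fun h => by simp [h]))
    (fun a => by simp [mul_sub, sum_sub_distrib, hy a])
    (fun a => by simp [mul_sub, sum_sub_distrib, hz a]) with h | h
  · refine Or.inl (funext fun i => block_inj (w := x i + z i) ?_ ?_ (sub_eq_zero.1 (congrFun h i)))
    · rw [add_right_comm]; exact h1 i
    · rw [add_right_comm]; exact h3 i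
  · exact Or.inr (funext fun i => block_inj (h1 i) (h2 i) (sub_eq_zero.1 (congrFun h i)))

/-- a system of triples whose coordinate sums lie on the quadric -/
structure Good {κ : Type} [Fintype κ] [DecidableEq κ] (C : ℕ) (T : Finset (κ → Fin 3 → P))
    (N : Fin 3 → ℕ) : Prop where
  zero : ∀ t ∈ T, ∀ i, q (∑ a, t i a) = 0
  bdd : ∀ t ∈ T, ∀ i a b, |f (t i a) (t i b)| ≤ C
  card : ∀ a, #(T.image fun t i => t i a) ≤ N a

/-- two distinct vertices in a common edge -/
def Sh {V : Type} (H : Finset (Finset V)) (a b : V) : Prop := a ≠ b ∧ ∃ e ∈ H, a ∈ e ∧ b ∈ e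

/-- the shadow has no `K_{1,2,2}` -/
def NoWheel {V : Type} (H : Finset (Finset V)) : Prop :=
  ∀ x y y' z z' : V, Sh H x y → Sh H x y' → Sh H x z → Sh H x z' → Sh H y z → Sh H y z' →
    Sh H y' z → Sh H y' z' → y = y' ∨ z = z'

theorem exists_hyper {κ : Type} [Fintype κ] [DecidableEq κ] {C N : ℕ}
    {T : Finset (κ → Fin 3 → P)} (hT : Good C T fun _ => N) {r s n : ℕ}
    (hr : 5 ^ Fintype.card κ < 9 ^ r) (hs : 0 < s) (hn : 3 * s ≤ n) :
    ∃ H : Finset (Finset (Fin n)), (∀ e ∈ H, #e = 3) ∧ NoWheel H ∧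
      #T ≤ (3 ^ r + N / s) ^ 3 * (2 * (C * Fintype.card κ) + 1) ^ 2 * #H := by
  classical
  rcases T.eq_empty_or_nonempty with rfl | hne
  · exact ⟨∅, by simp, fun x y _ _ _ h => by simp [Sh] at h, by simp⟩
  obtain ⟨Hc, hH⟩ := exists_code r hr
  let syn : (κ → P) → Fin r → ZMod 3 := fun x a => ∑ i, Hc a i * φ (x i)
  let pr : (κ → Fin 3 → P) → Fin 3 → κ → P := fun t a i => t i a
  let X : Fin 3 → Finset (κ → P) := fun a => T.image fun t => pr t a
  choose π Pc hπ hmem hPc hsz using fun a => exists_pieces (X a) syn hs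
  let F : (κ → P) → (κ → P) → ℤ := fun x y => ∑ i, f (x i) (y i)
  let M : ℕ := C * Fintype.card κ
  have hF : ∀ t ∈ T, ∀ a b, F (pr t a) (pr t b) ∈ Icc (-(M : ℤ)) M := by
    intro t ht a b
    rw [mem_Icc, ← abs_le]
    refine (abs_sum_le_sum_abs _ _).trans ((sum_le_sum fun i _ => hT.bdd t ht i a b).trans ?_)
    simp [M, mul_comm]
  have hQ : ∀ x y z : κ → P, ∑ i, q (x i + y i + z i) =
      F x y + F y z + F z x + 10 * Fintype.card κ := by
    intro x y z
    simp [F, q_three, sum_add_distrib, mul_comm]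
  obtain ⟨⟨p, τ0, τ1⟩, -, hcard⟩ := exists_fibre T
    (fun t => (fun a => π a (pr t a), F (pr t 0) (pr t 1), F (pr t 1) (pr t 2)))
    (Fintype.piFinset Pc ×ˢ Icc (-(M : ℤ)) M ×ˢ Icc (-(M : ℤ)) M)
    (fun t ht => by
      simp only [mem_product, Fintype.mem_piFinset]
      exact ⟨fun a => hmem a _ (mem_image_of_mem _ ht), hF t ht _ _, hF t ht _ _⟩) hne
  set T0 := {t ∈ T | (fun a => π a (pr t a), F (pr t 0) (pr t 1), F (pr t 1) (pr t 2)) =
    (p, τ0, τ1)} with hT0
  let τ : Fin 3 → ℤ := ![τ0, τ1, -τ0 - τ1 - 10 * Fintype.card κ]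
  have hτ : ∀ t ∈ T0, ∀ a, π a (pr t a) = p a ∧ F (pr t a) (pr t (a + 1)) = τ a := by
    intro t ht a
    obtain ⟨ht, h⟩ := mem_filter.1 ht
    simp only [Prod.mk.injEq] at h
    refine ⟨congrFun h.1 a, ?_⟩
    have h0 := hQ (pr t 0) (pr t 1) (pr t 2)
    rw [sum_eq_zero fun i _ => by simpa [Fin.sum_univ_three] using hT.zero t ht i] at h0
    fin_cases a
    · exact h.2.1
    · exact h.2.2
    · have h1 := h.2.1
      have h2 := h.2.2
      show F (pr t 2) (pr t 0) = -τ0 - τ1 - 10 * Fintype.card κ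
      linarith
  let Vs : Finset (Fin 3 × (κ → P)) :=
    univ.biUnion fun a => ({x ∈ X a | π a x = p a} : Finset _).image (Prod.mk a)
  have hVs : Fintype.card Vs ≤ Fintype.card (Fin n) := by
    rw [Fintype.card_coe, Fintype.card_fin]
    refine (card_biUnion_le.trans
      (sum_le_sum fun a _ => card_image_le.trans (hsz a (p a)))).trans ?_
    simpa using hn
  obtain ⟨ι⟩ := Function.Embedding.nonempty_of_card_le hVs
  have hv : ∀ t ∈ T0, ∀ a, (a, pr t a) ∈ Vs := fun t ht a =>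
    mem_biUnion.2 ⟨a, mem_univ _, mem_image_of_mem _
      (mem_filter.2 ⟨mem_image_of_mem _ (mem_filter.1 ht).1, (hτ t ht a).1⟩)⟩
  let E : T0 → Finset (Fin n) := fun t => univ.image fun a => ι ⟨(a, pr t.1 a), hv t.1 t.2 a⟩
  have hE : Function.Injective E := by
    intro t t' h
    refine Subtype.ext (funext fun i => funext fun a => ?_)
    have : ι ⟨(a, pr t.1 a), hv t.1 t.2 a⟩ ∈ E t' := h ▸ mem_image_of_mem _ (mem_univ a)
    obtain ⟨b, -, hb⟩ := mem_image.1 this
    have hb' := congrArg Subtype.val (ι.injective hb)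
    simp only [Prod.mk.injEq] at hb'
    obtain ⟨rfl, hb'⟩ := hb'
    exact (congrFun hb' i).symm
  let Adj : Vs → Vs → Prop := fun v w => v.1.1 ≠ w.1.1 ∧
    (w.1.1 = v.1.1 + 1 → F v.1.2 w.1.2 = τ v.1.1) ∧ (v.1.1 = w.1.1 + 1 → F w.1.2 v.1.2 = τ w.1.1)
  have key : ∀ a b : Fin n, Sh (univ.image E) a b → ∃ v w, a = ι v ∧ b = ι w ∧ Adj v w := by
    rintro a b ⟨hab, e, he, ha, hb⟩
    obtain ⟨t, -, rfl⟩ := mem_image.1 he
    obtain ⟨i, -, rfl⟩ := mem_image.1 ha
    obtain ⟨j, -, rfl⟩ := mem_image.1 hb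
    refine ⟨_, _, rfl, rfl, ?_, ?_, ?_⟩
    · rintro (rfl : i = j)
      exact hab rfl
    · rintro (rfl : j = i + 1)
      exact (hτ t.1 t.2 i).2
    · rintro (rfl : i = j + 1)
      exact (hτ t.1 t.2 j).2
  have key' : ∀ v w : Vs, Sh (univ.image E) (ι v) (ι w) → Adj v w := by
    intro v w h
    obtain ⟨v', w', h1, h2, h3⟩ := key _ _ h
    rwa [ι.injective h1, ι.injective h2]
  have tri : ∀ u v w : Vs, Adj u v → Adj u w → Adj v w →
      ∀ i, q (u.1.2 i + v.1.2 i + w.1.2 i) = 0 := by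
    rintro ⟨⟨a, x⟩, hx⟩ ⟨⟨b, y⟩, hy⟩ ⟨⟨c, z⟩, hz⟩ h1 h2 h3
    have h0 : ∑ i, q (x i + y i + z i) = 0 := by
      have e1 := hQ x y z
      have e2 := hQ x z y
      have e3 : ∑ i, q (x i + z i + y i) = ∑ i, q (x i + y i + z i) :=
        sum_congr rfl fun i _ => by rw [add_right_comm]
      simp only [Adj, τ] at h1 h2 h3
      clear hx hy hz
      fin_cases a <;> fin_cases b <;> fin_cases c <;> simp at h1 h2 h3 <;> linarith
    exact fun i => (sum_eq_zero_iff_of_nonneg fun i _ => q_nonneg _).1 h0 i (mem_univ _)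
  have hsyn : ∀ v w : Vs, v.1.1 = w.1.1 → syn v.1.2 = syn w.1.2 := by
    have : ∀ v : Vs, syn v.1.2 = (p v.1.1).1 := by
      rintro ⟨v, hv⟩
      obtain ⟨a, -, hv⟩ := mem_biUnion.1 hv
      obtain ⟨x, hx, rfl⟩ := mem_image.1 hv
      rw [← (mem_filter.1 hx).2, hπ]
    intro v w h
    rw [this, this, h]
  refine ⟨univ.image E, fun e he => ?_, ?_, ?_⟩
  · obtain ⟨t, -, rfl⟩ := mem_image.1 he
    rw [card_image_of_injective _ (fun i j h => congrArg (fun v : Vs => v.1.1) (ι.injective h))]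
    simp
  · intro x y y' z z' h1 h2 h3 h4 h5 h6 h7 h8
    obtain ⟨x, y, rfl, rfl, h0⟩ := key _ _ (id h1)
    obtain ⟨y', z, rfl, rfl, h0⟩ := key _ _ (id h7)
    obtain ⟨x', z', h0, rfl, h0⟩ := key _ _ (id h4)
    replace h1 := key' _ _ h1
    replace h2 := key' _ _ h2
    replace h3 := key' _ _ h3
    replace h4 := key' _ _ h4
    replace h5 := key' _ _ h5
    replace h6 := key' _ _ h6
    replace h7 := key' _ _ h7
    replace h8 := key' _ _ h8
    have ey : y.1.1 = y'.1.1 := by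
      have := h1.1; have := h2.1; have := h3.1; have := h5.1; have := h7.1; omega
    have ez : z.1.1 = z'.1.1 := by
      have := h1.1; have := h3.1; have := h4.1; have := h5.1; have := h6.1; omega
    refine (no_wheel hH (tri _ _ _ h1 h3 h5) (tri _ _ _ h1 h4 h6) (tri _ _ _ h2 h3 h7)
      (tri _ _ _ h2 h4 h8) (congrFun (hsyn _ _ ey)) (congrFun (hsyn _ _ ez))).imp
      (fun h => ?_) (fun h => ?_)
    · rw [Subtype.ext (Prod.ext ey h)]
    · rw [Subtype.ext (Prod.ext ez h)]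
  · rw [card_image_of_injective _ hE, card_univ, Fintype.card_coe]
    refine hcard.trans (Nat.mul_le_mul_right _ ?_)
    have hI : #(Icc (-(M : ℤ)) M) = 2 * M + 1 := by
      rw [Int.card_Icc]; omega
    rw [card_product, card_product, hI, Fintype.card_piFinset, ← sq]
    refine Nat.mul_le_mul_right _ ((prod_le_pow_card _ _ (3 ^ r + N / s) fun a _ => ?_).trans ?_)
    · refine (hPc a).trans (Nat.add_le_add (by simp) (Nat.div_le_div_right (hT.card a)))
    · simp

end Pool.Agent.Lib.MP_5a6238_co.Wheel
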