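import Mathlib
import Pool.Agent.Lib.MP_5a6238_co.WheelA

/-!
Graphs with many triangles and no `K_{1,2,2}`, part B: discrete Gaussian systems, products
and the asymptotic bound.
-/

set_option autoImplicit false

namespace Pool.Agent.Lib.MP_5a6238_co.Wheel

open Finset Filter Topology

theorem Good.mono {κ : Type} [Fintype κ] [DecidableEq κ] {C : ℕ} {T : Finset (κ → Fin 3 → P)}
    {N N' : Fin 3 → ℕ} (h : Good C T N) (hN : ∀ a, N a ≤ N' a) : Good C T N' :=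
  ⟨h.zero, h.bdd, fun a => (h.card a).trans (hN a)⟩

theorem Good.rot {κ : Type} [Fintype κ] [DecidableEq κ] {C : ℕ} {T : Finset (κ → Fin 3 → P)}
    {N : Fin 3 → ℕ} (h : Good C T N) (c : Fin 3) :
    ∃ T' : Finset (κ → Fin 3 → P), Good C T' (fun a => N (a + c)) ∧ #T' = #T := by
  refine ⟨T.image fun t i a => t i (a + c), ⟨?_, ?_, ?_⟩, card_image_of_injective _ ?_⟩
  · intro t ht i
    obtain ⟨u, hu, rfl⟩ := mem_image.1 ht
    exact (congrArg q (Equiv.sum_comp (Equiv.addRight c) (u i))).trans (h.zero u hu i)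
  · intro t ht i a b
    obtain ⟨u, hu, rfl⟩ := mem_image.1 ht
    exact h.bdd u hu i _ _
  · intro a
    rw [image_image]
    exact h.card (a + c)
  · intro t t' e
    funext i a
    simpa using congrFun (congrFun e i) (a - c)

theorem Good.prod {J κ : Type} [Fintype J] [DecidableEq J] [Fintype κ] [DecidableEq κ] {C : ℕ}
    {T : J → Finset (κ → Fin 3 → P)} {N : J → Fin 3 → ℕ} (h : ∀ j, Good C (T j) (N j)) :
    ∃ T' : Finset (J × κ → Fin 3 → P), Good C T' (fun a => ∏ j, N j a) ∧ #T' = ∏ j, #(T j) := by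
  refine ⟨(Fintype.piFinset T).image fun t p => t p.1 p.2, ⟨?_, ?_, ?_⟩, ?_⟩
  · intro t ht i
    obtain ⟨u, hu, rfl⟩ := mem_image.1 ht
    exact (h _).zero _ (Fintype.mem_piFinset.1 hu _) _
  · intro t ht i a b
    obtain ⟨u, hu, rfl⟩ := mem_image.1 ht
    exact (h _).bdd _ (Fintype.mem_piFinset.1 hu _) _ _ _
  · intro a
    have : ((Fintype.piFinset T).image fun t (p : J × κ) => t p.1 p.2).image (fun t i => t i a) ⊆
        (Fintype.piFinset fun j => (T j).image fun t i => t i a).image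
          fun x (p : J × κ) => x p.1 p.2 := by
      intro x hx
      obtain ⟨t, ht, rfl⟩ := mem_image.1 hx
      obtain ⟨u, hu, rfl⟩ := mem_image.1 ht
      exact mem_image.2 ⟨fun j i => u j i a, Fintype.mem_piFinset.2 fun j =>
        mem_image_of_mem _ (Fintype.mem_piFinset.1 hu j), rfl⟩
    refine (card_le_card this).trans (card_image_le.trans ?_)
    rw [Fintype.card_piFinset]
    exact prod_le_prod' fun j _ => (h j).card a
  · rw [card_image_of_injective, Fintype.card_piFinset]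
    intro t t' e
    funext j i
    exact congrFun e (j, i)

theorem Good.card_le {κ : Type} [Fintype κ] [DecidableEq κ] {C N : ℕ}
    {T : Finset (κ → Fin 3 → P)} (h : Good C T fun _ => N) : #T ≤ N ^ 3 := by
  have : #T ≤ #(Fintype.piFinset fun a : Fin 3 => T.image fun t i => t i a) := by
    refine card_le_card_of_injOn (fun t a i => t i a) (fun t ht => ?_) fun t _ t' _ e => ?_
    · exact mem_coe.2 (Fintype.mem_piFinset.2 fun a => mem_image_of_mem _ ht)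
    · funext i a
      exact congrFun (congrFun e a) i
  rw [Fintype.card_piFinset] at this
  exact this.trans ((prod_le_pow_card _ _ N fun a _ => h.card a).trans (by simp))

/-- weighted pigeonhole principle -/
theorem weighted {S : Finset P} {ν : P → ℕ} {B : ℕ} (hB : ∀ x ∈ S, ν x ≤ B)
    {T0 : Finset (Fin 3 → P)} (hT0 : ∀ t ∈ T0, ∀ a, t a ∈ S) {ρ : ℝ} (hρ : 0 < ρ) (m : ℕ) :
    ∃ T ⊆ Fintype.piFinset fun _ : Fin m => T0, ∃ r : Fin 3 → ℕ,
      (∑ t ∈ T0, ρ ^ (2 * ∑ a, ν (t a))) ^ m ≤ (m * B + 1) ^ 3 * (#T * ρ ^ (2 * ∑ a, r a)) ∧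
      ∀ a, #(T.image fun t i => t i a) * ρ ^ (3 * r a) ≤ (∑ x ∈ S, ρ ^ (3 * ν x)) ^ m := by
  classical
  let U := Fintype.piFinset fun _ : Fin m => T0
  let c : (Fin m → Fin 3 → P) → Fin 3 → ℕ := fun t a => ∑ i, ν (t i a)
  let R := Fintype.piFinset fun _ : Fin 3 => range (m * B + 1)
  have hc : ∀ t ∈ U, c t ∈ R := fun t ht => Fintype.mem_piFinset.2 fun a => by
    rw [mem_range, Nat.lt_succ_iff]
    refine (sum_le_card_nsmul _ _ B fun i _ =>
      hB _ (hT0 _ (Fintype.mem_piFinset.1 ht i) a)).trans (by simp)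
  obtain ⟨r, -, hmax⟩ := exists_max_image R
    (fun r => (#{t ∈ U | c t = r} : ℝ) * ρ ^ (2 * ∑ a, r a)) ⟨fun _ => 0, by simp [R]⟩
  refine ⟨{t ∈ U | c t = r}, filter_subset _ _, r, ?_, fun a => ?_⟩
  · have e1 : (∑ t ∈ T0, ρ ^ (2 * ∑ a, ν (t a))) ^ m = ∑ t ∈ U, ρ ^ (2 * ∑ a, c t a) := by
      have := prod_univ_sum (fun _ : Fin m => T0) fun _ t => ρ ^ (2 * ∑ a, ν (t a))
      rw [prod_const, card_univ, Fintype.card_fin] at this
      rw [this]
      refine sum_congr rfl fun t _ => ?_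
      rw [prod_pow_eq_pow_sum, ← mul_sum, sum_comm]
    rw [e1, ← sum_fiberwise_of_maps_to hc]
    refine (sum_le_card_nsmul _ _ _ fun r' hr' => le_trans ?_ (hmax r' hr')).trans ?_
    · rw [sum_congr rfl fun t ht => by rw [(mem_filter.1 ht).2]]
      simp
    · simp [R]
  · have e1 : (∑ x ∈ S, ρ ^ (3 * ν x)) ^ m =
        ∑ x ∈ Fintype.piFinset fun _ : Fin m => S, ρ ^ (3 * ∑ i, ν (x i)) := by
      have := prod_univ_sum (fun _ : Fin m => S) fun _ x => ρ ^ (3 * ν x)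
      rw [prod_const, card_univ, Fintype.card_fin] at this
      rw [this]
      refine sum_congr rfl fun t _ => ?_
      rw [prod_pow_eq_pow_sum, ← mul_sum]
    rw [e1]
    refine le_trans ?_ (sum_le_sum_of_subset_of_nonneg
      (s := ({t ∈ U | c t = r} : Finset _).image fun t i => t i a) ?_ fun _ _ _ => by positivity)
    · rw [sum_congr rfl (g := fun _ => ρ ^ (3 * r a)) fun x hx => ?_]
      · simp
      · obtain ⟨t, ht, rfl⟩ := mem_image.1 hx
        rw [← (mem_filter.1 ht).2]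
    · intro x hx
      obtain ⟨t, ht, rfl⟩ := mem_image.1 hx
      exact Fintype.mem_piFinset.2 fun i =>
        hT0 _ (Fintype.mem_piFinset.1 (mem_filter.1 ht).1 i) a

/-- pairs completing to a triple with sum `c` -/
def D (I : Finset ℤ) (c : ℤ) : Finset (ℤ × ℤ) := {p ∈ I ×ˢ I | c - p.1 - p.2 ∈ I}

/-- weight of the triples with sum `c` -/
def G (ρ : ℚ) (I : Finset ℤ) (ν1 : ℤ → ℕ) (c : ℤ) : ℚ :=
  ∑ p ∈ D I c, ρ ^ (2 * (ν1 p.1 + ν1 p.2 + ν1 (c - p.1 - p.2)))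

theorem numeric : ∃ (ρ : ℚ) (I : Finset ℤ) (ν1 : ℤ → ℕ), 0 < ρ ∧ I.Nonempty ∧
    5 * (∑ x ∈ I, ρ ^ (3 * ν1 x)) ^ 8 <
      (G ρ I ν1 1 * G ρ I ν1 1 + G ρ I ν1 2 * G ρ I ν1 1 + G ρ I ν1 1 * G ρ I ν1 2) ^ 2 :=
  ⟨99 / 100, Icc (-15) 16, fun x => (x * (x - 1)).toNat, by norm_num, ⟨0, by simp⟩,
    by decide +kernel⟩

/-- the block triple with given parameters -/
def blk (w : Σ _ : P, (ℤ × ℤ) × (ℤ × ℤ)) : Fin 3 → P :=
  ![(w.2.1.1, w.2.2.1), (w.2.1.2, w.2.2.2),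
    (w.1.1 - w.2.1.1 - w.2.1.2, w.1.2 - w.2.2.1 - w.2.2.2)]

theorem blk_sum (w : Σ _ : P, (ℤ × ℤ) × (ℤ × ℤ)) : ∑ a, blk w a = w.1 := by
  simp [blk, Fin.sum_univ_three]

theorem blk_inj : Function.Injective blk := by
  rintro ⟨w, ⟨a, b⟩, c, d⟩ ⟨w', ⟨a', b'⟩, c', d'⟩ h
  have h0 := congrFun h 0
  have h1 := congrFun h 1
  have h2 : w = w' := (blk_sum ⟨w, (a, b), c, d⟩).symm.trans (h ▸ blk_sum _)
  simp only [blk, Matrix.cons_val_zero, Matrix.cons_val_one, Prod.mk.injEq] at h0 h1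
  rw [h2, h0.1, h0.2, h1.1, h1.2]

theorem poly_lt_pow {γ : ℝ} (hγ : 1 < γ) (A B : ℝ) (hB : 0 ≤ B) (k : ℕ) :
    ∀ᶠ m : ℕ in atTop, A * (m * B + 1) ^ k < γ ^ m := by
  have h := (tendsto_pow_const_div_const_pow_of_one_lt k hγ).const_mul (|A| * (B + 1) ^ k)
  rw [mul_zero] at h
  filter_upwards [h.eventually (gt_mem_nhds zero_lt_one), eventually_ge_atTop 1] with m hm h1
  have h1' : (1 : ℝ) ≤ m := by exact_mod_cast h1
  rw [← mul_div_assoc, div_lt_one (by positivity)] at hm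
  refine lt_of_le_of_lt ?_ hm
  rw [mul_assoc, ← mul_pow]
  exact mul_le_mul (le_abs_self A) (pow_le_pow_left₀ (by positivity) (by nlinarith) k)
    (by positivity) (abs_nonneg A)

theorem base_alg {Z Y u p N T : ℝ} {m : ℕ} (hY : 0 < Y) (hZ : 0 ≤ Z) (hu : 0 < u) (hp : 0 < p)
    (hN : 0 ≤ N) (hm : 9 * p ^ 18 < ((Z ^ 2 / (5 * Y ^ 4)) ^ 3) ^ m)
    (h1 : Z ^ m ≤ p ^ 3 * (T * u ^ 2)) (h3 : N * u ^ 3 ≤ (Y ^ m) ^ 3) :
    9 * 5 ^ (3 * m) * N ^ 4 < (T ^ 3) ^ 2 := by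
  have h4 := pow_le_pow_left₀ (by positivity) h3 4
  have h5 := pow_le_pow_left₀ (by positivity) h1 6
  rw [← pow_mul, div_pow, lt_div_iff₀ (by positivity)] at hm
  have h6 : (9 * 5 ^ (3 * m) * N ^ 4) * (u ^ 12 * p ^ 18) < (T ^ 3) ^ 2 * (u ^ 12 * p ^ 18) :=
    calc _ = 9 * p ^ 18 * 5 ^ (3 * m) * (N * u ^ 3) ^ 4 := by ring
      _ ≤ 9 * p ^ 18 * 5 ^ (3 * m) * ((Y ^ m) ^ 3) ^ 4 := by gcongr
      _ = 9 * p ^ 18 * (5 * Y ^ 4) ^ (3 * m) := by ring
      _ < (Z ^ 2) ^ (3 * m) := hm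
      _ = (Z ^ m) ^ 6 := by ring
      _ ≤ _ := h5
      _ = _ := by ring
  exact lt_of_mul_lt_mul_right h6 (by positivity)

/-- the base system -/
theorem exists_base : ∃ (m C N r : ℕ) (T : Finset (Fin 3 × Fin m → Fin 3 → P)),
    (Good C T fun _ => N) ∧ 5 ^ (3 * m) < 9 ^ r ∧ 3 ^ r * N ^ 2 < #T := by
  classical
  obtain ⟨ρ, I, ν1, hρ, ⟨x0, hx0⟩, hnum⟩ := numeric
  have hρ' : (0 : ℝ) < ρ := by exact_mod_cast hρ
  let S : Finset P := I ×ˢ I
  let ν : P → ℕ := fun x => ν1 x.1 + ν1 x.2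
  let W : Finset P := {(1, 1), (2, 1), (1, 2)}
  let T0 : Finset (Fin 3 → P) := (W.sigma fun w => D I w.1 ×ˢ D I w.2).image blk
  have hT0 : ∀ t ∈ T0, ∀ a, t a ∈ S := by
    intro t ht a
    obtain ⟨w, hw, rfl⟩ := mem_image.1 ht
    simp only [mem_sigma, mem_product, D, mem_filter] at hw
    fin_cases a <;> simp [S, blk, hw]
  have hq : ∀ t ∈ T0, q (∑ a, t a) = 0 := by
    intro t ht
    obtain ⟨w, hw, rfl⟩ := mem_image.1 ht
    have := (mem_sigma.1 hw).1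
    rw [blk_sum]
    simp only [W, mem_insert, mem_singleton] at this
    rcases this with h | h | h <;> rw [h] <;> decide
  set Z : ℝ := ∑ t ∈ T0, (ρ : ℝ) ^ (2 * ∑ a, ν (t a)) with hZ
  set Y : ℝ := ∑ x ∈ S, (ρ : ℝ) ^ (3 * ν x) with hY
  have hZY : 5 * Y ^ 4 < Z ^ 2 := by
    have h := (Rat.cast_lt (K := ℝ)).2 hnum
    have e1 : Y = (∑ x ∈ I, (ρ : ℝ) ^ (3 * ν1 x)) ^ 2 := by
      rw [hY, sum_product, sq, sum_mul_sum]
      simp only [ν, mul_add, pow_add]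
    have e2 : Z = ∑ w ∈ W, (G ρ I ν1 w.1 : ℝ) * G ρ I ν1 w.2 := by
      rw [hZ, sum_image fun _ _ _ _ h => blk_inj h, sum_sigma]
      refine sum_congr rfl fun w _ => ?_
      simp only [G]
      push_cast
      rw [sum_product, sum_mul_sum]
      refine sum_congr rfl fun x _ => sum_congr rfl fun y _ => ?_
      rw [← pow_add]
      congr 1
      simp [blk, ν, Fin.sum_univ_three]
      ring
    rw [e1, e2, sum_insert (by decide), sum_pair (by decide), ← pow_mul, ← add_assoc]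
    push_cast at h
    exact h
  have hYpos : 0 < Y := sum_pos (fun _ _ => by positivity) ⟨(x0, x0), by simp [S, hx0]⟩
  have hγ : 1 < (Z ^ 2 / (5 * Y ^ 4)) ^ 3 :=
    one_lt_pow₀ ((one_lt_div (by positivity)).2 hZY) (by norm_num)
  obtain ⟨m, hm⟩ := (poly_lt_pow hγ 9 (S.sup ν : ℕ) (by positivity) 18).exists
  obtain ⟨T, hTU, r, h1, h2⟩ := weighted (S := S) (ν := ν) (fun x hx => le_sup (f := ν) hx) hT0
    hρ' m
  rw [← hZ] at h1
  rw [← hY] at h2
  let C : ℕ := (S ×ˢ S).sup fun p => (f p.1 p.2).natAbs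
  have hG : Good C T fun a => #(T.image fun t i => t i a) := by
    refine ⟨fun t ht i => hq _ (Fintype.mem_piFinset.1 (hTU ht) i), fun t ht i a b => ?_,
      fun a => le_rfl⟩
    have h := hT0 _ (Fintype.mem_piFinset.1 (hTU ht) i)
    rw [← Int.natCast_natAbs, Nat.cast_le]
    exact le_sup (f := fun p : P × P => (f p.1 p.2).natAbs) (b := (t i a, t i b))
      (mem_product.2 ⟨h a, h b⟩)
  choose T' hT' hcard using hG.rot
  obtain ⟨T2, hT2, hc2⟩ := Good.prod hT'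
  set N := ∏ a, #(T.image fun t i => t i a) with hN
  obtain ⟨k, hk1, hk2⟩ : ∃ k, 9 ^ k ≤ 5 ^ (3 * m) ∧ 5 ^ (3 * m) < 9 ^ (k + 1) :=
    ⟨_, Nat.pow_log_le_self 9 (by positivity), Nat.lt_pow_succ_log_self (by norm_num) _⟩
  refine ⟨m, C, N, k + 1, T2, hT2.mono fun a => ?_, hk2, ?_⟩
  · exact le_of_eq (Equiv.prod_comp (Equiv.addLeft a) fun a => #(T.image fun t i => t i a))
  · simp only [hcard, prod_const, card_univ, Fintype.card_fin] at hc2
    rw [hc2]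
    refine lt_of_pow_lt_pow_left₀ 2 (Nat.zero_le _) ?_
    have e : (3 ^ (k + 1) * N ^ 2) ^ 2 = 9 * 9 ^ k * N ^ 4 := by
      rw [show (9 : ℕ) ^ k = (3 ^ k) ^ 2 by rw [← pow_mul, mul_comm, pow_mul]; norm_num]; ring
    refine lt_of_le_of_lt (e.le.trans (Nat.mul_le_mul_right _ (Nat.mul_le_mul_left 9 hk1))) ?_
    set u : ℝ := (ρ : ℝ) ^ (∑ a, r a) with hu
    set p : ℝ := m * (S.sup ν : ℕ) + 1 with hp
    have hu0 : 0 < u := by positivity
    have hp0 : 0 < p := by positivity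
    have h3 : (N : ℝ) * u ^ 3 ≤ (Y ^ m) ^ 3 := by
      have := prod_le_prod (s := univ) (fun a _ => by positivity) fun a _ => h2 a
      rw [prod_mul_distrib, prod_pow_eq_pow_sum, ← mul_sum, prod_const, card_univ,
        Fintype.card_fin, mul_comm 3, pow_mul, ← Nat.cast_prod] at this
      exact this
    rw [mul_comm 2, pow_mul, ← hu] at h1
    exact_mod_cast base_alg hYpos (sum_nonneg fun _ _ => by positivity) hu0 hp0
      (Nat.cast_nonneg N) hm h1 h3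

theorem fin_alg {a b g p : ℝ} {j : ℕ} (ha : 0 < a) (hb : 0 < b) (hg : 0 < g)
    (h : 8 * 6 ^ 3 * a ^ 2 * g * p < g ^ j) :
    (2 * b ^ j) ^ 3 * p * (6 ^ 3 * ((a ^ (j + 1)) ^ 2 * g ^ (j + 1))) ≤
      (g * g * (b ^ 3 * a ^ 2)) ^ j :=
  calc _ = 8 * 6 ^ 3 * a ^ 2 * g * p * (g * (b ^ 3 * a ^ 2)) ^ j := by ring
    _ ≤ g ^ j * (g * (b ^ 3 * a ^ 2)) ^ j := by gcongr
    _ = _ := by ring

/-- `K_{1,2,2}`-free shadows with a superquadratic number of edges -/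
theorem exists_noWheel : ∃ δ : ℝ, 0 < δ ∧ ∃ n₀ : ℕ, ∀ n ≥ n₀, ∃ H : Finset (Finset (Fin n)),
    (∀ e ∈ H, #e = 3) ∧ NoWheel H ∧ (n : ℝ) ^ (2 + δ) ≤ #H := by
  classical
  obtain ⟨m, C, N, r, T, hT, hr, hlt⟩ := exists_base
  have hle := hT.card_le
  have hN : 0 < N := by
    rcases Nat.eq_zero_or_pos N with rfl | h
    · omega
    · exact h
  have hb : (0 : ℝ) < 3 ^ r := by positivity
  have hN' : (0 : ℝ) < N := by exact_mod_cast hN
  have hlt' : (3 : ℝ) ^ r * N ^ 2 < #T := by exact_mod_cast hlt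
  have hle' : (#T : ℝ) ≤ N ^ 3 := by exact_mod_cast hle
  set b : ℝ := 3 ^ r with hbdef
  set a : ℝ := N / b with hadef
  have ha : 1 < a := by
    rw [hadef, one_lt_div hb]
    refine lt_of_mul_lt_mul_right (a := (N : ℝ) ^ 2) ?_ (by positivity)
    linarith [show (N : ℝ) ^ 3 = N * N ^ 2 by ring]
  set γ : ℝ := #T / (b * N ^ 2) with hγdef
  have hγ : 1 < γ := by rw [hγdef, one_lt_div (by positivity)]; exact hlt'
  have hs1 : 1 < √γ := by rw [Real.lt_sqrt zero_le_one]; simpa using hγ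
  set g : ℝ := √γ with hg
  have hgg : g * g = γ := Real.mul_self_sqrt (by linarith)
  have hla : 0 < Real.log a := Real.log_pos ha
  have hlg : 0 < Real.log g := Real.log_pos hs1
  set δ : ℝ := min 1 (Real.log g / Real.log a) with hδ
  have hδ0 : 0 < δ := lt_min one_pos (div_pos hlg hla)
  have haδ : a ^ δ ≤ g := by
    rw [Real.rpow_le_iff_le_log (by linarith) (by linarith), ← le_div_iff₀ hla]
    exact min_le_right _ _
  obtain ⟨j₀, hj₀⟩ := eventually_atTop.1 ((poly_lt_pow hs1 (8 * 6 ^ 3 * a ^ 2 * g)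
    (2 * (C * (3 * m))) (by positivity) 2).and (eventually_ge_atTop 1))
  refine ⟨δ, hδ0, 3 * ⌈a ^ j₀⌉₊ + 3, fun n hn => ?_⟩
  set s := n / 3 with hs
  have hs0 : 0 < s := by omega
  have hs' : a ^ j₀ ≤ s := (Nat.le_ceil _).trans (by exact_mod_cast (by omega))
  have hs1' : (1 : ℝ) ≤ s := by exact_mod_cast hs0
  obtain ⟨j, hj1, hj2⟩ := exists_nat_pow_near hs1' ha
  have hj : j₀ ≤ j := Nat.lt_succ_iff.1 ((pow_lt_pow_iff_right₀ ha).1 (hs'.trans_lt hj2))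
  obtain ⟨hpoly, hj3⟩ := hj₀ j hj
  obtain ⟨T2, hT2, hc2⟩ := Good.prod (J := Fin j) fun _ => hT
  simp only [prod_const, card_univ, Fintype.card_fin] at hT2 hc2
  have hcard : Fintype.card (Fin j × Fin 3 × Fin m) = j * (3 * m) := by simp
  obtain ⟨H, h1, h2, h3⟩ := exists_hyper hT2 (r := r * j) (s := s) (n := n)
    (by rw [hcard, mul_comm j, pow_mul 5, pow_mul 9]; exact Nat.pow_lt_pow_left hr (by omega))
    hs0 (by omega)
  refine ⟨H, h1, h2, ?_⟩
  rw [hc2, hcard] at h3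
  have h4 : ((N ^ j / s : ℕ) : ℝ) ≤ b ^ j := by
    refine Nat.cast_div_le.trans ?_
    rw [div_le_iff₀ (by positivity)]
    rw [hadef, div_pow, div_le_iff₀ (by positivity)] at hj1
    push_cast
    linarith
  have h5 : (#T : ℝ) ^ j ≤ (2 * b ^ j) ^ 3 * (j * (2 * (C * (3 * m))) + 1) ^ 2 * #H := by
    have h3' : (#T : ℝ) ^ j ≤ (3 ^ (r * j) + (N ^ j / s : ℕ)) ^ 3 *
        (2 * (C * (j * (3 * m))) + 1) ^ 2 * #H := by exact_mod_cast h3
    refine h3'.trans ?_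
    rw [pow_mul, ← hbdef, show (2 * (C * (j * (3 * m))) + 1 : ℝ) =
      j * (2 * (C * (3 * m))) + 1 by ring]
    gcongr
    linarith
  set p : ℝ := (j * (2 * (C * (3 * m))) + 1) ^ 2 with hp
  have hp0 : 0 < p := by positivity
  have ha0 : 0 < a := by linarith
  have hg0 : 0 < g := by linarith
  have hn6 : (n : ℝ) ≤ 6 * a ^ (j + 1) := by
    have : n ≤ 6 * s := by omega
    have : (n : ℝ) ≤ 6 * s := by exact_mod_cast this
    linarith
  have h6 : (n : ℝ) ^ (2 + δ) ≤ 6 ^ 3 * ((a ^ (j + 1)) ^ 2 * g ^ (j + 1)) :=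
    calc (n : ℝ) ^ (2 + δ) ≤ (6 * a ^ (j + 1)) ^ (2 + δ) := by gcongr
      _ = 6 ^ (2 + δ) * ((a ^ (j + 1)) ^ 2 * (a ^ δ) ^ (j + 1)) := by
        rw [Real.mul_rpow (by norm_num) (by positivity), Real.rpow_add (pow_pos ha0 _),
          Real.rpow_two, ← Real.rpow_natCast a, ← Real.rpow_mul ha0.le, mul_comm _ δ,
          Real.rpow_mul ha0.le, Real.rpow_natCast, Real.rpow_natCast]
      _ ≤ 6 ^ (3 : ℝ) * ((a ^ (j + 1)) ^ 2 * g ^ (j + 1)) := by
        have : δ ≤ 1 := min_le_left _ _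
        gcongr
        · norm_num
        · linarith
      _ = _ := by norm_num
  have hT' : (#T : ℝ) = g * g * (b ^ 3 * a ^ 2) := by
    rw [hgg, hγdef, hadef]; field_simp
  refine h6.trans (le_of_mul_le_mul_left (a := (2 * b ^ j) ^ 3 * p) ?_ (by positivity))
  refine le_trans ?_ h5
  rw [hT']
  exact fin_alg ha0 hb hg0 hpoly

end Pool.Agent.Lib.MP_5a6238_co.Wheel
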