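import Mathlib
import Pool.Agent.Lib.MP_5a6238_co.WheelB

/-!
The cone over a wheel-free 3-graph: an `r`-partite `r`-graph with more than `n ^ (r - 1)` edges
whose shadow has no `K_{1,2,2}` inside the first three classes.
-/

set_option autoImplicit false

namespace Pool.Agent.Lib.MP_5a6238_co.Wheel

open Finset

theorem cone_asym {δ : ℝ} (hδ : 0 < δ) {r : ℕ} (hr : 0 < r) {a : ℝ} (ha : 0 ≤ a) :
    ∃ n₀ : ℕ, ∀ n ≥ n₀, (n : ℝ) ^ (a + δ / 2) ≤ ((n / r : ℕ) : ℝ) ^ (a + δ) := by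
  have h1 : ∀ᶠ n : ℕ in Filter.atTop, (2 * r : ℝ) ^ (a + δ) ≤ (n : ℝ) ^ (δ / 2) :=
    ((tendsto_rpow_atTop (half_pos hδ)).comp tendsto_natCast_atTop_atTop).eventually_ge_atTop _
  obtain ⟨n₀, h⟩ := Filter.eventually_atTop.1 (h1.and (Filter.eventually_ge_atTop r))
  refine ⟨n₀, fun n hn => ?_⟩
  obtain ⟨h2, h3⟩ := h n hn
  have hr' : (0 : ℝ) < 2 * r := by positivity
  have hn0 : (0 : ℝ) < n := by exact_mod_cast lt_of_lt_of_le hr h3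
  have h4 : n ≤ 2 * r * (n / r) := by
    have h5 := Nat.div_add_mod n r
    have h6 := Nat.mod_lt n hr
    have h7 : r * 1 ≤ r * (n / r) := Nat.mul_le_mul_left r ((Nat.one_le_div_iff hr).2 h3)
    rw [mul_assoc]
    omega
  have h5 : (n : ℝ) ≤ 2 * r * ((n / r : ℕ) : ℝ) := by exact_mod_cast h4
  have h6 : (n : ℝ) ^ (a + δ) ≤ (2 * r : ℝ) ^ (a + δ) * ((n / r : ℕ) : ℝ) ^ (a + δ) := by
    rw [← Real.mul_rpow hr'.le (Nat.cast_nonneg _)]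
    exact Real.rpow_le_rpow hn0.le h5 (by positivity)
  have h7 : (n : ℝ) ^ (δ / 2) * (n : ℝ) ^ (a + δ / 2) = (n : ℝ) ^ (a + δ) := by
    rw [← Real.rpow_add hn0]
    congr 1
    ring
  refine le_of_mul_le_mul_left ?_ (Real.rpow_pos_of_pos hn0 (δ / 2))
  rw [h7]
  exact h6.trans (mul_le_mul_of_nonneg_right h2 (by positivity))

theorem exists_cone : ∃ δ : ℝ, 0 < δ ∧ ∀ k : ℕ, ∃ n₀ : ℕ, ∀ n ≥ n₀,
    ∃ (T : Finset (Finset (Fin n))) (c : Fin n → Fin (3 + k)),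
      (∀ e ∈ T, #e = 3 + k ∧ Set.BijOn c e Set.univ) ∧
      (∀ x y y' z z' : Fin n, (c x : ℕ) < 3 → (c y : ℕ) < 3 → (c y' : ℕ) < 3 → (c z : ℕ) < 3 →
        (c z' : ℕ) < 3 → Sh T x y → Sh T x y' → Sh T x z → Sh T x z' → Sh T y z → Sh T y z' →
        Sh T y' z → Sh T y' z' → y = y' ∨ z = z') ∧
      (n : ℝ) ^ (2 + k + δ) ≤ #T := by
  classical
  obtain ⟨δ, hδ, m₀, h⟩ := exists_noWheel
  refine ⟨δ / 2, half_pos hδ, fun k => ?_⟩
  obtain ⟨n₁, hn₁⟩ := cone_asym hδ (r := 3 + k) (by omega) (a := 2 + k) (by positivity)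
  refine ⟨max n₁ ((m₀ + 1) * (3 + k)), fun n hn => ?_⟩
  have hA := hn₁ n (le_of_max_le_left hn)
  have hm0 : m₀ + 1 ≤ n / (3 + k) := (Nat.le_div_iff_mul_le (by omega)).2 (le_of_max_le_right hn)
  have hmn : (3 + k) * (n / (3 + k)) ≤ n := Nat.mul_div_le n (3 + k)
  generalize n / (3 + k) = m at hA hm0 hmn
  obtain ⟨H, h1, h3, h2⟩ := h m (by omega)
  obtain ⟨ι⟩ : Nonempty (Fin (3 + k) × Fin m ↪ Fin n) :=
    Function.Embedding.nonempty_of_card_le (by simpa using hmn)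
  have : Nonempty (Fin (3 + k) × Fin m) := ⟨(⟨0, by omega⟩, ⟨0, by omega⟩)⟩
  obtain ⟨ρ, hρ⟩ := ι.injective.hasLeftInverse
  replace hρ : ∀ p, ρ (ι p) = p := hρ
  obtain ⟨σ, hσ, hσ'⟩ : ∃ σ : H → Fin 3 → Fin m, (∀ e, Function.Injective (σ e)) ∧
      ∀ e, Set.range (σ e) = (e.1 : Set (Fin m)) :=
    ⟨fun e => e.1.orderEmbOfFin (h1 e.1 e.2), fun e => (e.1.orderEmbOfFin _).injective,
      fun e => range_orderEmbOfFin _ _⟩
  obtain ⟨g, hg, hg'⟩ : ∃ g : H × (Fin k → Fin m) → Fin (3 + k) → Fin m,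
      (∀ p i, g p (Fin.castAdd k i) = σ p.1 i) ∧ ∀ p i, g p (Fin.natAdd 3 i) = p.2 i :=
    ⟨fun p => Fin.append (σ p.1) p.2, fun p i => Fin.append_left _ _ i,
      fun p i => Fin.append_right _ _ i⟩
  obtain ⟨E, hE, hE'⟩ : ∃ E : H × (Fin k → Fin m) → Finset (Fin n),
      (∀ p u, u ∈ E p ↔ ∃ i, ι (i, g p i) = u) ∧ ∀ p, #(E p) = 3 + k :=
    ⟨fun p => univ.image fun i => ι (i, g p i), fun p u => by simp, fun p => by
      rw [card_image_of_injective _ fun i j hij => congrArg Prod.fst (ι.injective hij)]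
      simp⟩
  have hinj : Function.Injective E := by
    intro p q hpq
    have hpq' : ∀ i, g q i = g p i := by
      intro i
      obtain ⟨j, hj⟩ := (hE q _).1 (hpq ▸ (hE p _).2 ⟨i, rfl⟩)
      obtain ⟨rfl, hj'⟩ := Prod.mk.inj (ι.injective hj)
      exact hj'
    refine Prod.ext (Subtype.ext (coe_injective ?_)) (funext fun i => ?_)
    · rw [← hσ', ← hσ']
      congr 1
      funext i
      rw [← hg, ← hg, hpq']
    · rw [← hg', ← hg', hpq']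
  have hS : ∀ u v, Sh (univ.image E) u v → ((ρ u).1 : ℕ) < 3 → ((ρ v).1 : ℕ) < 3 →
      Sh H (ρ u).2 (ρ v).2 ∧ ((ρ u).1 : ℕ) ≠ (ρ v).1 ∧ ι (ρ u) = u ∧ ι (ρ v) = v := by
    rintro u v ⟨huv, e, he, hu, hv⟩
    obtain ⟨p, -, rfl⟩ := mem_image.1 he
    obtain ⟨i, rfl⟩ := (hE _ _).1 hu
    obtain ⟨j, rfl⟩ := (hE _ _).1 hv
    simp only [hρ]
    intro hi hj
    have hij : i ≠ j := by
      rintro rfl
      exact huv rfl
    obtain ⟨i, rfl⟩ : ∃ i' : Fin 3, Fin.castAdd k i' = i := ⟨⟨i, hi⟩, Fin.ext rfl⟩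
    obtain ⟨j, rfl⟩ : ∃ j' : Fin 3, Fin.castAdd k j' = j := ⟨⟨j, hj⟩, Fin.ext rfl⟩
    rw [hg, hg]
    refine ⟨⟨fun h => hij (by rw [hσ _ h]), p.1.1, p.1.2, ?_, ?_⟩,
      fun h => hij (Fin.ext h), by simp⟩ <;>
    · rw [← mem_coe, ← hσ']
      exact ⟨_, rfl⟩
  refine ⟨univ.image E, fun v => (ρ v).1, fun e he => ?_, ?_, ?_⟩
  · obtain ⟨p, -, rfl⟩ := mem_image.1 he
    refine ⟨hE' p, fun _ _ => trivial, fun u hu v hv huv => ?_, fun i _ => ?_⟩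
    · obtain ⟨i, rfl⟩ := (hE _ _).1 hu
      obtain ⟨j, rfl⟩ := (hE _ _).1 hv
      simp only [hρ] at huv
      rw [huv]
    · exact ⟨_, (hE p _).2 ⟨i, rfl⟩, by simp only [hρ]⟩
  · intro x y y' z z' cx cy cy' cz cz' a1 a2 a3 a4 a5 a6 a7 a8
    obtain ⟨b1, c1, -, ey⟩ := hS _ _ a1 cx cy
    obtain ⟨b2, c2, -, ey'⟩ := hS _ _ a2 cx cy'
    obtain ⟨b3, c3, -, ez⟩ := hS _ _ a3 cx cz
    obtain ⟨b4, c4, -, ez'⟩ := hS _ _ a4 cx cz'
    obtain ⟨b5, c5, -⟩ := hS _ _ a5 cy cz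
    obtain ⟨b6, c6, -⟩ := hS _ _ a6 cy cz'
    obtain ⟨b7, c7, -⟩ := hS _ _ a7 cy' cz
    obtain ⟨b8, -⟩ := hS _ _ a8 cy' cz'
    dsimp only at cx cy cy' cz cz'
    rcases h3 _ _ _ _ _ b1 b2 b3 b4 b5 b6 b7 b8 with h | h
    · exact .inl (by rw [← ey, ← ey', Prod.ext (Fin.ext (by omega) : (ρ y).1 = (ρ y').1) h])
    · exact .inr (by rw [← ez, ← ez', Prod.ext (Fin.ext (by omega) : (ρ z).1 = (ρ z').1) h])
  · have hm : (0 : ℝ) < m := by exact_mod_cast (by omega : 0 < m)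
    rw [card_image_of_injective _ hinj, card_univ, Fintype.card_prod, Fintype.card_coe,
      Fintype.card_fun, Fintype.card_fin, Fintype.card_fin]
    push_cast
    refine hA.trans ?_
    rw [show (2 + k + δ : ℝ) = 2 + δ + (k : ℕ) by ring, Real.rpow_add hm, Real.rpow_natCast]
    exact mul_le_mul_of_nonneg_right h2 (by positivity)

end Pool.Agent.Lib.MP_5a6238_co.Wheel
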