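import Mathlib
import Pool.Agent.Lib.MP_5a6238_co.Av

/-!
A 2-degenerate graph avoided by the shadows of 3-graphs with superquadratically many edges.
-/

set_option autoImplicit false

namespace Pool.Agent.Lib.MP_5a6238_co.Degen

open Finset

open Classical in
/-- indicator of a proposition -/
noncomputable def ind (p : Prop) : ℝ := if p then 1 else 0

lemma ind_nonneg (p : Prop) : 0 ≤ ind p := by unfold ind; split_ifs <;> norm_num

lemma ind_true {p : Prop} (h : p) : ind p = 1 := by simp [ind, h]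

lemma ind_false {p : Prop} (h : ¬p) : ind p = 0 := by simp [ind, h]

lemma ind_forall {ι : Type} [Fintype ι] (p : ι → Prop) : ind (∀ i, p i) = ∏ i, ind (p i) := by
  by_cases h : ∀ i, p i
  · rw [ind_true h, prod_eq_one fun i _ => ind_true (h i)]
  · rw [ind_false h]
    push Not at h
    obtain ⟨i, hi⟩ := h
    exact (prod_eq_zero (mem_univ i) (ind_false hi)).symm

lemma av_ind_eq {X : Type} [Fintype X] (a : X) :
    av (fun x => ind (x = a)) = 1 / Fintype.card X := by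
  rw [av, sum_eq_single a (fun b _ h => ind_false h) (by simp), ind_true rfl]

/-- the data carried by a vertex in one block: a point and two labels -/
abbrev Y (M : ℕ) := Fin M × (Fin 2 → Fin M → Bool)

variable {M : ℕ}

lemma av_eval {α X : Type} [Fintype α] [DecidableEq α] [Fintype X] [Nonempty X] (a : α)
    (f : X → ℝ) : av (fun L : α → X => f (L a)) = av f := by
  have := av_comp_inj (X := X) (⟨fun _ : Unit => a, fun _ _ _ => rfl⟩ : Unit ↪ α)
    (fun z => f (z ()))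
  refine this.trans ?_
  exact av_equiv (Equiv.funUnique Unit X) f

lemma av_quarter [NeZero M] (x : Fin 2 → Fin M) :
    av (fun y : Y M => ind (∀ w, y.2 w (x w) = true)) = 1 / 4 := by
  rw [av_prod_type]
  simp only [ind_forall]
  rw [av_const, av_pi (fun w (L : Fin M → Bool) => ind (L (x w) = true))]
  have : ∀ w, av (fun L : Fin M → Bool => ind (L (x w) = true)) = 1 / 2 := fun w => by
    rw [av_eval (x w) (fun b => ind (b = true)), av_bool]
    simp [ind]
  simp only [this]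
  norm_num

/-- a pair of joined pages in one block -/
def Pg (u : Fin 2) (x : Fin 2 × Fin 2 → Y M) (p : Fin 2 → Y M) : Prop :=
  (∀ s w, (p s).2 w (x (s, w)).1 = true) ∧ ∃ z, ∀ s, (p s).2 u z = true

lemma av_adj [NeZero M] (x : Fin 2 × Fin 2 → Y M) :
    av (fun p : Fin 2 → Y M => ind (∀ s w, (p s).2 w (x (s, w)).1 = true)) = 1 / 16 := by
  simp only [ind_forall (fun s => ∀ w, _)]
  rw [av_pi (fun s (y : Y M) => ind (∀ w, y.2 w (x (s, w)).1 = true))]
  simp only [av_quarter]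
  norm_num

lemma av_Pg_le [NeZero M] (u : Fin 2) (x : Fin 2 × Fin 2 → Y M) :
    av (fun p => ind (Pg u x p)) ≤ 1 / 16 := by
  rw [← av_adj x]
  refine av_mono fun p => ?_
  by_cases h : Pg u x p
  · rw [ind_true h, ind_true h.1]
  · rw [ind_false h]; exact ind_nonneg _

lemma av_Pg_lt [NeZero M] (u : Fin 2) (x : Fin 2 × Fin 2 → Y M)
    (hx : (x (0, u)).1 ≠ (x (1, u)).1) :
    av (fun p => ind (Pg u x p)) ≤ 1 / 16 - 1 / Fintype.card (Fin 2 → Y M) := by
  classical
  let p0 : Fin 2 → Y M := fun s => (0, fun w z => decide (z = (x (s, w)).1))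
  have h0 := av_ind_eq p0
  rw [← av_adj x, ← h0, ← av_sub]
  refine av_mono fun p => ?_
  by_cases hp : p = p0
  · subst hp
    rw [ind_false, ind_true, ind_true rfl, sub_self]
    · simp [p0]
    · rintro ⟨-, z, hz⟩
      have h1 := hz 0
      have h2 := hz 1
      simp only [p0, decide_eq_true_eq] at h1 h2
      exact hx (h1.symm.trans h2)
  · rw [ind_false hp, sub_zero]
    by_cases h : Pg u x p
    · rw [ind_true h, ind_true h.1]
    · rw [ind_false h]; exact ind_nonneg _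

lemma av_eq [NeZero M] (u : Fin 2) :
    av (fun x : Fin 2 × Fin 2 → Y M => ind ((x (0, u)).1 = (x (1, u)).1)) = 1 / M := by
  have := av_comp_inj (X := Y M)
    (⟨fun s : Fin 2 => (s, u), fun _ _ h => (Prod.mk.inj h).1⟩ : Fin 2 ↪ Fin 2 × Fin 2)
    (fun z => ind ((z 0).1 = (z 1).1))
  refine this.trans ?_
  rw [← av_equiv (finTwoArrowEquiv (Y M)).symm, av_prod_type]
  have h : ∀ a : Y M, av (fun b : Y M => ind (a.1 = b.1)) = 1 / M := fun a => by
    rw [av_prod_type]
    simp only [av_const, eq_comm (a := a.1), av_ind_eq, Fintype.card_fin]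
  simp only [finTwoArrowEquiv_symm_apply, Matrix.cons_val_zero, Matrix.cons_val_one, h]
  exact av_const _

/-- vertices of a bad configuration -/
abbrev Bd (t : ℕ) := (Fin 2 × Fin 2) ⊕ (Fin t × Fin 2)

/-- a bad configuration in one block -/
def Bad (t : ℕ) (u : Fin 2) (y : Bd t → Y M) : Prop :=
  ∀ k, Pg u (fun a => y (Sum.inl a)) fun s => y (Sum.inr (k, s))

lemma av_Bad [NeZero M] : ∃ t : ℕ, ∀ u, av (fun y : Bd t → Y M => ind (Bad t u y)) ≤
    (1 / 16) ^ t * (2 / M) := by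
  have hc : (0 : ℝ) < Fintype.card (Fin 2 → Y M) := Nat.cast_pos.2 Fintype.card_pos
  have hM : (0 : ℝ) < M := Nat.cast_pos.2 (NeZero.pos M)
  set η : ℝ := 1 / Fintype.card (Fin 2 → Y M) with hη
  have hη0 : 0 < η := by positivity
  obtain ⟨t, ht⟩ := exists_pow_lt_of_lt_one (x := 1 / (M : ℝ)) (y := 1 - 16 * η) (by positivity)
    (by linarith)
  refine ⟨t, fun u => ?_⟩
  let e : (Fin 2 × Fin 2 → Y M) × (Fin t → Fin 2 → Y M) ≃ (Bd t → Y M) :=
    ((Equiv.refl _).prodCongr (Equiv.curry _ _ _).symm).trans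
      (Equiv.sumArrowEquivProdArrow _ _ _).symm
  rw [← av_equiv e, av_prod_type]
  have h1 : ∀ x, av (fun p : Fin t → Fin 2 → Y M => ind (Bad t u (e (x, p)))) =
      (av fun p => ind (Pg u x p)) ^ t := fun x => by
    have := av_pi (fun (_ : Fin t) p => ind (Pg u x p))
    rw [prod_const, card_univ, Fintype.card_fin] at this
    rw [← this]
    congr 1
    funext p
    rw [← ind_forall]
    rfl
  simp only [h1]
  refine (av_mono (g := fun x => (1 / 16) ^ t * (ind ((x (0, u)).1 = (x (1, u)).1) + 1 / M))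
    fun x => ?_).trans ?_
  · have h0 : 0 ≤ av fun p => ind (Pg u x p) := av_nonneg fun _ => ind_nonneg _
    by_cases hx : (x (0, u)).1 = (x (1, u)).1
    · rw [ind_true hx]
      refine (pow_le_pow_left₀ h0 (av_Pg_le u x) t).trans (le_mul_of_one_le_right (by positivity) ?_)
      exact le_add_of_nonneg_right (by positivity)
    · rw [ind_false hx, zero_add]
      refine (pow_le_pow_left₀ h0 (av_Pg_lt u x hx) t).trans ?_
      rw [show 1 / 16 - 1 / (Fintype.card (Fin 2 → Y M) : ℝ) = 1 / 16 * (1 - 16 * η) by ring,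
        mul_pow]
      exact mul_le_mul_of_nonneg_left ht.le (by positivity)
  · rw [av_mul_left, av_add, av_const, av_eq]
    exact le_of_eq (by ring)

lemma av_blocks {V W X : Type} [Fintype V] [DecidableEq V] [Fintype W] [DecidableEq W]
    [Fintype X] [Nonempty X] (φ : V ↪ W) (r : ℕ) (p : (V → X) → Prop) :
    av (fun ω : W → Fin r → X => ind (∀ j, p fun v => ω (φ v) j)) =
      (av fun y => ind (p y)) ^ r := by
  have h1 := av_comp_inj (X := Fin r → X) φ (fun z => ind (∀ j, p fun v => z v j))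
  have h2 := av_pi (fun (_ : Fin r) y => ind (p y))
  rw [prod_const, card_univ, Fintype.card_fin] at h2
  refine h1.trans ?_
  rw [← h2, ← av_equiv (Equiv.piComm fun (_ : V) (_ : Fin r) => X)]
  congr 1
  funext z
  rw [ind_forall]
  rfl

/-- an edge of the hypergraph in one block -/
def Tri (y : Fin 3 → Y M) : Prop := ∀ w : Fin 2, (y 2).2 w (y w.castSucc).1 = true

lemma av_Tri [NeZero M] : av (fun y : Fin 3 → Y M => ind (Tri y)) = 1 / 4 := by
  rw [← av_equiv ((Equiv.prodComm _ _).trans (Fin.snocEquiv fun _ : Fin 3 => Y M)), av_prod_type]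
  have : ∀ x : Fin 2 → Y M, (av fun y : Y M => ind (Tri
      (((Equiv.prodComm _ _).trans (Fin.snocEquiv fun _ : Fin 3 => Y M)) (x, y)))) = 1 / 4 := by
    intro x
    rw [← av_quarter fun w => (x w).1]
    congr 1
    funext y
    congr 1
    simp only [Tri, Equiv.trans_apply, Equiv.prodComm_apply, Prod.swap, Fin.snocEquiv_apply,
      Fin.snoc_castSucc]
    rfl
  simp only [this]
  exact av_const _

theorem exists_sample : ∃ (M t : ℕ) (β : ℝ), 1 < β ∧ ∀ (r n : ℕ), 0 < n →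
    (3 * n : ℝ) ≤ (4 * β) ^ r → 4 ≤ r → ∃ ω : Fin 3 × Fin n → Fin r → Y M,
      (n : ℝ) ^ 3 / 4 ^ r / 2 ≤ ∑ a : Fin 3 → Fin n, ind (∀ j, Tri fun i => ω (i, a i) j) ∧
      ∀ (u : Fin 2) (φ : Bd t ↪ Fin 3 × Fin n), ¬∀ j, Bad t u fun v => ω (φ v) j := by
  classical
  obtain ⟨t, ht⟩ := av_Bad (M := 8192)
  obtain ⟨β, hβ1, hβ2⟩ : ∃ β : ℝ, 1 < β ∧ β ^ (4 + 2 * t) ≤ 2 := by
    refine ⟨(2 : ℝ) ^ ((4 + 2 * t : ℕ) : ℝ)⁻¹, Real.one_lt_rpow (by norm_num) (by positivity), ?_⟩
    rw [Real.rpow_inv_natCast_pow (by norm_num) (by omega)]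
  refine ⟨8192, t, β, hβ1, fun r n hn hr hr4 => ?_⟩
  let T : (Fin 3 × Fin n → Fin r → Y 8192) → ℝ := fun ω =>
    ∑ a : Fin 3 → Fin n, ind (∀ j, Tri fun i => ω (i, a i) j)
  let B : (Fin 3 × Fin n → Fin r → Y 8192) → ℝ := fun ω =>
    ∑ q : Fin 2 × (Bd t ↪ Fin 3 × Fin n), ind (∀ j, Bad t q.1 fun v => ω (q.2 v) j)
  have hT : av T = (n : ℝ) ^ 3 / 4 ^ r := by
    rw [av_sum, sum_congr rfl fun a _ => av_blocks
      (⟨fun i => (i, a i), fun _ _ h => (Prod.mk.inj h).1⟩ : Fin 3 ↪ Fin 3 × Fin n) r Tri, av_Tri]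
    simp [div_eq_mul_inv]
  have hB : av B ≤ 1 / 4 ^ r / 2 := by
    rw [av_sum]
    refine (sum_le_card_nsmul _ _ (((1 / 16 : ℝ) ^ t * (2 / ((8192 : ℕ) : ℝ))) ^ r) fun q _ => ?_).trans ?_
    · rw [av_blocks q.2 r (Bad t q.1)]
      exact pow_le_pow_left₀ (av_nonneg fun _ => ind_nonneg _) (ht _) r
    · have h1 : (Fintype.card (Bd t ↪ Fin 3 × Fin n) : ℝ) ≤ (3 * n) ^ (4 + 2 * t) := by
        have := Fintype.card_le_of_injective _
          (DFunLike.coe_injective (F := Bd t ↪ Fin 3 × Fin n))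
        rw [Fintype.card_fun] at this
        simp only [Fintype.card_prod, Fintype.card_fin, Fintype.card_sum] at this
        rw [mul_comm t 2] at this
        exact_mod_cast this
      rw [card_univ, Fintype.card_prod, Fintype.card_fin, nsmul_eq_mul]
      push_cast
      have h2 : (3 * n : ℝ) ^ (4 + 2 * t) ≤ (4 ^ (4 + 2 * t) * 2) ^ r := by
        refine (pow_le_pow_left₀ (by positivity) hr _).trans ?_
        rw [← pow_mul, mul_comm r, pow_mul, mul_pow]
        gcongr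
      have h3 : (4 ^ (4 + 2 * t) * 2 : ℝ) * ((1 / 16) ^ t * (2 / 8192)) = 1 / 4 * (1 / 2) := by
        rw [pow_add, pow_mul, one_div_pow]
        norm_num
        field_simp
        norm_num
      have h4 : (1 / 2 : ℝ) ^ r ≤ (1 / 2) ^ 4 := pow_le_pow_of_le_one (by norm_num) (by norm_num) hr4
      calc _ ≤ 2 * (4 ^ (4 + 2 * t) * 2 : ℝ) ^ r * ((1 / 16) ^ t * (2 / 8192)) ^ r := by
            gcongr
            exact h1.trans h2
        _ = 2 * (1 / 4) ^ r * (1 / 2) ^ r := by rw [mul_assoc, ← mul_pow, h3, mul_pow, mul_assoc]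
        _ ≤ 2 * (1 / 4) ^ r * (1 / 2) ^ 4 := by gcongr
        _ ≤ _ := by
          rw [one_div_pow]
          have : (0 : ℝ) < 1 / 4 ^ r := by positivity
          linarith
  obtain ⟨ω, hω⟩ := exists_ge_av fun ω => T ω - (n : ℝ) ^ 3 * B ω
  rw [av_sub, av_mul_left, hT] at hω
  have hn3 : (0 : ℝ) < (n : ℝ) ^ 3 := by positivity
  have h5 : (n : ℝ) ^ 3 / 4 ^ r / 2 ≤ T ω - (n : ℝ) ^ 3 * B ω := by
    have := mul_le_mul_of_nonneg_left hB hn3.le
    have e : (n : ℝ) ^ 3 * (1 / 4 ^ r / 2) = (n : ℝ) ^ 3 / 4 ^ r / 2 := by ring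
    linarith
  have hB0 : 0 ≤ B ω := sum_nonneg fun _ _ => ind_nonneg _
  refine ⟨ω, h5.trans (sub_le_self _ (by positivity)), fun u φ h => ?_⟩
  have h6 : 1 ≤ B ω := by
    rw [← ind_true h]
    exact single_le_sum (f := fun q : Fin 2 × (Bd t ↪ Fin 3 × Fin n) =>
      ind (∀ j, Bad t q.1 fun v => ω (q.2 v) j)) (fun _ _ => ind_nonneg _) (mem_univ (u, φ))
  have h7 : T ω ≤ (n : ℝ) ^ 3 := by
    refine (sum_le_card_nsmul _ _ 1 fun a _ => ?_).trans (by simp)
    unfold ind; split_ifs <;> norm_num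
  have h8 : (0 : ℝ) < (n : ℝ) ^ 3 / 4 ^ r / 2 := by positivity
  nlinarith

/-- vertices of the forbidden graph -/
abbrev GV (T : ℕ) := (Fin 2 × Fin 3) ⊕ (Fin 3 × Fin 3 × Fin T × Fin 3)

/-- the two earlier neighbours of a vertex -/
def par {T : ℕ} : GV T → Fin 2 → GV T
  | Sum.inl (s, i), b => Sum.inl (s, if b.castSucc < i then b.castSucc else i)
  | Sum.inr (i, j, k, c), b =>
    if c = 0 then Sum.inl (0, i + 1 + b.castSucc)
    else if c = 1 then Sum.inl (1, j + 1 + b.castSucc) else Sum.inr (i, j, k, b.castSucc)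

/-- the rank of a vertex -/
def rk {T : ℕ} : GV T → ℕ
  | Sum.inl (_, i) => i
  | Sum.inr (_, _, _, c) => 3 + c

lemma rk_par {T : ℕ} (v : GV T) (b : Fin 2) : par v b = v ∨ rk (par v b) < rk v := by
  rcases v with ⟨s, i⟩ | ⟨i, j, k, c⟩
  · by_cases h : b.castSucc < i
    · right
      simp only [par, rk, if_pos h]
      exact h
    · left; simp [par, h]
  · right
    have h1 := (i + 1 + b.castSucc).2
    have h2 := (j + 1 + b.castSucc).2
    have h3 := b.2
    fin_cases c <;> simp [par, rk] <;> omega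

/-- the forbidden graph -/
def G (T : ℕ) : SimpleGraph (GV T) := SimpleGraph.fromRel fun v w => ∃ b, w = par v b

lemma G_degen (T : ℕ) (S : Set (GV T)) (hS : S.Nonempty) :
    ∃ v ∈ S, ((G T).neighborSet v ∩ S).ncard ≤ 2 := by
  obtain ⟨v, hv, hmax⟩ := Set.exists_max_image S rk (Set.toFinite S) hS
  refine ⟨v, hv, le_trans (Set.ncard_le_ncard (t := {par v 0, par v 1}) ?_)
    ((Set.ncard_insert_le _ _).trans (by simp))⟩
  rintro w ⟨hw, hwS⟩
  obtain ⟨hne, ⟨b, rfl⟩ | ⟨b, rfl⟩⟩ :=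
    (SimpleGraph.fromRel_adj (fun v w : GV T => ∃ b, w = par v b) v w).1 hw
  · fin_cases b <;> simp
  · rcases rk_par w b with h | h
    · exact absurd h hne
    · exact absurd (hmax w hwS) (by omega)

theorem no_copy {t n r : ℕ} {ω : Fin 3 × Fin n → Fin r → Y M}
    (hω : ∀ (u : Fin 2) (φ : Bd t ↪ Fin 3 × Fin n), ¬∀ j, Bad t u fun v => ω (φ v) j)
    (f : GV (2 * t + 1) ↪ Fin 3 × Fin n)
    (h1 : ∀ v w, (G (2 * t + 1)).Adj v w → (f v).1 ≠ (f w).1)
    (h2 : ∀ v w (u : Fin 2), (G (2 * t + 1)).Adj v w → (f v).1 = 2 → (f w).1 = u.castSucc →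
      ∀ j, (ω (f v) j).2 u (ω (f w) j).1 = true) : False := by
  classical
  have adj : ∀ v b, par v b ≠ v → (G (2 * t + 1)).Adj v (par v b) := fun v b h =>
    (SimpleGraph.fromRel_adj _ _ _).2 ⟨h.symm, Or.inl ⟨b, rfl⟩⟩
  have hsurj : ∀ s : Fin 2, Function.Surjective fun i : Fin 3 => (f (Sum.inl (s, i))).1 := by
    intro s
    rw [← Finite.injective_iff_surjective]
    have a1 := h1 _ _ (adj (Sum.inl (s, 1)) 0 (by simp [par]))
    have a2 := h1 _ _ (adj (Sum.inl (s, 2)) 0 (by simp [par]))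
    have a3 := h1 _ _ (adj (Sum.inl (s, 2)) 1 (by simp [par]))
    have e3 : par (Sum.inl (s, 2) : GV (2 * t + 1)) 1 = Sum.inl (s, 1) := by simp [par]
    rw [e3] at a3
    simp [par] at a1 a2
    intro i j h
    fin_cases i <;> fin_cases j <;> simp_all
  choose v hv using hsurj
  have hvne : ∀ s a b, a ≠ b → v s a ≠ v s b := fun s a b hab h =>
    hab (by rw [← hv s a, h, hv])
  let c : Fin (2 * t + 1) → Fin 3 → GV (2 * t + 1) := fun k a => Sum.inr (v 0 2, v 1 2, k, a)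
  have hc : ∀ k (s w : Fin 2),
      (G (2 * t + 1)).Adj (c k s.castSucc) (Sum.inl (s, v s w.castSucc)) := by
    intro k s w
    have hne := hvne s w.castSucc 2 (by fin_cases w <;> decide)
    obtain ⟨b, hb⟩ : ∃ b : Fin 2, v s w.castSucc = v s 2 + 1 + b.castSucc := by
      revert hne
      generalize v s w.castSucc = x
      generalize v s 2 = y
      revert x y
      decide
    have := adj (c k s.castSucc) b (by fin_cases s <;> simp [c, par])
    rw [hb]
    fin_cases s <;> simpa [c, par] using this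
  have hc2 : ∀ k (s : Fin 2), (f (c k s.castSucc)).1 = 2 := by
    intro k s
    have a1 := h1 _ _ (hc k s 0)
    have a2 := h1 _ _ (hc k s 1)
    have b1 := hv s (Fin.castSucc 0)
    have b2 := hv s (Fin.castSucc 1)
    simp only at b1 b2
    rw [b1] at a1
    rw [b2] at a2
    revert a1 a2
    generalize (f (c k s.castSucc)).1 = x
    revert x
    decide
  have hm : ∀ k (s : Fin 2), (G (2 * t + 1)).Adj (c k s.castSucc) (c k 2) := by
    intro k s
    have := adj (c k 2) s (by fin_cases s <;> simp [c, par])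
    simpa [c, par] using this.symm
  have hu : ∀ k, ∃ u : Fin 2, (f (c k 2)).1 = u.castSucc := by
    intro k
    have a1 := h1 _ _ (hm k 0)
    rw [hc2] at a1
    revert a1
    generalize (f (c k 2)).1 = x
    revert x
    decide
  choose U hU using hu
  obtain ⟨u, hu⟩ := Fintype.exists_lt_card_fiber_of_mul_lt_card (f := U) (n := t) (by simp)
  obtain ⟨κ⟩ := Function.Embedding.nonempty_of_card_le (α := Fin t)
    (β := ({k | U k = u} : Finset _)) (by rw [Fintype.card_fin, Fintype.card_coe]; exact hu.le)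
  let g : Bd t → GV (2 * t + 1) := Sum.elim (fun a => Sum.inl (a.1, v a.1 a.2.castSucc))
    fun a => c (κ a.1).1 a.2.castSucc
  have hg : Function.Injective g := by
    rintro (⟨s, w⟩ | ⟨k, s⟩) (⟨s', w'⟩ | ⟨k', s'⟩) h
    · simp only [g, Sum.elim_inl, Sum.inl.injEq, Prod.mk.injEq] at h
      obtain ⟨rfl, h⟩ := h
      by_contra hne
      exact hvne s _ _ (fun e => hne (by rw [Fin.castSucc_injective _ e])) h
    · simp [g, c] at h
    · simp [g, c] at h
    · simp only [g, c, Sum.elim_inr, Sum.inr.injEq, Prod.mk.injEq, true_and] at h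
      rw [κ.injective (Subtype.ext h.1), Fin.castSucc_injective _ h.2]
  refine hω u ((⟨g, hg⟩ : _ ↪ _).trans f) fun j k => ⟨fun s w => ?_, (ω (f (c (κ k).1 2)) j).1,
    fun s => ?_⟩
  · exact h2 _ _ w (hc _ s w) (hc2 _ s) (hv s _) j
  · exact h2 _ _ u (hm _ s) (hc2 _ s) ((hU _).trans (by rw [(mem_filter.1 (κ k).2).2])) j

theorem exists_hyper : ∃ (T : ℕ) (ε : ℝ), 0 < ε ∧ ∃ n₀ : ℕ, ∀ n ≥ n₀,
    ∃ H : Finset (Finset (Fin n)), (∀ e ∈ H, #e = 3) ∧ (n : ℝ) ^ (2 + ε) ≤ #H ∧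
      ∀ f : GV T ↪ Fin n, ¬∀ v w, (G T).Adj v w → ∃ e ∈ H, f v ∈ e ∧ f w ∈ e := by
  classical
  obtain ⟨M, t, β, hβ, h⟩ := exists_sample
  have hβ0 : 0 < β := by linarith
  have hb : 1 < 4 * β := by linarith
  have hs1 : 1 < √β := by rw [Real.lt_sqrt zero_le_one]; simpa using hβ
  set g : ℝ := √β with hg
  have hgg : g * g = β := Real.mul_self_sqrt hβ0.le
  have hg0 : 0 < g := by linarith
  have hla : 0 < Real.log (4 * β) := Real.log_pos hb
  set ε : ℝ := Real.log g / Real.log (4 * β) with hε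
  have hε0 : 0 < ε := div_pos (Real.log_pos hs1) hla
  have haε : (4 * β) ^ ε ≤ g := by
    rw [Real.rpow_le_iff_le_log (by linarith) hg0, ← le_div_iff₀ hla]
  obtain ⟨j₀, hj₀⟩ := pow_unbounded_of_one_lt (2 * 6 ^ 3 * 4 * g) hs1
  refine ⟨2 * t + 1, ε, hε0, ⌈(4 * β) ^ (j₀ + 3)⌉₊ + 3, fun n hn => ?_⟩
  have hn1 : (1 : ℝ) ≤ n := by exact_mod_cast (by omega)
  obtain ⟨j, hj1, hj2⟩ := exists_nat_pow_near hn1 hb
  have hn' : (4 * β) ^ (j₀ + 3) ≤ n := (Nat.le_ceil _).trans (by exact_mod_cast (by omega))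
  have hj : j₀ + 3 ≤ j := Nat.lt_succ_iff.1 ((pow_lt_pow_iff_right₀ hb).1 (hn'.trans_lt hj2))
  have h3 : (3 * (n / 3 : ℕ) : ℝ) ≤ n := by exact_mod_cast Nat.mul_div_le n 3
  have h6 : (n : ℝ) ≤ 6 * (n / 3 : ℕ) := by exact_mod_cast (by omega)
  obtain ⟨ω, hT, hω⟩ := h (j + 1) (n / 3) (by omega) (h3.trans hj2.le) (by omega)
  obtain ⟨ι⟩ := Function.Embedding.nonempty_of_card_le (α := Fin 3 × Fin (n / 3)) (β := Fin n)
    (by simpa using Nat.mul_div_le n 3)
  let E : (Fin 3 → Fin (n / 3)) → Finset (Fin n) := fun a => univ.image fun i => ι (i, a i)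
  have hE : Function.Injective E := by
    intro a a' e
    funext i
    have : ι (i, a i) ∈ E a' := e ▸ mem_image_of_mem _ (mem_univ i)
    obtain ⟨k, -, hk⟩ := mem_image.1 this
    obtain ⟨rfl, hk⟩ := Prod.mk.inj (ι.injective hk)
    exact hk.symm
  refine ⟨({a | ∀ k, Tri fun i => ω (i, a i) k} : Finset _).image E, fun e he => ?_, ?_, ?_⟩
  · obtain ⟨a, -, rfl⟩ := mem_image.1 he
    rw [card_image_of_injective _ (fun i k e => (Prod.mk.inj (ι.injective e)).1)]
    simp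
  · rw [card_image_of_injective _ hE, card_filter]
    push_cast
    refine le_trans ?_ (hT.trans (le_of_eq (sum_congr rfl fun a _ => by
      unfold ind; congr)))
    have e1 : (n : ℝ) ^ (2 + ε) ≤ n ^ 2 * g ^ (j + 1) := by
      rw [Real.rpow_add (by linarith), Real.rpow_two]
      refine mul_le_mul_of_nonneg_left ?_ (by positivity)
      calc (n : ℝ) ^ ε ≤ ((4 * β) ^ (j + 1)) ^ ε := by gcongr
        _ = ((4 * β) ^ ε) ^ (j + 1) := by
          rw [← Real.rpow_natCast, ← Real.rpow_mul (by linarith), mul_comm _ ε,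
            Real.rpow_mul (by linarith), Real.rpow_natCast]
        _ ≤ _ := by gcongr
    have e2 : 2 * 6 ^ 3 * 4 * g ≤ g ^ j := hj₀.le.trans (pow_le_pow_right₀ hs1.le (by omega))
    refine e1.trans ?_
    rw [div_div, le_div_iff₀ (by positivity)]
    rw [← hgg] at hj1
    generalize ((n / 3 : ℕ) : ℝ) = m at h6
    have e3 : (n : ℝ) ^ 3 ≤ 6 ^ 3 * m ^ 3 := by
      rw [← mul_pow]; gcongr
    have e4 : (n : ℝ) ^ 2 * g ^ (j + 1) * (4 ^ (j + 1) * 2) * 6 ^ 3 ≤ n ^ 3 :=
      calc _ = (n : ℝ) ^ 2 * (4 ^ j * g ^ j * (2 * 6 ^ 3 * 4 * g)) := by ring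
        _ ≤ (n : ℝ) ^ 2 * (4 ^ j * g ^ j * g ^ j) := by gcongr
        _ = (n : ℝ) ^ 2 * (4 * (g * g)) ^ j := by ring
        _ ≤ (n : ℝ) ^ 2 * n := by gcongr
        _ = _ := by ring
    linarith
  · intro f hf
    have key : ∀ v w, (G (2 * t + 1)).Adj v w → ∃ a : Fin 3 → Fin (n / 3),
        (∀ k, Tri fun i => ω (i, a i) k) ∧ ∃ i i', f v = ι (i, a i) ∧ f w = ι (i', a i') := by
      intro v w hvw
      obtain ⟨e, he, h1, h2⟩ := hf v w hvw
      obtain ⟨a, ha, rfl⟩ := mem_image.1 he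
      obtain ⟨i, -, hi⟩ := mem_image.1 h1
      obtain ⟨i', -, hi'⟩ := mem_image.1 h2
      exact ⟨a, (mem_filter.1 ha).2, i, i', hi.symm, hi'.symm⟩
    have hr : ∀ v, ∃ x, f v = ι x := by
      intro v
      obtain ⟨w, hw⟩ : ∃ w, (G (2 * t + 1)).Adj v w := by
        rcases v with ⟨s, i⟩ | ⟨i, k, l, c⟩
        · by_cases hi : i = 0
          · exact ⟨Sum.inl (s, 1), (SimpleGraph.fromRel_adj _ _ _).2
              ⟨by simp [hi], Or.inr ⟨0, by simp [par, hi]⟩⟩⟩
          · exact ⟨Sum.inl (s, 0), (SimpleGraph.fromRel_adj _ _ _).2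
              ⟨by simp [hi], Or.inl ⟨0, by simp [par, hi]⟩⟩⟩
        · exact ⟨par _ 0, (SimpleGraph.fromRel_adj _ _ _).2
            ⟨by fin_cases c <;> simp [par], Or.inl ⟨0, rfl⟩⟩⟩
      obtain ⟨a, -, i, -, hi, -⟩ := key v w hw
      exact ⟨_, hi⟩
    choose f' hf' using hr
    refine no_copy hω ⟨f', fun v w e => f.injective (by rw [hf', hf', e])⟩ (fun v w hvw e => ?_)
      fun v w u hvw e1 e2 k => ?_
    · obtain ⟨a, -, i, i', hi, hi'⟩ := key v w hvw
      rw [hf'] at hi hi'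
      simp only [Function.Embedding.coeFn_mk, ι.injective hi, ι.injective hi'] at e
      exact hvw.ne (f.injective (by rw [hf', hf', hi, hi', e]))
    · obtain ⟨a, ha, i, i', hi, hi'⟩ := key v w hvw
      rw [hf'] at hi hi'
      simp only [Function.Embedding.coeFn_mk, ι.injective hi, ι.injective hi'] at e1 e2 ⊢
      rw [e1, e2]
      exact ha k u

end Pool.Agent.Lib.MP_5a6238_co.Degen
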