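import Pool.Agent.Lib.MP_5a6238_co.HostA

/-! Linear systems over a domain: moving solutions between fields, and one certificate for each
labelled pattern. -/

set_option autoImplicit false

namespace Pool.Agent.Lib.MP_5a6238_co.Host

open Finset

variable {R N N' m E L B : Type} [CommRing R] [Fintype N] [Fintype N']

theorem ev_map {A A' : Type} [CommRing A] [CommRing A'] (ψ : R →+* A) (φ : A →+* A') (ρ : N → R)
    (u : N → A) : ev (φ.comp ψ) ρ (fun n => φ (u n)) = φ (ev ψ ρ u) := by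
  simp only [ev_def, map_sum, map_mul, RingHom.comp_apply]

theorem ev_push [DecidableEq N] {A : Type} [CommRing A] (ψ : R →+* A) (ρ : N' → N) (γ : N' → R)
    (u : N → A) : ev ψ (∑ n, γ n • Pi.single (ρ n) (1 : R)) u = ev ψ γ (u ∘ ρ) := by
  simp only [ev_sum, ev_smul, ev_single]
  rfl

theorem ascend {k K : Type} [Field k] [Field K] (φ : k →+* K) (ψ : R →+* k) (row : m → N' → R)
    (rows : E → N → R) (ρ : N' → N)
    (h : ∀ y : N' → k, (∀ a, ev ψ (row a) y = 0) → ∃ u, (∀ e, ev ψ (rows e) u = 0) ∧ u ∘ ρ = y)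
    (y : N' → K) (hy : ∀ a, ev (φ.comp ψ) (row a) y = 0) :
    ∃ u, (∀ e, ev (φ.comp ψ) (rows e) u = 0) ∧ u ∘ ρ = y := by
  classical
  let := φ.toAlgebra
  let b := Module.Basis.ofVectorSpace k K
  choose u h1 h2 using fun β => h (fun n => b.repr (y n) β) fun a => by
    have := congrArg (b.repr · β) (hy a)
    simpa only [ev_def, map_sum, Finsupp.finsetSum_apply, RingHom.comp_apply, map_zero,
      show ∀ (c : k) (z : K), φ c * z = c • z from fun _ _ => rfl, map_smul, Finsupp.smul_apply,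
      smul_eq_mul, Finsupp.zero_apply] using this
  refine ⟨∑ β ∈ univ.biUnion fun n => (b.repr (y n)).support, b β • fun n => φ (u β n),
    fun e => ?_, funext fun n => ?_⟩
  · simp only [map_sum, map_smul, ev_map, h1, map_zero, smul_zero, sum_const_zero]
  · have h3 : ∀ β, u β (ρ n) = b.repr (y n) β := fun β => congrFun (h2 β) n
    simp only [Function.comp_apply, Finset.sum_apply, Pi.smul_apply, smul_eq_mul, h3]
    conv_rhs => rw [← b.linearCombination_repr (y n), Finsupp.linearCombination_apply,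
      Finsupp.sum_of_support_subset _ (subset_biUnion_of_mem (fun n => (b.repr (y n)).support)
        (mem_univ n)) _ (fun i _ => zero_smul k (b i))]
    exact sum_congr rfl fun β _ => mul_comm _ _

variable [IsDomain R]

theorem clear (y : N → FractionRing R) :
    ∃ c : FractionRing R, c ≠ 0 ∧ ∃ z : N → R, (fun n => algebraMap R _ (z n)) = c • y := by
  obtain ⟨b, hb⟩ := IsLocalization.exist_integer_multiples_of_finite (nonZeroDivisors R) y
  choose z hz using hb
  exact ⟨algebraMap R _ b, (map_ne_zero_iff _ (IsFractionRing.injective R _)).2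
    (nonZeroDivisors.ne_zero b.2), z, funext fun n => (hz n).trans (Algebra.smul_def _ _)⟩

theorem descend [Fintype m] {K : Type} [Field K] (θ : R →+* K) (hθ : Function.Injective θ)
    (row : m → N → R) (γ : N → R) (y : N → K) (h1 : ∀ a, ev θ (row a) y = 0) (h2 : ev θ γ y ≠ 0) :
    ∃ z : N → R, (∀ a, ev (RingHom.id R) (row a) z = 0) ∧ ev (RingHom.id R) γ z ≠ 0 := by
  have : ∃ u : N → FractionRing R, (∀ a, ev (algebraMap R _) (row a) u = 0) ∧
      ev (algebraMap R _) γ u ≠ 0 := by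
    by_contra! h
    obtain ⟨c, hc, μ, hμ⟩ := cert row γ h
    have h3 := congrArg (ev θ · y) hμ
    simp only [ev_smul, ev_sum, h1, mul_zero, sum_const_zero] at h3
    exact mul_ne_zero ((map_ne_zero_iff _ hθ).2 hc) h2 h3
  obtain ⟨u, h3, h4⟩ := this
  obtain ⟨c, hc, z, hz⟩ := clear u
  have h5 : ∀ ρ, algebraMap R (FractionRing R) (ev (RingHom.id R) ρ z) =
      c * ev (algebraMap R _) ρ u := fun ρ => by
    rw [← ev_map, hz, map_smul, RingHom.comp_id, smul_eq_mul]
  exact ⟨z, fun a => IsFractionRing.injective R (FractionRing R) (by rw [h5, h3, mul_zero, map_zero]),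
    fun h => mul_ne_zero hc h4 (by rw [← h5, h, map_zero])⟩

theorem pattern [Infinite R] [Fintype m] [Nonempty m] [Fintype E] [Finite B] {K : Type} [Field K]
    (θ : R →+* K) (hθ : Function.Injective θ) (row : L → m → N' → R) (ρ : E → N' → N) (l : E → L)
    (o : N) (g : B → m → N → R)
    (h : (∃ e y, (∀ a, ev θ (row (l e) a) y = 0) ∧
        ∀ u, (∀ e a, ev θ (row (l e) a) (u ∘ ρ e) = 0) → u ∘ ρ e ≠ y) ∨
      ∃ β, ∀ u, (∀ e a, ev θ (row (l e) a) (u ∘ ρ e) = 0) → u o = 1 → ∀ a, ev θ (g β a) u = 0)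
    (h0 : ∃ (i : L) (γ z : N' → R), (∀ a, ev (RingHom.id R) (row i a) z = 0) ∧
      ev (RingHom.id R) γ z ≠ 0) :
    ∃ (i : L) (γ z : N' → R) (c : R), (∀ a, ev (RingHom.id R) (row i a) z = 0) ∧
      ev (RingHom.id R) γ z ≠ 0 ∧ c ≠ 0 ∧ ∀ (A : Type) [Field A] (ψ : R →+* A), ψ c ≠ 0 →
      ∀ u, (∀ e a, ev ψ (row (l e) a) (u ∘ ρ e) = 0) → u o = 1 →
        (∃ β, ∀ a, ev ψ (g β a) u = 0) ∨ ∃ e, l e = i ∧ ev ψ γ (u ∘ ρ e) = 0 := by
  classical
  let φ : FractionRing R →+* K := IsFractionRing.lift hθ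
  have hφ : φ.comp (algebraMap R _) = θ := RingHom.ext (IsFractionRing.lift_algebraMap hθ)
  let rows : E × m → N → R := fun q => ∑ n, row (l q.1) q.2 n • Pi.single (ρ q.1 n) 1
  rcases h with ⟨e, y, h1, h2⟩ | ⟨β, h⟩
  · obtain ⟨y', h3, h4⟩ : ∃ y' : N' → FractionRing R, (∀ a, ev (algebraMap R _) (row (l e) a) y' = 0) ∧
        y' ∉ (⨅ q, LinearMap.ker (ev (algebraMap R (FractionRing R)) (rows q))).map
          (LinearMap.funLeft _ _ (ρ e)) := by
      by_contra! k
      obtain ⟨u, h3, h4⟩ := ascend φ _ (row (l e)) rows (ρ e) (fun y' h => by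
        obtain ⟨u, h3, h4⟩ := k y' h
        exact ⟨u, (Submodule.mem_iInf _).1 h3, h4⟩) y (hφ ▸ h1)
      exact h2 u (fun e a => by simpa only [rows, ev_push, hφ] using h3 (e, a)) h4
    obtain ⟨f, h5, h6⟩ := Submodule.exists_dual_map_eq_bot_of_notMem h4 inferInstance
    obtain ⟨c, hc, γ, hγ⟩ := clear fun n => f fun j => if n = j then 1 else 0
    have h7 : ∀ z, ev (algebraMap R (FractionRing R)) γ z = c * f z := fun z => by
      rw [f.pi_apply_eq_sum_univ, ev_def, mul_sum]
      exact sum_congr rfl fun n _ => by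
        rw [congrFun hγ n, Pi.smul_apply, smul_eq_mul, smul_eq_mul, mul_assoc, mul_comm (z n)]
    obtain ⟨z, h8, h9⟩ := descend _ (IsFractionRing.injective R _) _ γ y' h3
      (h7 _ ▸ mul_ne_zero hc h5)
    obtain ⟨c', hc', μ, hμ⟩ := cert rows (∑ n, γ n • Pi.single (ρ e n) 1) fun u hu => by
      rw [ev_push, h7, show f (u ∘ ρ e) = 0 from (Submodule.eq_bot_iff _).1 h6 _
        ⟨_, ⟨u, (Submodule.mem_iInf _).2 hu, rfl⟩, rfl⟩, mul_zero]
    refine ⟨l e, γ, z, c', h8, h9, hc', fun A _ ψ k u hu _ => Or.inr ⟨e, rfl, ?_⟩⟩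
    have h3 := congrArg (ev ψ · u) hμ
    simp only [ev_smul, rows, ev_push, ev_sum ψ u univ fun j => μ j • _, hu, mul_zero,
      sum_const_zero] at h3
    exact (mul_eq_zero.1 h3).resolve_left k
  · obtain ⟨i, γ, z, h1, h2⟩ := h0
    obtain ⟨c, hc, h3⟩ := cover rows (B := Bool) (fun b a => cond b (g β a) (Pi.single o 1))
      fun u hu => by
        by_cases k : u o = 0
        · exact ⟨false, fun _ => (ev_single _ _ _).trans k⟩
        refine ⟨true, fun a => φ.injective ?_⟩
        have h3 := h ((φ (u o))⁻¹ • fun n => φ (u n)) (fun e a => by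
          have := congrArg φ (hu (e, a))
          rw [ev_push, ← ev_map, hφ, map_zero] at this
          exact (map_smul _ _ _).trans (smul_eq_zero_of_right _ this))
          (inv_mul_cancel₀ ((map_ne_zero φ).2 k)) a
        rw [map_smul, ← hφ, ev_map] at h3
        exact ((smul_eq_zero.1 h3).resolve_left (inv_ne_zero ((map_ne_zero φ).2 k))).trans
          (map_zero φ).symm
    refine ⟨i, γ, z, c, h1, h2, hc, fun A _ ψ k u hu ho => Or.inl ⟨β, ?_⟩⟩
    obtain ⟨_ | _, h4⟩ := h3 A ψ k u fun q => (ev_push ..).trans (hu q.1 q.2)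
    · exact absurd (ho.symm.trans ((ev_single _ _ _).symm.trans (h4 (Classical.arbitrary m))))
        one_ne_zero
    · exact h4

end Pool.Agent.Lib.MP_5a6238_co.Host
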