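import Mathlib

/-! Generic embeddings into families of affine systems. -/

set_option autoImplicit false

namespace Pool.Agent.Lib.MP_5a6238_co.Host

/-- The vectors `w v` at the vertices `v` of `e` solve the system with one matrix for each class. -/
def Solves {r : ℕ} {m V A : Type} [Fintype m] [CommRing A] (M : Fin r → Matrix m m A) (b : m → A)
    (col : V → Fin r) (w : V → m → A) (e : Finset V) : Prop :=
  ∑ v ∈ e, (M (col v)).mulVec (w v) = b

/-- The vertices get classes, one of each class in every edge, and the edges get labels, so that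
every solution of the system of one edge extends to a common solution of the systems of all edges,
and no two vertices of one class are forced to carry the same vector. -/
def Generic {r : ℕ} {m V L A : Type} [Fintype m] [CommRing A] (M : L → Fin r → Matrix m m A)
    (b : L → m → A) (F : Finset (Finset V)) : Prop :=
  ∃ (col : V → Fin r) (l : Finset V → L), (∀ e ∈ F, Set.BijOn col e Set.univ) ∧
    (∀ e ∈ F, ∀ y, Solves (M (l e)) (b (l e)) col y e →
      ∃ w, (∀ e' ∈ F, Solves (M (l e')) (b (l e')) col w e') ∧ ∀ v ∈ e, w v = y v) ∧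
    ∀ e₁ ∈ F, ∀ e₂ ∈ F, ∀ v₁ ∈ e₁, ∀ v₂ ∈ e₂, v₁ ≠ v₂ → col v₁ = col v₂ →
      ∃ w, (∀ e' ∈ F, Solves (M (l e')) (b (l e')) col w e') ∧ w v₁ ≠ w v₂

end Pool.Agent.Lib.MP_5a6238_co.Host
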