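import Pool.Agent.Lib.MP_5a6238_co.GenA
import Pool.Agent.Lib.MP_5a6238_co.GenDefs

/-! One polynomial condition on the labels, with finitely many forms that good edges avoid. -/

set_option autoImplicit false

namespace Pool.Agent.Lib.MP_5a6238_co.Host

open Finset Matrix MvPolynomial

variable {r : ℕ} {m V σ : Type} [Fintype m] {F : Finset (Finset V)}
  (P : Fin r → Matrix m m (MvPolynomial σ ℤ)) (b : m → MvPolynomial σ ℤ)

/-- Evaluation of integer polynomials. -/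
noncomputable def evZ {A : Type} [CommRing A] (s : σ → A) : MvPolynomial σ ℤ →+* A :=
  eval₂Hom (Int.castRingHom A) s

/-- The homogenized equations of one edge. -/
noncomputable def row (a : m) (n : Option (Fin r × m)) : MvPolynomial σ ℤ :=
  n.elim (-b a) fun q => P q.1 a q.2

/-- The coordinates of one edge among all coordinates. -/
def res (x : Fin r → V) : Option (Fin r × m) → Option (V × m) := Option.map (Prod.map x id)

theorem ev_evZ {R A : Type} [CommRing R] [CommRing A] (ψ : R →+* A) (s : σ → R) (a : m)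
    (y : Option (Fin r × m) → A) :
    ev ψ (fun n => evZ s (row P b a n)) y = ev (evZ fun i => ψ (s i)) (row P b a) y := by
  simp only [ev_def, evZ, map_eval₂Hom, RingHom.ext_int (ψ.comp _) (Int.castRingHom A)]

theorem ev_row {A : Type} [Field A] (s : σ → A) (y : Option (Fin r × m) → A) (h : y none = 1) :
    (∀ a, ev (evZ s) (row P b a) y = 0) ↔
      ∑ c, (P c).map (aeval s) *ᵥ (fun a => y (some (c, a))) = fun a => aeval s (b a) := by
  simp only [ev_def, Fintype.sum_option, row, Option.elim, h, map_neg, mul_one, neg_add_eq_zero,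
    funext_iff, Finset.sum_apply, mulVec, dotProduct, map_apply, Fintype.sum_prod_type,
    eq_comm (b := aeval s _)]
  rfl

theorem solves_iff {A : Type} [CommRing A] (M : Fin r → Matrix m m A) (b : m → A) {col : V → Fin r}
    {e : Finset V} {x : Fin r → V} (h1 : ∀ c, col (x c) = c) (h2 : ∀ v, v ∈ e ↔ v = x (col v))
    (w : V → m → A) : Solves M b col w e ↔ ∑ c, M c *ᵥ w (x c) = b := by
  rw [Solves, sum_nbij' (t := univ) (g := fun c => M c *ᵥ w (x c)) col x (fun _ _ => mem_univ _)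
    (fun c _ => (h2 _).2 (by rw [h1])) (fun v hv => ((h2 v).1 hv).symm) (fun c _ => h1 c)
    fun v hv => by rw [← (h2 v).1 hv]]

theorem gen_transfer {p k : ℕ} {K : Type} [Field K] [Algebra (ZMod p) K] [Nonempty σ] [Fintype V]
    (t : ℕ → σ → K) (ht : AlgebraicIndependent (ZMod p) fun a : ℕ × σ => t a.1 a.2)
    (hP : ∃ y : Fin r → m → K, ∑ c, (P c).map (aeval (t 0)) *ᵥ y c = (fun a => aeval (t 0) (b a)) ∧
      ∑ c, (P c).map (aeval (t 1)) *ᵥ y c ≠ fun a => aeval (t 1) (b a))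
    (hF : ¬Generic (fun i c => (P c).map (aeval (t i))) (fun i a => aeval (t i) (b a)) F) :
    ∃ (I : Type) (_ : Fintype I) (c : MvPolynomial (Fin (k + 2) × σ) (ZMod p)) (i : I → Fin (k + 2))
      (γ : I → Option (Fin r × m) → MvPolynomial (Fin (k + 2) × σ) (ZMod p)), c ≠ 0 ∧
      ∀ (A : Type) [Field A] (φ : ZMod p →+* A) (τ : Fin (k + 2) × σ → A), eval₂Hom φ τ c ≠ 0 →
      (∃ y, y none = 1 ∧ ∀ a, ev (evZ fun s => τ (0, s)) (row P b a) y = 0) ∧
      (∀ π, ∃ z, (∀ a, ev (evZ fun s => τ (i π, s)) (row P b a) z = 0) ∧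
        ev (eval₂Hom φ τ) (γ π) z ≠ 0) ∧
      (∀ y, (∀ a, ev (evZ fun s => τ (1, s)) (row P b a) y = 0) →
        ∃ π, i π = 0 ∧ ev (eval₂Hom φ τ) (γ π) y = 0) ∧
      ∀ (x : F → Fin r → V) (l : F → Fin (k + 2)) (col : V → Fin r), (∀ e c, col (x e c) = c) →
        (∀ e v, v ∈ e.1 ↔ v = x e (col v)) → ∀ u : Option (V × m) → A, u none = 1 →
        (∀ e a, ev (evZ fun s => τ (l e, s)) (row P b a) (u ∘ res (x e)) = 0) →
        (∀ v v', (∃ e ∈ F, v ∈ e) → (∃ e ∈ F, v' ∈ e) → col v = col v' →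
          (∀ a, u (some (v, a)) = u (some (v', a))) → v = v') →
        ∃ π e, l e = i π ∧ ev (eval₂Hom φ τ) (γ π) (u ∘ res (x e)) = 0 := by
  classical
  have : IsDomain (ZMod p) := ht.algebraMap_injective.isDomain _
  let R := MvPolynomial (Fin (k + 2) × σ) (ZMod p)
  let G : Fin (k + 2) → m → Option (Fin r × m) → R := fun i a n =>
    evZ (fun s => X (i, s)) (row P b a n)
  let θ : R →+* K := (aeval fun a : Fin (k + 2) × σ => t a.1 a.2).toRingHom
  have hθ : Function.Injective θ :=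
    ht.comp (Prod.map Fin.val id) (Fin.val_injective.prodMap Function.injective_id)
  have hX : ∀ a, θ (X a) = t a.1 a.2 := fun a => aeval_X _ a
  have hG : ∀ i a y, ev θ (G i a) y = ev (evZ (t i)) (row P b a) y := fun i a y =>
    (ev_evZ P b θ _ a y).trans (by simp only [hX])
  obtain ⟨y, h1, h2⟩ := hP
  replace h1 := (ev_row P b (t 0) (fun n => n.elim 1 fun q => y q.1 q.2) rfl).2 h1
  obtain ⟨a₀, h2⟩ := not_forall.1 (mt (ev_row P b (t 1) (fun n => n.elim 1 fun q => y q.1 q.2) rfl).1 h2)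
  have : Nonempty m := ⟨a₀⟩
  obtain ⟨z₀, h3, h4⟩ := descend θ hθ (G 0) (G 1 a₀) _ (fun a => (hG _ _ _).trans (h1 a))
    (by rwa [hG])
  obtain ⟨z₁, h5, h6⟩ := descend θ hθ (G 0) (Pi.single none 1) _ (fun a => (hG _ _ _).trans (h1 a))
    (by rw [ev_single]; exact one_ne_zero)
  rw [ev_single] at h6
  have key : ∀ π : Option ((F → Fin r → V) × (F → Fin (k + 2)) × (V → Fin r)),
      ∃ (i : Fin (k + 2)) (γ z : Option (Fin r × m) → R) (c : R),
      (∀ a, ev (RingHom.id R) (G i a) z = 0) ∧ ev (RingHom.id R) γ z ≠ 0 ∧ c ≠ 0 ∧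
      (π = none → i = 0 ∧ γ = G 1 a₀) ∧ ∀ x l col, π = some (x, l, col) →
      (∀ e c, col (x e c) = c) → (∀ e v, v ∈ e.1 ↔ v = x e (col v)) →
      ∀ (A : Type) [Field A] (ψ : R →+* A), ψ c ≠ 0 → ∀ u : Option (V × m) → A,
        (∀ e a, ev ψ (G (l e) a) (u ∘ res (x e)) = 0) → u none = 1 →
        (∀ v v', (∃ e ∈ F, v ∈ e) → (∃ e ∈ F, v' ∈ e) → col v = col v' →
          (∀ a, u (some (v, a)) = u (some (v', a))) → v = v') →
        ∃ e, l e = i ∧ ev ψ γ (u ∘ res (x e)) = 0 := by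
    rintro (_ | ⟨x, l, col⟩)
    · exact ⟨0, _, z₀, 1, h3, h4, one_ne_zero, fun _ => ⟨rfl, rfl⟩, nofun⟩
    by_cases h : (∀ e c, col (x e c) = c) ∧ ∀ e v, v ∈ e.1 ↔ v = x e (col v)
    swap
    · exact ⟨0, _, z₀, 1, h3, h4, one_ne_zero, nofun, by
        rintro _ _ _ ⟨⟩ h1 h2
        exact absurd ⟨h1, h2⟩ h⟩
    obtain ⟨i, γ, z, c, h7, h8, h9, h10⟩ := pattern θ hθ G (fun e => res (x e)) l none
      (B := {q : V × V // (∃ e ∈ F, q.1 ∈ e) ∧ (∃ e ∈ F, q.2 ∈ e) ∧ col q.1 = col q.2 ∧ q.1 ≠ q.2})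
      (fun q a => Pi.single (some (q.1.1, a)) 1 - Pi.single (some (q.1.2, a)) 1)
      (by
        by_contra! k
        obtain ⟨k1, k2⟩ := k
        let l' : Finset V → ℕ := fun e => if h : e ∈ F then l ⟨e, h⟩ else 0
        have hl : ∀ e he, l' e = l ⟨e, he⟩ := fun e he => dif_pos he
        have hs : ∀ u : Option (V × m) → K, u none = 1 →
            (∀ e a, ev θ (G (l e) a) (u ∘ res (x e)) = 0) → ∀ e ∈ F,
            Solves (fun c => (P c).map (aeval (t (l' e)))) (fun a => aeval (t (l' e)) (b a)) col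
              (fun v a => u (some (v, a))) e := fun u hu hu' e he => by
          rw [solves_iff _ _ (h.1 ⟨e, he⟩) (h.2 ⟨e, he⟩), hl e he]
          exact (ev_row P b _ (u ∘ res (x ⟨e, he⟩)) hu).1 fun a => (hG _ _ _).symm.trans (hu' _ a)
        refine hF ⟨col, l', fun e he => ⟨Set.mapsTo_univ _ _, fun v hv v' hv' k => ?_,
          fun c _ => ⟨x ⟨e, he⟩ c, (h.2 ⟨e, he⟩ _).2 (by rw [h.1]), h.1 _ _⟩⟩,
          fun e he y hy => ?_, fun e he e' he' v hv v' hv' a1 a2 => ?_⟩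
        · rw [(h.2 ⟨e, he⟩ v).1 hv, (h.2 ⟨e, he⟩ v').1 hv', k]
        · rw [solves_iff _ _ (h.1 ⟨e, he⟩) (h.2 ⟨e, he⟩), hl e he] at hy
          obtain ⟨u, a1, a2⟩ := k1 ⟨e, he⟩ (fun n => n.elim 1 fun q => y (x ⟨e, he⟩ q.1) q.2)
            fun a => (hG _ _ _).trans ((ev_row P b _ _ rfl).2 hy a)
          refine ⟨_, hs u (congrFun a2 none) a1, fun v hv => funext fun a => ?_⟩
          rw [(h.2 ⟨e, he⟩ v).1 hv]
          exact congrFun a2 (some (col v, a))
        · obtain ⟨u, a3, a4, a, a5⟩ := k2 ⟨(v, v'), ⟨e, he, hv⟩, ⟨e', he', hv'⟩, a2, a1⟩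
          rw [ev_sub, ev_single, ev_single, sub_ne_zero] at a5
          exact ⟨_, hs u a4 a3, fun k => a5 (congrFun k a)⟩)
      ⟨0, _, z₀, h3, h4⟩
    refine ⟨i, γ, z, c, h7, h8, h9, nofun, ?_⟩
    rintro _ _ _ ⟨⟩ - - A _ ψ hc u hu ho hs
    refine (h10 A ψ hc u hu ho).resolve_left fun ⟨q, hq⟩ => q.2.2.2.2 (hs _ _ q.2.1 q.2.2.1 q.2.2.2.1
      fun a => ?_)
    simpa only [ev_sub, ev_single, sub_eq_zero] using hq a
  choose i γ z c h7 h8 h9 h10 h11 using key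
  refine ⟨_, inferInstance, z₁ none * ∏ π, ev (RingHom.id R) (γ π) (z π) * c π, i, γ,
    mul_ne_zero h6 (prod_ne_zero_iff.2 fun π _ => mul_ne_zero (h8 π) (h9 π)), fun A _ φ τ h0 => ?_⟩
  have hG' : ∀ i a y, ev (eval₂Hom φ τ) (G i a) y = ev (evZ fun s => τ (i, s)) (row P b a) y :=
    fun i a y => (ev_evZ P b _ _ a y).trans (by simp only [eval₂Hom_X'])
  have hm : ∀ ρ z : Option (Fin r × m) → R, ev (eval₂Hom φ τ) ρ (fun n => eval₂Hom φ τ (z n)) =
      eval₂Hom φ τ (ev (RingHom.id R) ρ z) := fun ρ z => ev_map (RingHom.id R) (eval₂Hom φ τ) ρ z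
  simp only [map_mul, map_prod, mul_ne_zero_iff, prod_ne_zero_iff, mem_univ, true_imp_iff] at h0
  refine ⟨⟨(eval₂Hom φ τ (z₁ none))⁻¹ • fun n => eval₂Hom φ τ (z₁ n), inv_mul_cancel₀ h0.1,
    fun a => by rw [map_smul, ← hG', hm, h5, map_zero, smul_zero]⟩,
    fun π => ⟨_, fun a => by rw [← hG', hm, h7, map_zero], hm _ _ ▸ (h0.2 π).1⟩,
    fun y hy => ⟨none, (h10 _ rfl).1, by rw [(h10 _ rfl).2, hG', hy]⟩,
    fun x l col a1 a2 u a3 a4 a5 => ⟨_, h11 _ x l col rfl a1 a2 A _ (h0.2 _).2 u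
      (fun e a => (hG' _ _ _).trans (a4 e a)) a3 a5⟩⟩

end Pool.Agent.Lib.MP_5a6238_co.Host
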