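import Pool.Agent.Lib.MP_5a6238_co.HostC

/-! Counting the edges of the finite hosts. -/

set_option autoImplicit false

namespace Pool.Agent.Lib.MP_5a6238_co.Host

open Finset Matrix MvPolynomial

variable {r d : ℕ} {J V σ : Type} [Fintype J] [Fintype V] (S T : J → Finset (Fin r))
  {F : Finset (Finset V)}

open Classical in
theorem count_one {W : Type} [AddCommGroup W] [Fintype W] {s t : Finset (Fin r)}
    (hs : s.Nonempty) (ht : t.Nonempty) (hst : Disjoint s t) (f : W → W) {w : W} (hw : w ≠ 0) :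
    Fintype.card W ^ r ≤ Fintype.card {z : Fin r → W // ∑ c ∈ t, z c ≠ 0 ∧
      ∑ c ∈ s, z c = f (∑ c ∈ t, z c)} * (Fintype.card W * 2) := by
  obtain ⟨a, ha⟩ := hs
  obtain ⟨b, hb⟩ := ht
  have ha' : a ∉ t := disjoint_left.1 hst ha
  have := Fintype.card_le_of_surjective (fun q : {z : Fin r → W // ∑ c ∈ t, z c ≠ 0 ∧
      ∑ c ∈ s, z c = f (∑ c ∈ t, z c)} × W × Bool =>
      q.1.1 + Pi.single a q.2.1 + Pi.single b (cond q.2.2 w 0)) fun z => by
    obtain ⟨β, hβ⟩ : ∃ β, ∑ c ∈ t, (z - Pi.single b (cond β w 0) : Fin r → W) c ≠ 0 := by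
      by_cases h : ∑ c ∈ t, z c = 0
      · exact ⟨true, by simp [h, hw, sum_pi_single', hb]⟩
      · exact ⟨false, by simpa using h⟩
    generalize hy : (z - Pi.single b (cond β w 0) : Fin r → W) = y at hβ
    refine ⟨(⟨y - Pi.single a (∑ c ∈ s, y c - f (∑ c ∈ t, y c)), ?_⟩,
      ∑ c ∈ s, y c - f (∑ c ∈ t, y c), β), ?_⟩
    · simpa [sum_pi_single', ha, ha'] using hβ
    · simp only [sub_add_cancel]
      rw [← hy, sub_add_cancel]
  simpa using this

theorem count_host {A : Type} [Field A] [Fintype A] [Nonempty (Fin d)] [Nonempty (Fin r)]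
    (hS : ∀ j, (S j).Nonempty) (hT : ∀ j, (T j).Nonempty) (hST : ∀ j, Disjoint (S j) (T j))
    {D k n : ℕ} (M : Fin D → J → Matrix (Fin d) (Fin d) A) (j₀ : J)
    (hM : ∀ i i', i ≠ i' → (M i j₀ - M i' j₀).det ≠ 0) (hk : F.card ≤ k) (hD : k ≤ D)
    (hn : r * (Fintype.card A ^ d) ^ Fintype.card J ≤ n)
    (hF : ∀ (ι : Fin k ↪ Fin D) (x : F → Fin r → V) (l : F → Fin k) (col : V → Fin r),
      (∀ e c, col (x e c) = c) → (∀ e v, v ∈ e.1 ↔ v = x e (col v)) →
        ∀ w, ¬Good S T (fun i => M (ι i)) x l col w) :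
    D * ((Fintype.card A ^ d) ^ r) ^ Fintype.card J ≤
      ex r n F * (Fintype.card A ^ d * 2) ^ Fintype.card J := by
  classical
  obtain ⟨ι⟩ : Nonempty (Fin r × (J → Fin d → A) ↪ Fin n) :=
    Function.Embedding.nonempty_of_card_le (by simpa using hn)
  let E := Σ i : Fin D, ∀ j, {z : Fin r → Fin d → A // ∑ c ∈ T j, z c ≠ 0 ∧
    ∑ c ∈ S j, z c = M i j *ᵥ ∑ c ∈ T j, z c}
  let g : (q : E) → Fin r ↪ Fin r × (J → Fin d → A) := fun q =>
    ⟨fun c => (c, fun j => (q.2 j).1 c), fun _ _ h => congrArg Prod.fst h⟩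
  have hg : ∀ q v, v ∈ univ.map (g q) ↔ v.2 = fun j => (q.2 j).1 v.1 := fun q v => by
    simp only [mem_map, mem_univ, true_and]
    exact ⟨fun ⟨c, h⟩ => h ▸ rfl, fun h => ⟨v.1, Prod.ext rfl h.symm⟩⟩
  have hinj : Function.Injective fun q : E => (univ.map (g q)).map ι := by
    rintro ⟨i, z⟩ ⟨i', z'⟩ h
    have h1 : ∀ j, (z j).1 = (z' j).1 := fun j => funext fun c =>
      congrFun ((hg ⟨i', z'⟩ (g ⟨i, z⟩ c)).1 (map_injective ι h ▸ mem_map_of_mem _ (mem_univ c))) j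
    obtain rfl : i = i' := by_contra fun hi => (z j₀).2.1 (eq_zero_of_mulVec_eq_zero (hM i i' hi) (by
      rw [sub_mulVec, ← (z j₀).2.2, h1, (z' j₀).2.2, sub_self]))
    exact congrArg _ (funext fun j => Subtype.ext (h1 j))
  have h1 : Fintype.card E ≤ ex r n F := by
    rw [← card_univ, ← card_image_of_injective _ hinj]
    refine le_sup (f := card) (mem_filter.2 ⟨mem_powerset.2 fun e he => ?_, fun ⟨f, hf⟩ => ?_⟩)
    · obtain ⟨q, -, rfl⟩ := mem_image.1 he
      simp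
    have h2 : ∀ e ∈ F, ∃ q : E, (univ.map (g q)).map ι = e.map f := fun e he => by
      simpa using hf e he
    have h3 : ∀ v, (∃ e ∈ F, v ∈ e) → ι (Function.invFun ι (f v)) = f v := fun v ⟨e, he, hv⟩ => by
      obtain ⟨q, hq⟩ := h2 e he
      obtain ⟨y, -, hy⟩ := mem_map.1 (hq ▸ mem_map_of_mem f hv)
      exact Function.invFun_eq ⟨y, hy⟩
    obtain ⟨κ, x, l, col, a, b, w, hw⟩ := exists_good S T (M := M) hk (by simpa using hD)
      (fun v => Function.invFun ι (f v))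
      (fun v v' a b h => f.injective (by rw [← h3 v a, ← h3 v' b, h])) fun e he => by
        obtain ⟨q, hq⟩ := h2 e he
        refine ⟨univ.map (g q), ⟨q.1, fun c j => (q.2 j).1 c, hg q, fun j => (q.2 j).2⟩, fun y => ?_⟩
        rw [← mem_map' ι, hq, mem_map]
        exact exists_congr fun v => and_congr_right fun hv =>
          ⟨fun h => ι.injective ((h3 v ⟨e, he, hv⟩).trans h), fun h => h ▸ (h3 v ⟨e, he, hv⟩).symm⟩
    exact hF κ x l col a b w hw
  refine le_trans ?_ (Nat.mul_le_mul_right _ h1)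
  rw [Fintype.card_sigma, sum_mul]
  refine le_trans (by simp) (card_nsmul_le_sum univ _ (((Fintype.card A ^ d) ^ r) ^ Fintype.card J)
    fun i _ => ?_)
  rw [Fintype.card_pi, ← card_univ (α := J), ← prod_const, ← prod_const, ← prod_mul_distrib]
  refine prod_le_prod' fun j _ => ?_
  have := count_one (hS j) (hT j) (hST j) (M i j *ᵥ ·) (one_ne_zero (α := Fin d → A))
  rw [Fintype.card_fun, Fintype.card_fin] at this
  exact this.trans_eq (by congr; exact Subsingleton.elim _ _)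

theorem asymp (a : ℕ → ℕ) {r u A B D₀ : ℕ} (hu : 0 < u) (hA : 0 < A) (hB : 0 < B)
    (h : ∀ D ≥ D₀, ∀ n, A * D ^ u ≤ n → D * D ^ (u * r) ≤ a n * B) :
    ∃ ε : ℝ, 0 < ε ∧ ∃ n₀ : ℕ, ∀ n ≥ n₀, (n : ℝ) ^ ((r : ℝ) + ε) ≤ a n := by
  set X := (A * 2 ^ u) ^ (2 * u * r + 1) * B ^ (2 * u) with hX
  refine ⟨1 / (2 * u), by positivity, A * (X + D₀ + 1) ^ u, fun n hn => ?_⟩
  have h0 : ∃ D, n < A * (D + 1) ^ u :=
    ⟨n, (Nat.lt_succ_self n).trans_le ((Nat.le_self_pow hu.ne' _).trans (Nat.le_mul_of_pos_left _ hA))⟩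
  have h1 : X + D₀ + 1 ≤ Nat.find h0 := (Nat.le_find_iff _ _).2 fun m hm =>
    not_lt.2 (le_trans (by gcongr; omega) hn)
  have h2 := Nat.find_spec h0
  have h3 := Nat.find_min h0 (m := Nat.find h0 - 1) (by omega)
  generalize Nat.find h0 = D at h1 h2 h3
  rw [Nat.sub_add_cancel (by omega), not_lt] at h3
  have h4 : n ≤ A * 2 ^ u * D ^ u := by
    rw [mul_assoc, ← mul_pow]
    exact h2.le.trans (by gcongr; omega)
  have h5 : n ^ (2 * u * r + 1) ≤ a n ^ (2 * u) := by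
    refine Nat.le_of_mul_le_mul_right ?_ (pow_pos hB (2 * u))
    calc _ ≤ (A * 2 ^ u * D ^ u) ^ (2 * u * r + 1) * B ^ (2 * u) := by gcongr
      _ = X * (D ^ u * D ^ (u * r * (2 * u))) := by rw [hX]; ring
      _ ≤ D ^ u * (D ^ u * D ^ (u * r * (2 * u))) := by
        gcongr
        exact le_trans (by omega) (Nat.le_self_pow hu.ne' D)
      _ = (D * D ^ (u * r)) ^ (2 * u) := by ring
      _ ≤ (a n * B) ^ (2 * u) := Nat.pow_le_pow_left (h D (by omega) n h3) _
      _ = _ := mul_pow _ _ _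
  refine le_of_pow_le_pow_left₀ (n := 2 * u) (by omega) (Nat.cast_nonneg _) ?_
  rw [← Real.rpow_natCast, ← Real.rpow_mul (Nat.cast_nonneg _),
    show ((r : ℝ) + 1 / (2 * u)) * (2 * u : ℕ) = (2 * u * r + 1 : ℕ) by push_cast; field_simp,
    Real.rpow_natCast]
  exact_mod_cast h5

theorem main {p : ℕ} {K : Type} [Fintype σ] [Field K] [Algebra (ZMod p) K] (hd : 0 < d)
    (hS : ∀ j, (S j).Nonempty) (hT : ∀ j, (T j).Nonempty) (hST : ∀ j, Disjoint (S j) (T j))
    (P : J → Matrix (Fin d) (Fin d) (MvPolynomial σ ℤ)) (t : ℕ → σ → K)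
    (ht : AlgebraicIndependent (ZMod p) fun a : ℕ × σ => t a.1 a.2)
    (hP : ∃ j, ((P j).map (aeval (t 0)) - (P j).map (aeval (t 1))).det ≠ 0)
    (hF : ¬Contains (host S T fun i j => (P j).map (aeval (t i))) F) :
    ∃ ε : ℝ, 0 < ε ∧ ∃ n₀ : ℕ, ∀ n ≥ n₀, (n : ℝ) ^ ((r : ℝ) - 1 + ε) ≤ ex r n F := by
  classical
  obtain ⟨j₀, hP⟩ := hP
  have : Nonempty (Fin d) := ⟨⟨0, hd⟩⟩
  have hr : Nonempty (Fin r) := ⟨(hS j₀).choose⟩
  have hJ : 0 < Fintype.card J := Fintype.card_pos_iff.2 ⟨j₀⟩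
  have : Nonempty σ := by
    by_contra! h
    exact hP (by rw [Subsingleton.elim (t 0) (t 1), sub_self, det_zero])
  have : IsDomain (ZMod p) := ht.algebraMap_injective.isDomain _
  obtain ⟨r, rfl⟩ := Nat.exists_eq_add_one_of_ne_zero hr.some.pos.ne'
  obtain ⟨k, hk⟩ : ∃ k, F.card ≤ k + 2 := ⟨_, Nat.le_add_right _ 2⟩
  obtain ⟨c, hc, h⟩ := transfer S T (k := k) P t ht j₀ hP hF
  obtain ⟨m, hm⟩ := exists_coeff_ne_zero hc
  obtain ⟨C, hC⟩ := fields _ hm
  obtain ⟨e, he⟩ : ∃ e, e = d * Fintype.card J := ⟨_, rfl⟩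
  have he0 : 0 < e := he ▸ Nat.mul_pos hd hJ
  simp only [Nat.cast_succ, add_sub_cancel_right]
  refine asymp (fun n => ex (r + 1) n F) (u := (k + 2) * e)
    (A := (r + 1) * ((C + 1) * (c.totalDegree + 1)) ^ e) (B := 2 ^ Fintype.card J) (D₀ := k + 2)
    (by positivity) (by positivity) (by positivity) fun D hD n hn => ?_
  have hD0 : 0 < D := by omega
  obtain ⟨A, _, _, φ, h1, h2, h3⟩ := hC (D ^ (k + 2) * (c.totalDegree + 1)) (by positivity)
  obtain ⟨τ, hτ⟩ := labels (D := D) (map φ c) (fun h0 => h1 (by rw [← coeff_map, h0, coeff_zero]))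
    (lt_of_le_of_lt (Nat.mul_le_mul_left _
      (Nat.le_succ_of_le (sup_mono (support_map_subset _ _)))) h2)
  simp only [eval_map] at hτ
  have h4 := count_host S T hS hT hST (n := n)
    (fun i j => (P j).map (aeval fun s => τ (i, s))) j₀ (fun i i' hi => by
      obtain ⟨π, hπ⟩ := Equiv.Perm.exists_extending_pair (α := Fin 2)
        (fun a => Fin.castLE hD (Fin.castLE (Nat.le_add_left 2 _) a)) ![i, i']
        ((Fin.castLE_injective _).comp (Fin.castLE_injective _))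
        (by simp [Function.Injective, hi, hi.symm])
      have := (h A φ _ (hτ ((Fin.castLEEmb hD).trans π.toEmbedding))).1
      rw [← show _ = i from hπ 0, ← show _ = i' from hπ 1]
      exact this) hk hD (le_trans ?_ hn) fun ι => (h A φ _ (hτ ι)).2
  · generalize Fintype.card A = q at h2 h4
    have hq : D ^ (k + 2) ≤ q := (Nat.le_mul_of_pos_right _ (by omega)).trans h2.le
    refine Nat.le_of_mul_le_mul_right ?_ (pow_pos ((pow_pos hD0 _).trans_le hq) e)
    calc _ = D * (D ^ (k + 2)) ^ (e * r) * q ^ e := by rw [← pow_mul, mul_assoc (k + 2)]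
      _ ≤ D * q ^ (e * r) * q ^ e := by gcongr
      _ = D * ((q ^ d) ^ (r + 1)) ^ Fintype.card J := by rw [he]; ring
      _ ≤ _ := h4
      _ = _ := by rw [he]; ring
  · rw [← pow_mul, ← he, mul_assoc, pow_mul D, ← mul_pow]
    gcongr
    exact h3.trans (by nlinarith [Nat.zero_le (D ^ (k + 2) * (c.totalDegree + 1))])

end Pool.Agent.Lib.MP_5a6238_co.Host
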