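import Pool.Agent.Lib.MP_5a6238_co.GenB
import Pool.Agent.Lib.MP_5a6238_co.HostD

/-! Counting the good edges, and the lower bound for the Turan number. -/

set_option autoImplicit false

namespace Pool.Agent.Lib.MP_5a6238_co.Host

open Finset Matrix MvPolynomial

open Classical in
theorem count_gen {A N m I : Type} [Field A] [Fintype A] [Fintype N] [Fintype m] [Fintype I]
    (f : (Option N → A) →ₗ[A] (m → A)) (γ : I → (Option N → A) →ₗ[A] A) (p : I → Prop)
    (h0 : ∃ y, y none = 1 ∧ f y = 0) (h1 : ∀ π, p π → ∃ z, f z = 0 ∧ γ π z ≠ 0)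
    (hI : 2 * Fintype.card I ≤ Fintype.card A) :
    Fintype.card A ^ Fintype.card N ≤ 2 * Fintype.card A ^ Fintype.card m *
      #{y : Option N → A | (y none = 1 ∧ f y = 0) ∧ ∀ π, p π → γ π y ≠ 0} := by
  obtain ⟨y₀, a1, a2⟩ := h0
  set X : Finset (Option N → A) := {y | y none = 1 ∧ f y = 0} with hX
  have hq : 0 < Fintype.card A := Fintype.card_pos
  have h2 : Fintype.card A ^ Fintype.card N ≤ Fintype.card A ^ Fintype.card m * #X := by
    let g := (LinearMap.proj (R := A) (φ := fun _ : Option N => A) none).prod f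
    have := card_le_mul_card_image (f := g) univ #X fun z hz => by
      obtain ⟨y, -, rfl⟩ := mem_image.1 hz
      refine (AddMonoidHom.card_fiber_eq_of_mem_range g ⟨y, rfl⟩ ⟨y₀, rfl⟩).trans_le
        (card_le_card fun y hy => ?_)
      have := Prod.ext_iff.1 (mem_filter.1 hy).2
      exact mem_filter.2 ⟨mem_univ _, this.1.trans a1, this.2.trans a2⟩
    refine Nat.le_of_mul_le_mul_left ?_ hq
    have h3 := this.trans (Nat.mul_le_mul_left _ (card_le_univ _))
    simp only [card_univ, Fintype.card_fun, Fintype.card_option, Fintype.card_prod] at h3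
    exact (pow_succ' _ _).symm.trans_le (h3.trans_eq (by ring))
  have h3 : ∀ π, p π → #{y ∈ X | γ π y = 0} * Fintype.card A ≤ #X := fun π hp => by
    rcases (X.filter fun y => γ π y = 0).eq_empty_or_nonempty with h | ⟨y₁, h⟩
    · simp [h]
    simp only [hX, mem_filter, mem_univ, true_and] at h
    obtain ⟨z, b1, b2⟩ := h1 π hp
    have b3 : γ π (z - z none • y₁) ≠ 0 := by simpa [h.2] using b2
    rw [← card_univ, ← card_product]
    refine card_le_card_of_injOn (fun q => q.1 + q.2 • (z - z none • y₁)) (fun q hq => ?_)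
      fun q hq q' hq' k => ?_
    · simp only [hX, coe_product, coe_filter, mem_filter, mem_univ, true_and, Set.mem_prod,
        Set.mem_ofPred_eq] at hq ⊢
      simp [hq.1.1.1, hq.1.1.2, h.1.1, h.1.2, b1]
    · simp only [hX, coe_product, coe_filter, mem_filter, mem_univ, true_and, Set.mem_prod,
        Set.mem_ofPred_eq] at hq hq'
      have k' := congrArg (γ π) k
      simp only [map_add, map_smul, hq.1.2, hq'.1.2, zero_add, smul_eq_mul] at k'
      have k2 := mul_right_cancel₀ b3 k'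
      exact Prod.ext (add_right_cancel (k.trans (by rw [k2]))) k2
  set Y : Finset (Option N → A) := {y | (y none = 1 ∧ f y = 0) ∧ ∀ π, p π → γ π y ≠ 0}
  have h4 : #X ≤ #Y + ∑ π ∈ univ.filter p, #{y ∈ X | γ π y = 0} := by
    refine le_trans (card_le_card fun y hy => ?_) ((card_union_le _ _).trans
      (Nat.add_le_add_left card_biUnion_le _))
    by_cases k : ∀ π, p π → γ π y ≠ 0
    · exact mem_union_left _ (mem_filter.2 ⟨mem_univ _, (mem_filter.1 hy).2, k⟩)
    · push Not at k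
      obtain ⟨π, k1, k2⟩ := k
      exact mem_union_right _ (mem_biUnion.2 ⟨π, mem_filter.2 ⟨mem_univ _, k1⟩, mem_filter.2 ⟨hy, k2⟩⟩)
  have h5 : (∑ π ∈ univ.filter p, #{y ∈ X | γ π y = 0}) * Fintype.card A ≤ Fintype.card I * #X := by
    rw [sum_mul]
    exact (sum_le_card_nsmul _ _ _ fun π hπ => h3 π (mem_filter.1 hπ).2).trans
      (Nat.mul_le_mul_right _ (card_le_univ _))
  have h6 : #X ≤ 2 * #Y := Nat.le_of_mul_le_mul_right (by nlinarith) hq
  exact h2.trans ((Nat.mul_le_mul_left _ h6).trans_eq (by ring))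

theorem exists_emb {k D : ℕ} (hD : k + 2 ≤ D) {i i' : Fin D} (hi : i ≠ i') :
    ∃ ι : Fin (k + 2) ↪ Fin D, ι 0 = i ∧ ι 1 = i' := by
  obtain ⟨π, hπ⟩ := Equiv.Perm.exists_extending_pair (α := Fin 2)
    (fun a => Fin.castLE hD (Fin.castLE (Nat.le_add_left 2 _) a)) ![i, i']
    ((Fin.castLE_injective _).comp (Fin.castLE_injective _))
    (by simp [Function.Injective, hi, hi.symm])
  exact ⟨(Fin.castLEEmb hD).trans π.toEmbedding, hπ 0, hπ 1⟩

theorem count_ex {r D k n B : ℕ} {m V A : Type} [Fintype m] [Fintype A] [One A] [Nonempty (Fin r)]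
    {F : Finset (Finset V)} (Y : Fin D → Finset (Option (Fin r × m) → A))
    (h1 : ∀ i, ∀ y ∈ Y i, y none = 1) (h2 : ∀ i i' y, y ∈ Y i → y ∈ Y i' → i = i')
    (h3 : ∀ i, B ≤ #(Y i)) (hk : #F ≤ k) (hD : k ≤ D)
    (hn : r * Fintype.card A ^ Fintype.card m ≤ n)
    (hF : ∀ (ι : Fin k ↪ Fin D) (x : F → Fin r → V) (l : F → Fin k) (col : V → Fin r),
      (∀ e c, col (x e c) = c) → (∀ e v, v ∈ e.1 ↔ v = x e (col v)) →
      ∀ u : Option (V × m) → A, u none = 1 → (∀ e, u ∘ res (x e) ∈ Y (ι (l e))) →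
      ¬∀ v v', (∃ e ∈ F, v ∈ e) → (∃ e ∈ F, v' ∈ e) → col v = col v' →
        (∀ a, u (some (v, a)) = u (some (v', a))) → v = v') : D * B ≤ ex r n F := by
  classical
  obtain ⟨ι⟩ : Nonempty (Fin r × (m → A) ↪ Fin n) :=
    Function.Embedding.nonempty_of_card_le (by simpa using hn)
  let g : (Option (Fin r × m) → A) → Fin r ↪ Fin r × (m → A) := fun y =>
    ⟨fun c => (c, fun a => y (some (c, a))), fun _ _ h => congrArg Prod.fst h⟩
  have hg : ∀ y v, v ∈ univ.map (g y) ↔ v = g y v.1 := fun q v => by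
    simp only [mem_map, mem_univ, true_and]
    exact ⟨fun ⟨c, h⟩ => h ▸ rfl, fun h => ⟨v.1, h.symm⟩⟩
  have hinj : Set.InjOn (fun y => (univ.map (g y)).map ι) (univ.biUnion Y : Finset _) := by
    intro y hy y' hy' h
    obtain ⟨i, -, hy⟩ := mem_biUnion.1 hy
    obtain ⟨i', -, hy'⟩ := mem_biUnion.1 hy'
    funext o
    rcases o with _ | ⟨c, a⟩
    · rw [h1 i y hy, h1 i' y' hy']
    · exact congrFun (congrArg Prod.snd
        ((hg y' (g y c)).1 (map_injective ι h ▸ mem_map_of_mem _ (mem_univ c)))) a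
  refine le_trans (b := #(univ.biUnion Y)) ?_ ?_
  · rw [card_biUnion fun i _ i' _ h => disjoint_left.2 fun y a b => h (h2 i i' y a b)]
    exact le_trans (by simp) (card_nsmul_le_sum univ _ B fun i _ => h3 i)
  rw [← card_image_of_injOn hinj]
  refine le_sup (f := card) (mem_filter.2 ⟨mem_powerset.2 fun e he => ?_, fun ⟨f, hf⟩ => ?_⟩)
  · obtain ⟨q, -, rfl⟩ := mem_image.1 he
    simp
  have h4 : ∀ e : F, ∃ i, ∃ y ∈ Y i, (univ.map (g y)).map ι = e.1.map f := fun e => by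
    obtain ⟨y, a, b⟩ := mem_image.1 (hf e.1 e.2)
    obtain ⟨i, -, a⟩ := mem_biUnion.1 a
    exact ⟨i, y, a, b⟩
  choose l y h4 h5 using h4
  let f' := fun v => Function.invFun ι (f v)
  have h6 : ∀ (e : F) v, v ∈ e.1 → ι (f' v) = f v ∧ f' v = g (y e) (f' v).1 := fun e v hv => by
    obtain ⟨z, a, b⟩ := mem_map.1 (h5 e ▸ mem_map_of_mem f hv)
    have : f' v = z := by simp only [f', ← b, Function.leftInverse_invFun ι.injective z]
    exact ⟨this ▸ b, this ▸ (hg _ _).1 a⟩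
  have h7 : ∀ (e : F) c, ∃ v ∈ e.1, f' v = g (y e) c := fun e c => by
    obtain ⟨v, a, b⟩ := mem_map.1 (h5 e ▸ mem_map_of_mem ι (mem_map_of_mem (g (y e)) (mem_univ c)))
    exact ⟨v, a, ι.injective ((h6 e v a).1.trans b)⟩
  choose x h7 h8 using h7
  have h9 : ∀ v v', (∃ e ∈ F, v ∈ e) → (∃ e ∈ F, v' ∈ e) → f' v = f' v' → v = v' :=
    fun v v' ⟨e, a, b⟩ ⟨e', a', b'⟩ h =>
      f.injective (by rw [← (h6 ⟨e, a⟩ v b).1, ← (h6 ⟨e', a'⟩ v' b').1, h])
  obtain ⟨s, hs, hs'⟩ := exists_superset_card_eq (s := univ.image l) (n := k)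
    (card_image_le.trans (by simpa using hk)) (by simpa using hD)
  let κ : Fin k ≃ s := (s.equivFinOfCardEq hs').symm
  refine hF (κ.toEmbedding.trans (Function.Embedding.subtype _)) x
    (fun e => κ.symm ⟨l e, hs (mem_image_of_mem _ (mem_univ e))⟩) (fun v => (f' v).1)
    (fun e c => congrArg Prod.fst (h8 e c))
    (fun e v => ⟨fun k => h9 _ _ ⟨_, e.2, k⟩ ⟨_, e.2, h7 e _⟩ (by rw [h8]; exact (h6 e v k).2),
      fun k => k ▸ h7 e _⟩) (fun o => o.elim 1 fun q => (f' q.1).2 q.2) rfl (fun e => ?_)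
    fun v v' a b c k => h9 v v' a b (Prod.ext c (funext k))
  convert h4 e
  · simp
  funext o
  rcases o with _ | ⟨c, a⟩
  · exact (h1 _ _ (h4 e)).symm
  · exact congrFun (congrArg Prod.snd (h8 e c)) a

theorem gen_main {r p : ℕ} (hr : 0 < r) {m σ K V : Type} [Fintype m] [Fintype σ] [Field K]
    [Algebra (ZMod p) K] [Fintype V] (P : Fin r → Matrix m m (MvPolynomial σ ℤ))
    (b : m → MvPolynomial σ ℤ) (t : ℕ → σ → K)
    (ht : AlgebraicIndependent (ZMod p) fun a : ℕ × σ => t a.1 a.2)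
    (hP : ∃ y : Fin r → m → K, ∑ c, (P c).map (aeval (t 0)) *ᵥ y c = (fun a => aeval (t 0) (b a)) ∧
      ∑ c, (P c).map (aeval (t 1)) *ᵥ y c ≠ fun a => aeval (t 1) (b a)) (F : Finset (Finset V))
    (hF : ¬Generic (fun i c => (P c).map (aeval (t i))) (fun i a => aeval (t i) (b a)) F) :
    ∃ ε : ℝ, 0 < ε ∧ ∃ n₀ : ℕ, ∀ n ≥ n₀, (n : ℝ) ^ ((r : ℝ) - 1 + ε) ≤ ex r n F := by
  classical
  have : Nonempty σ := by
    by_contra! h
    obtain ⟨y, h1, h2⟩ := hP
    exact h2 (Subsingleton.elim (t 0) (t 1) ▸ h1)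
  have he0 : 0 < Fintype.card m := by
    obtain ⟨y, -, h⟩ := hP
    exact Fintype.card_pos_iff.2 ⟨(Function.ne_iff.1 h).choose⟩
  have : IsDomain (ZMod p) := ht.algebraMap_injective.isDomain _
  obtain ⟨r, rfl⟩ := Nat.exists_eq_add_one_of_ne_zero hr.ne'
  obtain ⟨k, hk⟩ : ∃ k, F.card ≤ k + 2 := ⟨_, Nat.le_add_right _ 2⟩
  obtain ⟨I, _, c, i, γ, hc, h⟩ := gen_transfer P b (k := k) t ht hP hF
  obtain ⟨μ, hμ⟩ := exists_coeff_ne_zero hc
  obtain ⟨C, hC⟩ := fields _ hμ
  set e := Fintype.card m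
  obtain ⟨δ, hδ⟩ : ∃ δ, δ = c.totalDegree + 2 * Fintype.card I + 1 := ⟨_, rfl⟩
  have hδ0 : 0 < δ := by omega
  simp only [Nat.cast_succ, add_sub_cancel_right]
  refine asymp (fun n => ex (r + 1) n F) (u := (k + 2) * e) (A := (r + 1) * ((C + 1) * δ) ^ e)
    (B := 2) (D₀ := k + 2) (by positivity) (by positivity) two_pos fun D hD n hn => ?_
  have hD0 : 0 < D := by omega
  obtain ⟨A, _, _, φ, h1, h2, h3⟩ := hC (D ^ (k + 2) * δ) (by positivity)
  obtain ⟨τ, hτ⟩ := labels (D := D) (map φ c) (fun h0 => h1 (by rw [← coeff_map, h0, coeff_zero]))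
    (lt_of_le_of_lt (Nat.mul_le_mul_left _ ((sup_mono (support_map_subset _ _)).trans
      (show c.totalDegree ≤ δ by omega))) h2)
  simp only [eval_map] at hτ
  replace h := fun ι => h A φ _ (hτ ι)
  let f : Fin D → (Option (Fin (r + 1) × m) → A) →ₗ[A] (m → A) := fun j =>
    LinearMap.pi fun a => ev (evZ fun s => τ (j, s)) (row P b a)
  let Y : Fin D → Finset (Option (Fin (r + 1) × m) → A) := fun j =>
    {y | (y none = 1 ∧ f j y = 0) ∧ ∀ q : (Fin (k + 2) ↪ Fin D) × I, q.1 (i q.2) = j →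
      ev (eval₂Hom φ fun a => τ (q.1 a.1, a.2)) (γ q.2) y ≠ 0}
  have hq : D ^ (k + 2) ≤ Fintype.card A := (Nat.le_mul_of_pos_right _ hδ0).trans h2.le
  have h4 : ∀ j, (D ^ (k + 2)) ^ (e * r) ≤ 2 * #(Y j) := fun j => by
    have := count_gen (f j) (fun q : (Fin (k + 2) ↪ Fin D) × I =>
      ev (eval₂Hom φ fun a => τ (q.1 a.1, a.2)) (γ q.2)) (fun q => q.1 (i q.2) = j) (by
        have : Nontrivial (Fin D) := Fin.nontrivial_iff_two_le.2 (by omega)
        obtain ⟨j', hj⟩ := exists_ne j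
        obtain ⟨ι, rfl, -⟩ := exists_emb hD hj.symm
        exact (h ι).1.imp fun y hy => ⟨hy.1, funext hy.2⟩)
      (by
        rintro ⟨ι, π⟩ rfl
        exact ((h ι).2.1 π).imp fun y hy => ⟨funext hy.1, hy.2⟩) (by
        have := Fintype.card_le_of_injective (fun ι : Fin (k + 2) ↪ Fin D => (ι : _ → Fin D))
          DFunLike.coe_injective
        simp only [Fintype.card_fun, Fintype.card_fin] at this
        rw [Fintype.card_prod]
        refine le_trans ?_ h2.le
        calc _ = Fintype.card (Fin (k + 2) ↪ Fin D) * (2 * Fintype.card I) := by ring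
          _ ≤ _ := Nat.mul_le_mul this (by omega))
    refine (Nat.pow_le_pow_left hq _).trans (Nat.le_of_mul_le_mul_left ?_
      (pow_pos (Fintype.card_pos (α := A)) e))
    simp only [Fintype.card_prod, Fintype.card_fin] at this
    refine le_trans (by rw [← pow_add]; exact (congrArg _ (by ring)).le) (this.trans_eq ?_)
    rw [mul_comm 2, mul_assoc]
    exact congrArg (fun s : Finset _ => _ * (2 * #s)) (Finset.ext fun y => by
      simp only [Y, mem_filter, mem_univ])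
  have h5 := count_ex (n := n) (B := ((D ^ (k + 2)) ^ (e * r) + 1) / 2) Y
    (fun j y hy => (mem_filter.1 hy).2.1.1) (fun j j' y hy hy' => by_contra fun hj => by
      obtain ⟨ι, rfl, rfl⟩ := exists_emb hD hj
      obtain ⟨π, a1, a2⟩ := (h ι).2.2.1 y (congrFun (mem_filter.1 hy').2.1.2)
      exact (mem_filter.1 hy).2.2 (ι, π) (congrArg ι a1) a2)
    (fun j => by have := h4 j; omega) hk hD (le_trans ?_ hn) fun ι x l col a1 a2 u a3 a4 a5 => by
      obtain ⟨π, e, a6, a7⟩ := (h ι).2.2.2 x l col a1 a2 u a3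
        (fun e => congrFun (mem_filter.1 (a4 e)).2.1.2) a5
      exact (mem_filter.1 (a4 e)).2.2 (ι, π) (congrArg ι a6.symm) a7
  · rw [mul_assoc (k + 2), pow_mul]
    refine le_trans ?_ (Nat.mul_le_mul_right 2 h5)
    rw [mul_assoc]
    exact Nat.mul_le_mul_left _ (by omega)
  · rw [mul_assoc, pow_mul D, ← mul_pow]
    gcongr
    exact h3.trans (by nlinarith [Nat.zero_le (D ^ (k + 2) * δ)])

end Pool.Agent.Lib.MP_5a6238_co.Host
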