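import Pool.Agent.Lib.MP_5a6238_co.GenC

/-! The hosts with sums over sets of classes are an instance of the generic criterion. -/

set_option autoImplicit false

namespace Pool.Agent.Lib.MP_5a6238_co.Host

open Finset Matrix MvPolynomial

theorem generic_point {K W I : Type} [Field K] [Infinite K] [AddCommGroup W] [Module K W] [Finite I]
    (Z : Submodule K W) (U : I → Submodule K W) (h : ∀ i, ∃ w ∈ Z, w ∉ U i) :
    ∃ w ∈ Z, ∀ i, w ∉ U i := by
  by_contra! k
  obtain ⟨i, hi⟩ := Subspace.exists_eq_top_of_iUnion_eq_univ (k := K) (E := Z)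
    (p := fun i => (U i).comap Z.subtype) (Set.eq_univ_of_forall fun u => Set.mem_iUnion.2 (k u u.2))
  obtain ⟨w, a, b⟩ := h i
  exact b (hi.ge (Submodule.mem_top (x := ⟨w, a⟩)))

/-- The common solutions of homogeneous systems. -/
def sols {r : ℕ} {m V K : Type} [Fintype m] [Field K] (M : Finset V → Fin r → Matrix m m K)
    (col : V → Fin r) (F : Finset (Finset V)) : Submodule K (V → m → K) where
  carrier := {w | ∀ e ∈ F, Solves (M e) 0 col w e}
  add_mem' a b e he := by
    simpa only [Solves, Pi.add_apply, mulVec_add, sum_add_distrib, add_zero] using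
      congrArg₂ (· + ·) (a e he) (b e he)
  zero_mem' e _ := by simp [Solves]
  smul_mem' c _ a e he := by
    simpa only [Solves, Pi.smul_apply, mulVec_smul, smul_sum, smul_zero] using
      congrArg (c • ·) (a e he)

variable {r d : ℕ} {J V σ : Type} [Fintype J] [DecidableEq J] (S T : J → Finset (Fin r))

/-- The block matrix of one class. -/
def blk {A : Type} [CommRing A] (M : J → Matrix (Fin d) (Fin d) A) (c : Fin r) :
    Matrix (Fin d × J) (Fin d × J) A :=
  blockDiagonal fun j => (if c ∈ S j then 1 else 0) - if c ∈ T j then M j else 0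

theorem blk_iff {A : Type} [CommRing A] (M : J → Matrix (Fin d) (Fin d) A)
    (y : Fin r → Fin d × J → A) : ∑ c, blk S T M c *ᵥ y c = 0 ↔
      ∀ j, ∑ c ∈ S j, (fun a => y c (a, j)) = M j *ᵥ ∑ c ∈ T j, fun a => y c (a, j) := by
  have : ∀ a j, (∑ c, blk S T M c *ᵥ y c) (a, j) =
      (∑ c ∈ S j, (fun a => y c (a, j)) - M j *ᵥ ∑ c ∈ T j, fun a => y c (a, j)) a := fun a j => by
    have : ∀ c, (blk S T M c *ᵥ y c) (a, j) =
        (((if c ∈ S j then 1 else 0) - if c ∈ T j then M j else 0) *ᵥ fun a => y c (a, j)) a :=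
      fun c => by simp [blk, mulVec, dotProduct, Fintype.sum_prod_type, blockDiagonal_apply]
    rw [Finset.sum_apply, sum_congr rfl fun c _ => this c, ← Finset.sum_apply, mulVec_sum]
    have h : ∀ (p : Prop) [Decidable p] (N : Matrix (Fin d) (Fin d) A) (z : Fin d → A),
        (if p then N else 0) *ᵥ z = if p then N *ᵥ z else 0 := fun p _ N z => by split_ifs <;> simp
    simp only [sub_mulVec, sum_sub_distrib, h, one_mulVec, sum_ite_mem, univ_inter]
  simp only [funext_iff (g := (0 : Fin d × J → A)), Prod.forall, this, Pi.zero_apply]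
  rw [forall_comm]
  exact forall_congr' fun j => funext_iff.symm.trans sub_eq_zero

theorem blk_test {A : Type} [CommRing A] (hS : ∀ j, (S j).Nonempty) (hT : ∀ j, (T j).Nonempty)
    (hST : ∀ j, Disjoint (S j) (T j)) (M : J → Matrix (Fin d) (Fin d) A) (j : J) (z : Fin d → A) :
    ∃ y : Fin r → Fin d × J → A, ∑ c, blk S T M c *ᵥ y c = 0 ∧
      ∑ c ∈ T j, (fun a => y c (a, j)) = z := by
  obtain ⟨s, hs⟩ := hS j
  obtain ⟨t, ht⟩ := hT j
  have h1 := disjoint_left.1 (hST j) hs
  have h2 := disjoint_right.1 (hST j) ht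
  let y : Fin r → Fin d → A := Pi.single t z + Pi.single s (M j *ᵥ z)
  have h3 : ∑ c ∈ T j, y c = z := by simp [y, sum_add_distrib, sum_pi_single', ht, h1]
  refine ⟨fun c q => if q.2 = j then y c q.1 else 0, (blk_iff S T M _).2 fun j' => ?_,
    by simpa using h3⟩
  by_cases h : j' = j
  · subst h
    simp only [ite_true]
    rw [h3]
    change ∑ c ∈ S j', y c = _
    simp [y, sum_add_distrib, sum_pi_single', hs, h2]
  · simp only [h, ite_false, ← Pi.zero_def, sum_const_zero, mulVec_zero]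

theorem generic_contains {K L : Type} [Field K] [Infinite K] [Fintype V] [Nonempty J]
    [Nonempty (Fin r)] [Nonempty (Fin d)] (hS : ∀ j, (S j).Nonempty) (hT : ∀ j, (T j).Nonempty)
    (hST : ∀ j, Disjoint (S j) (T j)) (M : L → J → Matrix (Fin d) (Fin d) K) {F : Finset (Finset V)}
    (h : Generic (fun i => blk S T (M i)) (fun _ => 0) F) : Contains (host S T M) F := by
  classical
  obtain ⟨col, l, h1, h2, h3⟩ := h
  choose x h4 h5 using fun (e : F) c => (h1 e e.2).surjOn (Set.mem_univ c)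
  have h6 : ∀ (e : F) v, v ∈ e.1 ↔ v = x e (col v) := fun e v =>
    ⟨fun h => (h1 e e.2).injOn h (h4 _ _) (h5 _ _).symm, fun h => h ▸ h4 _ _⟩
  obtain ⟨w, hw, h7⟩ := generic_point (sols (fun e => blk S T (M (l e))) col F)
    (I := (F × J) ⊕ {q : V × V // (∃ e ∈ F, q.1 ∈ e) ∧ (∃ e ∈ F, q.2 ∈ e) ∧ col q.1 = col q.2 ∧
      q.1 ≠ q.2})
    (Sum.elim (fun q => LinearMap.ker (∑ c ∈ T q.2, LinearMap.funLeft K K (fun a => (a, q.2)) ∘ₗ
      LinearMap.proj (φ := fun _ : V => Fin d × J → K) (x q.1 c)))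
      fun q => LinearMap.eqLocus (LinearMap.proj (φ := fun _ : V => Fin d × J → K) q.1.1)
        (LinearMap.proj (R := K) q.1.2)) (by
    rintro (⟨e, j⟩ | ⟨⟨v, v'⟩, ⟨e, a, b⟩, ⟨e', a', b'⟩, c, c'⟩)
    · obtain ⟨y, a, b⟩ := blk_test S T hS hT hST (M (l e)) j 1
      obtain ⟨w, a', b'⟩ := h2 e e.2 (fun v => y (col v))
        ((solves_iff _ _ (h5 e) (h6 e) _).2 (by simpa only [h5] using a))
      refine ⟨w, a', fun k => one_ne_zero (b.symm.trans (Eq.trans ?_ k))⟩
      rw [LinearMap.sum_apply]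
      exact sum_congr rfl fun c _ => by
        rw [← h5 e c, ← b' _ (h4 e c), h5]
        rfl
    · exact h3 e a e' a' v b v' b' c' c)
  refine Good.contains S T (x := x) (l := fun e => l e) (w := fun v j a => w v (a, j))
    ⟨fun e j => ⟨fun k => h7 (.inl (e, j)) (Eq.trans ?_ k), (blk_iff S T _ _).1
      ((solves_iff _ _ (h5 e) (h6 e) _).1 (hw e e.2)) j⟩, fun v v' a b c k => by_contra fun k' =>
      h7 (.inr ⟨(v, v'), a, b, c, k'⟩) (funext fun q => congrFun (congrFun k q.2) q.1)⟩ h5 h6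
  exact LinearMap.sum_apply _ _ _

omit [Fintype J] in
theorem blk_map {A B : Type} [CommRing A] [CommRing B] (f : A →+* B)
    (M : J → Matrix (Fin d) (Fin d) A) (c : Fin r) :
    (blk S T M c).map f = blk S T (fun j => (M j).map f) c := by
  rw [blk, blockDiagonal_map _ _ (map_zero f)]
  refine congrArg _ (funext fun j => ?_)
  split_ifs <;> simp [Matrix.map_sub _ (map_sub f), Matrix.map_neg _ (map_neg f)]

omit [DecidableEq J] in
/-- The hypotheses of the criterion for sum hosts give the hypotheses of the generic criterion. -/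
theorem sum_hyp {p : ℕ} {K : Type} [Field K] [Algebra (ZMod p) K] [Fintype V] (hd : 0 < d)
    (hS : ∀ j, (S j).Nonempty) (hT : ∀ j, (T j).Nonempty) (hST : ∀ j, Disjoint (S j) (T j))
    (P : J → Matrix (Fin d) (Fin d) (MvPolynomial σ ℤ)) (t : ℕ → σ → K)
    (ht : AlgebraicIndependent (ZMod p) fun a : ℕ × σ => t a.1 a.2)
    (hP : ∃ j, ((P j).map (aeval (t 0)) - (P j).map (aeval (t 1))).det ≠ 0) {F : Finset (Finset V)}
    (hF : ¬Contains (host S T fun i j => (P j).map (aeval (t i))) F) :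
    0 < r ∧ ∃ P' : Fin r → Matrix (Fin d × J) (Fin d × J) (MvPolynomial σ ℤ),
    (∃ y : Fin r → Fin d × J → K, ∑ c, (P' c).map (aeval (t 0)) *ᵥ y c =
      (fun _ => aeval (t 0) (0 : MvPolynomial σ ℤ)) ∧
      ∑ c, (P' c).map (aeval (t 1)) *ᵥ y c ≠ fun _ => aeval (t 1) (0 : MvPolynomial σ ℤ)) ∧
    ¬Generic (fun i c => (P' c).map (aeval (t i)))
      (fun i _ => aeval (t i) (0 : MvPolynomial σ ℤ)) F := by
  classical
  obtain ⟨j, hP⟩ := hP
  have : Nonempty (Fin d) := ⟨⟨0, hd⟩⟩
  have hr : Nonempty (Fin r) := ⟨(hS j).choose⟩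
  have : Nonempty J := ⟨j⟩
  obtain ⟨s⟩ : Nonempty σ := by
    by_contra! h
    exact hP (by rw [Subsingleton.elim (t 0) (t 1), sub_self, det_zero])
  have : Nontrivial (ZMod p) := (algebraMap (ZMod p) K).domain_nontrivial
  have : Infinite K := Infinite.of_injective (fun i => t i s) fun i i' h =>
    congrArg Prod.fst (ht.injective (a₁ := (i, s)) (a₂ := (i', s)) h)
  have h : ∀ i c, (blk S T P c).map (aeval (t i)) = blk S T (fun j => (P j).map (aeval (t i))) c :=
    fun i c => blk_map S T (aeval (t i) : MvPolynomial σ ℤ →ₐ[ℤ] K).toRingHom P c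
  refine ⟨hr.some.pos, blk S T P, ?_, ?_⟩ <;> simp only [h, map_zero, ← Pi.zero_def]
  · obtain ⟨y, a, b⟩ := blk_test S T hS hT hST (fun j => (P j).map (aeval (t 0))) j 1
    refine ⟨y, a, fun k => one_ne_zero (eq_zero_of_mulVec_eq_zero hP ?_)⟩
    rw [sub_mulVec, ← b, ← (blk_iff S T _ y).1 a j, (blk_iff S T _ y).1 k j, sub_self]
  · exact fun k => hF (generic_contains S T hS hT hST _ k)

end Pool.Agent.Lib.MP_5a6238_co.Host
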