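import Pool.Agent.Lib.MP_5a6238_co.HostE

/-! Split wheels with fans of different even lengths have no free potential. -/

set_option autoImplicit false

namespace Pool.Agent.Lib.MP_5a6238_co.Host

open Finset

theorem norm_alt (a : ℕ → ℕ) (g : ℕ → FreeGroup ℕ) (t : ℕ) (h : ∀ i, i + 1 < 2 * t → a i ≠ a (i + 1))
    (hg : ∀ i < t, g i = .of (a (2 * i)) * (.of (a (2 * i + 1)))⁻¹ * g (i + 1)) :
    (g 0 * (g t)⁻¹).norm = 2 * t := by
  have h1 : ∀ s ≤ t, g 0 * (g s)⁻¹ =
      .mk ((List.range (2 * s)).map fun i => (a i, decide (i % 2 = 0))) := fun s hs => by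
    induction s with
    | zero => rw [mul_inv_cancel]; rfl
    | succ s ih =>
      rw [mul_add, mul_one, List.range_succ, List.range_succ, List.map_append, List.map_append,
        ← FreeGroup.mul_mk, ← FreeGroup.mul_mk, ← ih (by omega), hg s hs]
      have e : (2 * s + 1) % 2 ≠ 0 := by omega
      simp only [List.map_cons, List.map_nil, Nat.mul_mod_right, e, decide_true, decide_false]
      change _ = _ * FreeGroup.of _ * (FreeGroup.of _)⁻¹
      group
  rw [h1 t le_rfl, FreeGroup.norm, FreeGroup.toWord_mk, FreeGroup.IsReduced.reduce_eq,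
    List.length_map, List.length_range]
  rw [FreeGroup.IsReduced, List.isChain_map, List.isChain_range]
  exact fun m hm e => absurd e (h m (by omega))

/-- A cycle of length `2 (j + k)`; its first `2 j` edges are extended by one hub, the other `2 k`
edges by a second hub. -/
def splitWheel (j k : ℕ) : Finset (Finset (Bool ⊕ ZMod (2 * (j + k)))) :=
  (range (2 * (j + k))).image fun i : ℕ => {.inl (decide (i < 2 * j)), .inr i, .inr (i + 1)}

theorem splitWheel_bound {j k : ℕ} (hj : 0 < j) (hk : 0 < k) (h : j ≠ k) :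
    ∃ ε : ℝ, 0 < ε ∧ ∃ n₀ : ℕ, ∀ n ≥ n₀, (n : ℝ) ^ (2 + ε) ≤ ex 3 n (splitWheel j k) := by
  have : NeZero (2 * (j + k)) := ⟨by omega⟩
  have e2 : ((3 : ℕ) : ℝ) - 1 = 2 := by norm_num
  rw [← e2]
  refine potential (by norm_num) _ ?_
  rintro ⟨-, l, φ, ψ, -, h1, h2⟩
  let e : ℕ → Finset (Bool ⊕ ZMod (2 * (j + k))) := fun i =>
    {.inl (decide (i < 2 * j)), .inr i, .inr (i + 1)}
  have he : ∀ i < 2 * (j + k), e i ∈ splitWheel j k := fun i hi =>
    mem_image_of_mem _ (mem_range.2 hi)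
  have n1 : (1 : ZMod (2 * (j + k))) ≠ 0 := fun h =>
    absurd (Nat.le_of_dvd one_pos ((ZMod.natCast_eq_zero_iff 1 _).1 (by simpa using h))) (by omega)
  have n2 : (1 + 1 : ZMod (2 * (j + k))) ≠ 0 := fun h =>
    absurd (Nat.le_of_dvd two_pos ((ZMod.natCast_eq_zero_iff 2 _).1
      (by simpa [one_add_one_eq_two] using h))) (by omega)
  have hA : ∀ i < 2 * (j + k), φ {.inr i} =
      .of (l (e i)) * ψ {.inl (decide (i < 2 * j)), .inr (i + 1)} := fun i hi => by
    rw [h2 _ (he i hi) {.inr i} (ssubset_iff_of_subset (by simp [e]) |>.2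
      ⟨.inl (decide (i < 2 * j)), by simp [e]⟩) (singleton_nonempty _)]
    congr 2
    ext (v | v) <;> simp [e]
    exact ⟨fun h => h.1.resolve_left h.2, fun h => by simp [h, n1]⟩
  have hB : ∀ i < 2 * (j + k), φ {.inr (i + 1)} =
      .of (l (e i)) * ψ {.inl (decide (i < 2 * j)), .inr i} := fun i hi => by
    rw [h2 _ (he i hi) {.inr (i + 1)} (ssubset_iff_of_subset (by simp [e]) |>.2
      ⟨.inl (decide (i < 2 * j)), by simp [e]⟩) (singleton_nonempty _)]
    congr 2
    ext (v | v) <;> simp [e]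
    exact ⟨fun h => h.1.resolve_right h.2, fun h => by simp [h, n1]⟩
  have hC : ∀ i, i + 1 < 2 * (j + k) → (i < 2 * j ↔ i + 1 < 2 * j) → l (e i) ≠ l (e (i + 1)) :=
    fun i hi k => h1 _ (he i (by omega)) _ (he _ hi) (card_eq_one.2 ⟨.inr i, by
      ext (v | v) <;> simp [e, k]
      exact ⟨fun h => h.1.resolve_right h.2.1, fun h => by simp [h, n1, add_assoc, n2]⟩⟩)
  have hD : ∀ i, 2 * i + 1 < 2 * (j + k) → φ {.inr (2 * i : ℕ)} =
      .of (l (e (2 * i))) * (.of (l (e (2 * i + 1))))⁻¹ * φ {.inr (2 * (i + 1) : ℕ)} := fun i hi => by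
    have := hB _ hi
    rw [hA _ (by omega), show ((2 * (i + 1) : ℕ) : ZMod (2 * (j + k))) = (2 * i + 1 : ℕ) + 1 by
      push_cast; ring, this, mul_assoc, inv_mul_cancel_left, Nat.cast_succ,
      decide_eq_decide.2 (show 2 * i < 2 * j ↔ 2 * i + 1 < 2 * j by omega)]
  have a1 := norm_alt (fun i => l (e i)) (fun i => φ {.inr (2 * i : ℕ)}) j
    (fun i hi => hC i (by omega) (by omega)) fun i hi => hD i (by omega)
  have a2 := norm_alt (fun i => l (e (2 * (j + k) - 1 - i))) (fun i => φ {.inr (2 * (j + k - i) : ℕ)}) k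
    (fun i hi => by
      have := hC (2 * (j + k) - 1 - (i + 1)) (by omega) (by omega)
      rw [show 2 * (j + k) - 1 - (i + 1) + 1 = 2 * (j + k) - 1 - i by omega] at this
      exact this.symm) fun i hi => by
      have := hD (j + k - (i + 1)) (by omega)
      rw [show j + k - (i + 1) + 1 = j + k - i by omega] at this
      simp only [this, show 2 * (j + k) - 1 - 2 * i = 2 * (j + k - (i + 1)) + 1 by omega,
        show 2 * (j + k) - 1 - (2 * i + 1) = 2 * (j + k - (i + 1)) by omega]
      group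
  simp only [Nat.sub_zero, ZMod.natCast_self, Nat.add_sub_cancel, mul_zero, Nat.cast_zero] at a1 a2
  omega

end Pool.Agent.Lib.MP_5a6238_co.Host
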