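import Pool.Agent.Lib.MP_5a6238_co.GenD
import Pool.Agent.Lib.MP_5a6238_co.HostF

/-! A family of systems for 3-graphs, and the algebra of fans of length four. -/

set_option autoImplicit false

namespace Pool.Agent.Lib.MP_5a6238_co.Host

open Finset Matrix MvPolynomial

theorem exists_labels3 : ∃ (K : Type) (_ : Field K) (_ : Algebra (ZMod 3) K)
    (v : Valuation K (WithZero (Multiplicative ℤ))) (t : ℕ → K) (g : WithZero (Multiplicative ℤ)),
    (AlgebraicIndependent (ZMod 3) fun a : ℕ × Unit => t a.1) ∧ 1 < g ∧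
      ∀ i j, i ≠ j → v (t i - t j) = g := by
  classical
  have : Fact (Nat.Prime 3) := ⟨by norm_num⟩
  let k := FractionRing (MvPolynomial (ℕ × Unit) (ZMod 3))
  let s : ℕ × Unit → k := IsScalarTower.toAlgHom (ZMod 3) (MvPolynomial (ℕ × Unit) (ZMod 3)) k ∘ X
  have hs : AlgebraicIndependent (ZMod 3) s :=
    (algebraicIndependent_X _ _).map' (IsFractionRing.injective _ k)
  have h1 : AlgebraicIndependent (ZMod 3) fun a => Polynomial.X * Polynomial.C (s a) :=
    .of_comp ((Polynomial.aeval (1 : k)).restrictScalars _) (by simpa [Function.comp_def] using hs)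
  refine ⟨RatFunc k, inferInstance, inferInstance, RatFunc.inftyValuation k,
    fun i => RatFunc.C (s (i, ())) * RatFunc.X, _, ?_, WithZero.exp_lt_exp.2 (zero_lt_one' ℤ),
    fun i j h => ?_⟩
  · simpa [Function.comp_def] using h1.map'
      (f := IsScalarTower.toAlgHom (ZMod 3) (Polynomial k) (RatFunc k))
      (IsFractionRing.injective _ _)
  · rw [← sub_mul, ← map_sub, map_mul, RatFunc.inftyValuation.X, RatFunc.inftyValuation.C _
      (sub_ne_zero.2 fun e => h (congrArg Prod.fst (hs.injective e))), one_mul]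

variable {K : Type} [Field K]

theorem alt_ne [Algebra (ZMod 3) K] {t : ℕ → K}
    (ht : AlgebraicIndependent (ZMod 3) fun a : ℕ × Unit => t a.1) {a b c d : ℕ} (h1 : a ≠ b)
    (h2 : b ≠ c) : t a - t b + t c - t d ≠ 0 := fun h => by
  have := congrArg (eval fun i : ℕ × Unit => if i.1 = b then (1 : ZMod 3) else 0)
    (ht.eq_zero_of_aeval_eq_zero (X (a, ()) - X (b, ()) + X (c, ()) - X (d, ())) (by simpa using h))
  simp only [map_sub, map_add, eval_X, h1, h2.symm, ite_true, ite_false, map_zero] at this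
  split_ifs at this <;> exact absurd this (by decide)

theorem det_ne {Γ : Type} [LinearOrderedCommGroupWithZero Γ] (v : Valuation K Γ) {t : ℕ → K} {g : Γ}
    (hg : 1 < g) (hv : ∀ i j, i ≠ j → v (t i - t j) = g) {a b c d : ℕ} (h1 : a ≠ b) (h2 : b ≠ c)
    (h3 : c ≠ d) (h : t a - t b + t c - t d ≠ 0) :
    (t a - t b + t c - t d) ^ 2 + (t a - t b) * (t b - t c) * (t c - t d) * (t a - t d) ≠ 0 := by
  by_cases e : a = d
  · rw [e, sub_self, mul_zero, add_zero]
    exact pow_ne_zero 2 (e ▸ h)
  intro k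
  have k1 := congrArg v (eq_neg_of_add_eq_zero_left k)
  rw [v.map_neg, map_pow, map_mul, map_mul, map_mul, hv _ _ h1, hv _ _ h2, hv _ _ h3, hv _ _ e,
    add_sub_assoc] at k1
  have k2 := pow_le_pow_left₀ zero_le (v.map_add_le (hv _ _ h1).le (hv _ _ h3).le) 2
  rw [k1, show g * g * g * g = g ^ 4 by simp [pow_succ]] at k2
  exact absurd k2 (pow_lt_pow_right₀ hg (by norm_num)).not_ge

/-- In a fan of length four with both ends zero the middle vertex is zero. -/
theorem fan {s1 s2 s3 s4 aE aO aH bE bO bH p1 q1 p q p3 q3 ph qh : K}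
    (h2 : s2 - s3 ≠ 0) (h4 : s1 - s2 + s3 - s4 ≠ 0)
    (h5 : (s1 - s2 + s3 - s4) ^ 2 + (s1 - s2) * (s2 - s3) * (s3 - s4) * (s1 - s4) ≠ 0)
    (h : (aE = 1 ∧ aO = 0 ∧ aH = 0 ∧ bE = 0) ∨ (aE = 0 ∧ aO = 0 ∧ aH = 1 ∧ bH = 0) ∨
      (aE = 0 ∧ aO = 1 ∧ aH = 0 ∧ bO = 0 ∧ (bE = 0 ∨ bE = 1) ∧ (bH = 0 ∨ bH = 1)))
    (e1 : ph + p1 = s1 * (aH * qh + aO * q1)) (f1 : qh + q1 = s1 * (bH * ph + bO * p1))
    (e2 : ph + p1 + p = s2 * (aH * qh + aO * q1 + aE * q))
    (f2 : qh + q1 + q = s2 * (bH * ph + bO * p1 + bE * p))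
    (e3 : ph + p3 + p = s3 * (aH * qh + aO * q3 + aE * q))
    (f3 : qh + q3 + q = s3 * (bH * ph + bO * p3 + bE * p))
    (e4 : ph + p3 = s4 * (aH * qh + aO * q3)) (f4 : qh + q3 = s4 * (bH * ph + bO * p3)) :
    p = 0 ∧ q = 0 := by
  rcases h with ⟨rfl, rfl, rfl, rfl⟩ | ⟨rfl, rfl, rfl, rfl⟩ | ⟨rfl, rfl, rfl, rfl, k1, k2⟩
  · have a : q = 0 := (mul_eq_zero.1 (by linear_combination e1 - e2 + e3 - e4)).resolve_left h2
    exact ⟨by linear_combination e2 - e1 + s2 * a, a⟩
  · have a : qh = 0 := (mul_eq_zero.1 (by linear_combination e2 - e1 + e4 - e3)).resolve_left h4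
    have b : p = 0 := by linear_combination e2 - e1 + (s2 - s1) * a
    have c : p3 = p1 := by linear_combination e4 - e1 + (s4 - s1) * a
    subst a b c
    have d : bO * p3 = 0 := (mul_eq_zero.1 (by linear_combination f2 - f1 + f4 - f3)).resolve_left h4
    exact ⟨rfl, by linear_combination f2 - f1 + (s2 - s1) * d⟩
  · rcases k1 with rfl | rfl <;> rcases k2 with rfl | rfl
    · have a : q3 = q1 := by linear_combination f4 - f1
      subst a
      have b : q3 = 0 := (mul_eq_zero.1 (by linear_combination e2 - e1 + e4 - e3)).resolve_left h4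
      exact ⟨by linear_combination e2 - e1 + (s2 - s1) * b, by linear_combination f2 - f1⟩
    · have a : ph = 0 := (mul_eq_zero.1 (by linear_combination f2 - f1 + f4 - f3)).resolve_left h4
      have a' : q3 = q1 := by linear_combination f4 - f1 + (s4 - s1) * a
      subst a a'
      have b : q3 = 0 := (mul_eq_zero.1 (by linear_combination e2 - e1 + e4 - e3)).resolve_left h4
      exact ⟨by linear_combination e2 - e1 + (s2 - s1) * b, by linear_combination f2 - f1⟩
    · have a : p = 0 := (mul_eq_zero.1 (by linear_combination f1 - f2 + f3 - f4)).resolve_left h2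
      exact ⟨a, by linear_combination f2 - f1 + s2 * a⟩
    · have a : ph = 0 := (mul_eq_zero.1 (by
        linear_combination (s2 - s3) * (s3 - s4) * (e2 - e1) + (s1 - s2) * (s2 - s3) * (e3 - e4) -
          (s1 - s2) * (s2 - s3) * (s3 - s4) * (f1 - f4) +
          (s1 - s2 + s3 - s4) * (f2 - f1 - f3 + f4))).resolve_left h5
      have b : p = 0 := (mul_eq_zero.1
        (by linear_combination f1 - f2 + f3 - f4 + (s1 - s2 + s3 - s4) * a)).resolve_left h2
      exact ⟨b, by linear_combination f2 - f1 + s2 * b + (s2 - s1) * a⟩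

/-- Coordinates: a class, a set of classes, and one of two places. -/
abbrev Ix := (Fin 3 × Finset (Fin 3)) × Bool

/-- Which classes enter the right side of an equation. -/
def sel (c : Fin 3) (q : Ix) : Bool := cond q.2 (c ∈ q.1.2 ∧ c ≠ q.1.1) (c = q.1.1)

/-- The matrices of the family. -/
noncomputable def mat (c : Fin 3) : Matrix Ix Ix (MvPolynomial Unit ℤ) :=
  1 - of fun q q' => if (q.1, !q.2) = q' ∧ sel c q then X () else 0

/-- The indicator of `sel`. -/
def ind (K : Type) [Field K] (c : Fin 3) (q : Ix) : K := if sel c q then 1 else 0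

theorem mat_mulVec (s : K) (c : Fin 3) (y : Ix → K) (q : Ix) :
    ((mat c).map (aeval fun _ => s) *ᵥ y) q = y q - s * (ind K c q * y (q.1, !q.2)) := by
  rw [mat, Matrix.map_sub _ (map_sub _), Matrix.map_one _ (map_zero _) (map_one _), sub_mulVec,
    one_mulVec, Pi.sub_apply, ind]
  by_cases h : sel c q <;> simp [h, mulVec, dotProduct, apply_ite (aeval _)]

/-- The equations of an edge with three given vertices. -/
def Eq3 {V : Type} (s : K) (col : V → Fin 3) (w : V → Ix → K) (a b c : V) : Prop :=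
  ∀ q, w a q + w b q + w c q = s * (ind K (col a) q * w a (q.1, !q.2) +
    ind K (col b) q * w b (q.1, !q.2) + ind K (col c) q * w c (q.1, !q.2))

variable {V : Type} {s : K} {col : V → Fin 3} {w : V → Ix → K} {a b c c' : V}

theorem solves3 [DecidableEq V] (h1 : a ≠ b) (h2 : a ≠ c) (h3 : b ≠ c) :
    Solves (fun c => (mat c).map (aeval fun _ => s)) (fun _ => aeval (fun _ => s)
      (0 : MvPolynomial Unit ℤ)) col w {a, b, c} ↔ Eq3 s col w a b c := by
  rw [Solves, sum_insert (by simp [h1, h2]), sum_pair h3, funext_iff]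
  refine forall_congr' fun q => ?_
  simp only [Pi.add_apply, mat_mulVec, map_zero]
  constructor <;> intro h <;> linear_combination h

theorem Eq3.swap (h : Eq3 s col w a b c) : Eq3 s col w a c b := fun q => by
  linear_combination h q

theorem Eq3.adj (h : Eq3 s col w a b c) (h' : Eq3 s col w a b c') (e : col c = col c') :
    w c = w c' := by
  have k : ∀ q, w c q - w c' q = s * ind K (col c) q * (w c (q.1, !q.2) - w c' (q.1, !q.2)) :=
    fun q => by
      have := h' q
      rw [← e] at this
      linear_combination h q - this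
  funext ⟨j, β⟩
  have k1 := k (j, β)
  have k2 := k (j, !β)
  have k3 : ind K (col c) (j, β) * ind K (col c) (j, !β) = 0 := by
    cases β <;> by_cases h : col c = j.1 <;> simp [ind, sel, h]
  simp only [Bool.not_not] at k2
  rw [k2] at k1
  linear_combination k1 + s * s * (w c (j, β) - w c' (j, β)) * k3

theorem Eq3.test [DecidableEq V] (s : K) (h1 : a ≠ b) (h2 : a ≠ c) (h3 : b ≠ c)
    (j : Fin 3 × Finset (Fin 3)) (ha : col a ≠ j.1) (hb : sel (col b) (j, true) = false)
    (ha' : sel (col a) (j, true) = true) :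
    ∃ y : V → Ix → K, Eq3 s col y a b c ∧ y a (j, false) = 1 ∧ y c = 0 := by
  refine ⟨fun v q => if q.1 = j then (if v = a then cond q.2 s 1 else if v = b then cond q.2 0 (-1)
    else 0) else 0, ?_, by simp, funext fun q => by simp [h2.symm, h3.symm]⟩
  rintro ⟨j', β⟩
  have : sel (col a) (j, false) = false := by simp [sel, ha]
  by_cases h : j' = j
  · subst h
    cases β <;> simp [ind, h1.symm, h2.symm, h3.symm, *]
  · simp [h]

/-- Two fans of length four with the same ends, labels and classes have the same middle vertex. -/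
theorem fan_eq {s1 s2 s3 s4 : K} {x y u u' v1 v1' v3 v3' : V} (h2 : s2 - s3 ≠ 0)
    (h4 : s1 - s2 + s3 - s4 ≠ 0)
    (h5 : (s1 - s2 + s3 - s4) ^ 2 + (s1 - s2) * (s2 - s3) * (s3 - s4) * (s1 - s4) ≠ 0)
    (k1 : col x ≠ col u) (k2 : col x ≠ col v1) (k3 : col u ≠ col v1) (c1 : col y = col x)
    (c2 : col u' = col u) (c3 : col v1' = col v1) (c4 : col v3 = col v1) (c5 : col v3' = col v1)
    (e1 : Eq3 s1 col w x v1 a) (e2 : Eq3 s2 col w x v1 u) (e3 : Eq3 s3 col w x v3 u)
    (e4 : Eq3 s4 col w x v3 b) (f1 : Eq3 s1 col w y v1' a) (f2 : Eq3 s2 col w y v1' u')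
    (f3 : Eq3 s3 col w y v3' u') (f4 : Eq3 s4 col w y v3' b) : w u = w u' := by
  simp only [Eq3, c1, c2, c3, c4, c5] at e1 e2 e3 e4 f1 f2 f3 f4
  funext ⟨j, β⟩
  have := fan (aE := ind K (col u) (j, false)) (aO := ind K (col v1) (j, false))
    (aH := ind K (col x) (j, false)) (bE := ind K (col u) (j, true))
    (bO := ind K (col v1) (j, true)) (bH := ind K (col x) (j, true))
    (p1 := w v1 (j, false) - w v1' (j, false)) (q1 := w v1 (j, !false) - w v1' (j, !false))
    (p := w u (j, false) - w u' (j, false)) (q := w u (j, !false) - w u' (j, !false))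
    (p3 := w v3 (j, false) - w v3' (j, false)) (q3 := w v3 (j, !false) - w v3' (j, !false))
    (ph := w x (j, false) - w y (j, false)) (qh := w x (j, !false) - w y (j, !false)) h2 h4 h5
    (by
      have : ∀ a b c d : Fin 3, a ≠ b → a ≠ c → b ≠ c → b = d ∨ a = d ∨ c = d := by decide
      rcases this _ _ _ j.1 k1 k2 k3 with h | h | h
      · exact .inl (by simp [ind, sel, ← h, k1, k3.symm])
      · exact .inr (.inl (by simp [ind, sel, ← h, k1.symm, k2.symm]))
      · exact .inr (.inr (by simp [ind, sel, ← h, k2, k3, em']))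
      )
    (by linear_combination e1 (j, false) - f1 (j, false))
    (by have := e1 (j, true); have := f1 (j, true); grind)
    (by linear_combination e2 (j, false) - f2 (j, false))
    (by have := e2 (j, true); have := f2 (j, true); grind)
    (by linear_combination e3 (j, false) - f3 (j, false))
    (by have := e3 (j, true); have := f3 (j, true); grind)
    (by linear_combination e4 (j, false) - f4 (j, false))
    (by have := e4 (j, true); have := f4 (j, true); grind)
  cases β
  exacts [sub_eq_zero.1 this.1, sub_eq_zero.1 this.2]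

/-- Two such fans with hubs in different classes force a zero coordinate at the middle vertex. -/
theorem fan_ne {s1 s2 s3 s4 : K} {x y u u' v1 v1' v3 v3' : V} (h1 : s1 - s2 ≠ 0) (h2 : s2 - s3 ≠ 0)
    (h3 : s3 - s4 ≠ 0) (k1 : col x ≠ col u) (k2 : col x ≠ col v1) (k3 : col u ≠ col v1)
    (c1 : col y = col v1) (c2 : col u' = col u) (c3 : col v1' = col x) (c4 : col v3 = col v1)
    (c5 : col v3' = col x) (c6 : col a = col u) (c7 : col b = col u)
    (e1 : Eq3 s1 col w x v1 a) (e2 : Eq3 s2 col w x v1 u) (e3 : Eq3 s3 col w x v3 u)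
    (e4 : Eq3 s4 col w x v3 b) (f1 : Eq3 s1 col w y v1' a) (f2 : Eq3 s2 col w y v1' u')
    (f3 : Eq3 s3 col w y v3' u') (f4 : Eq3 s4 col w y v3' b) :
    w u ((col x, {col u}), false) = 0 := by
  set j : Fin 3 × Finset (Fin 3) := (col x, {col u})
  have key : ∀ {s a b c}, Eq3 s col w a b c → _ := fun h => And.intro (h (j, false)) (h (j, true))
  have a1 := key e1
  have a2 := key e2
  have a3 := key e3
  have a4 := key e4
  have b1 := key f1
  have b2 := key f2
  have b3 := key f3
  have b4 := key f4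
  simp only [c1, c2, c3, c4, c5, c6, c7, ind, sel, j, mem_singleton, k1, k1.symm, k2.symm, k3.symm,
    cond_true, cond_false, Bool.not_true, Bool.not_false, ne_eq, decide_true, decide_false,
    false_and, true_and, not_false_iff, ite_true, Bool.false_eq_true, ite_false, one_mul, zero_mul,
    add_zero, zero_add] at a1 a2 a3 a4 b1 b2 b3 b4
  have d1 : w u (j, false) = w u' (j, false) := mul_left_cancel₀ h2 (by
    linear_combination a1.2 - a2.2 + a3.2 - a4.2 - b1.2 + b2.2 - b3.2 + b4.2)
  have d2 : w x (j, true) = w v1' (j, true) := mul_left_cancel₀ h1 (by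
    linear_combination a2.1 - a1.1 - b2.1 + b1.1 - d1)
  have d3 : w x (j, true) = w v3' (j, true) := mul_left_cancel₀ h3 (by
    linear_combination a4.1 - a3.1 - b4.1 + b3.1 + d1)
  exact (mul_eq_zero.1 (by linear_combination b3.2 - b2.2 + d3 - d2 + (s2 - s3) * d1)).resolve_left h2

end Pool.Agent.Lib.MP_5a6238_co.Host
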