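import Pool.Agent.Lib.MP_5a6238_co.GenE

/-! The split wheel with two fans of length four has no generic embedding. -/

set_option autoImplicit false

namespace Pool.Agent.Lib.MP_5a6238_co.Host

open Finset Matrix MvPolynomial

theorem word_eq {a b c d a' b' c' d' : ℕ} (h1 : a ≠ b) (h2 : b ≠ c) (h3 : c ≠ d) (h4 : a' ≠ b')
    (h5 : b' ≠ c') (h6 : c' ≠ d')
    (h : FreeGroup.of a * (.of b)⁻¹ * .of c * (.of d)⁻¹ = .of a' * (.of b')⁻¹ * .of c' * (.of d')⁻¹) :
    a = a' ∧ b = b' ∧ c = c' ∧ d = d' := by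
  have := FreeGroup.reduce.sound (L₁ := [(a, true), (b, false), (c, true), (d, false)])
    (L₂ := [(a', true), (b', false), (c', true), (d', false)]) h
  rw [FreeGroup.IsReduced.reduce_eq (by simp [*]), FreeGroup.IsReduced.reduce_eq (by simp [*])] at this
  simpa using this

theorem wheel_not_generic {K Γ : Type} [Field K] [Algebra (ZMod 3) K]
    [LinearOrderedCommGroupWithZero Γ] (v : Valuation K Γ) {t : ℕ → K} {g : Γ}
    (ht : AlgebraicIndependent (ZMod 3) fun a : ℕ × Unit => t a.1) (hg : 1 < g)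
    (hv : ∀ i j, i ≠ j → v (t i - t j) = g) :
    ¬Generic (fun i c => (mat c).map (aeval fun _ => t i))
      (fun i _ => aeval (fun _ => t i) (0 : MvPolynomial Unit ℤ)) (splitWheel 2 2) := by
  have h4 : ∀ a b c d : Fin 3, a ≠ b → a ≠ c → b ≠ c → a ≠ d → b ≠ d → d = c := by omega
  rintro ⟨col, l, h1, h2, h3⟩
  have : Infinite K := Infinite.of_injective t fun i i' h =>
    congrArg Prod.fst (ht.injective (a₁ := (i, ())) (a₂ := (i', ())) h)
  have hne : ∀ {i j}, i ≠ j → t i - t j ≠ 0 := fun h k => by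
    have := hv _ _ h
    rw [k, map_zero] at this
    exact (zero_lt_one.trans hg).ne this
  let x : Bool ⊕ ZMod (2 * (2 + 2)) := .inl true
  let y : Bool ⊕ ZMod (2 * (2 + 2)) := .inl false
  let c : ZMod (2 * (2 + 2)) → Bool ⊕ ZMod (2 * (2 + 2)) := .inr
  have m0 : {x, c 1, c 0} ∈ splitWheel 2 2 := by decide
  have m1 : {x, c 1, c 2} ∈ splitWheel 2 2 := by decide
  have m2 : {x, c 3, c 2} ∈ splitWheel 2 2 := by decide
  have m3 : {x, c 3, c 4} ∈ splitWheel 2 2 := by decide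
  have m4 : {y, c 5, c 4} ∈ splitWheel 2 2 := by decide
  have m5 : {y, c 5, c 6} ∈ splitWheel 2 2 := by decide
  have m6 : {y, c 7, c 6} ∈ splitWheel 2 2 := by decide
  have m7 : {y, c 7, c 0} ∈ splitWheel 2 2 := by decide
  have hd : ∀ a b c, {a, b, c} ∈ splitWheel 2 2 → a ≠ b ∧ a ≠ c ∧ b ≠ c := by decide
  have hc : ∀ {a b c}, {a, b, c} ∈ splitWheel 2 2 → col a ≠ col b ∧ col a ≠ col c ∧ col b ≠ col c :=
    fun h => ⟨fun k => (hd _ _ _ h).1 ((h1 _ h).injOn (by simp) (by simp) k),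
      fun k => (hd _ _ _ h).2.1 ((h1 _ h).injOn (by simp) (by simp) k),
      fun k => (hd _ _ _ h).2.2 ((h1 _ h).injOn (by simp) (by simp) k)⟩
  have c2 : col (c 2) = col (c 0) := h4 _ _ _ _ (hc m0).1 (hc m0).2.1 (hc m0).2.2 (hc m1).2.1 (hc m1).2.2
  have c3 : col (c 3) = col (c 1) :=
    h4 _ _ _ _ (hc m1).2.1 (hc m1).1 (hc m1).2.2.symm (hc m2).1 (hc m2).2.2.symm
  have c4 : col (c 4) = col (c 0) :=
    c2 ▸ h4 _ _ _ _ (hc m2).1 (hc m2).2.1 (hc m2).2.2 (hc m3).2.1 (hc m3).2.2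
  have c6 : col (c 6) = col (c 0) := h4 _ _ _ _ (hc m7).1 (hc m7).2.1 (hc m7).2.2 (hc m6).2.1 (hc m6).2.2
  have c5 : col (c 5) = col (c 7) :=
    h4 _ _ _ _ (hc m6).2.1 (hc m6).1 (hc m6).2.2.symm (hc m5).1 (hc m5).2.2.symm
  set Z := sols (fun e c => (mat c).map (aeval fun _ => t (l e))) col (splitWheel 2 2)
  have h0 : ∀ i, (fun _ => aeval (fun _ => t i) (0 : MvPolynomial Unit ℤ)) = (0 : Ix → K) :=
    fun i => funext fun _ => map_zero _
  have hs : ∀ {a b c}, {a, b, c} ∈ splitWheel 2 2 → ∀ w, Solves (fun i => (mat i).map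
      (aeval fun _ => t (l {a, b, c}))) 0 col w {a, b, c} ↔ Eq3 (t (l {a, b, c})) col w a b c :=
    fun h w => h0 _ ▸ solves3 (hd _ _ _ h).1 (hd _ _ _ h).2.1 (hd _ _ _ h).2.2
  simp only [h0] at h2 h3
  have hz : ∀ {a b c}, {a, b, c} ∈ splitWheel 2 2 → ∀ w ∈ Z, Eq3 (t (l {a, b, c})) col w a b c :=
    fun h w hw => (hs h w).1 (hw _ h)
  have ha : ∀ {a b c c'}, {a, b, c} ∈ splitWheel 2 2 → {a, b, c'} ∈ splitWheel 2 2 → c ≠ c' →
      col c' = col c → l {a, b, c} ≠ l {a, b, c'} := fun h h' k k' e => by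
    obtain ⟨w, a, b⟩ := h3 _ h _ h' _ (by simp) _ (by simp) k k'.symm
    exact b ((hz h w a).adj (e ▸ hz h' w a) k'.symm)
  have hb : ∀ {a b c b'}, {a, b, c} ∈ splitWheel 2 2 → {a, b', c} ∈ splitWheel 2 2 → b ≠ b' →
      col b' = col b → l {a, b, c} ≠ l {a, b', c} := fun {a b c b'} h h' k k' => by
    rw [pair_comm b, pair_comm b'] at *
    exact ha h h' k k'
  have n01 := ha m0 m1 (by decide) c2
  have n12 := hb m1 m2 (by decide) c3
  have n23 := ha m2 m3 (by decide) (c4.trans c2.symm)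
  have n76 := ha m7 m6 (by decide) c6
  have n65 := hb m6 m5 (by decide) c5
  have n54 := ha m5 m4 (by decide) (c4.trans c6.symm)
  let j : Fin 3 × Finset (Fin 3) := (col (c 0), univ)
  have hp : ∀ {a b u}, {a, b, u} ∈ splitWheel 2 2 → col u = col (c 0) →
      ∃ w ∈ Z, w a (j, false) + w b (j, false) ≠ 0 := fun {a b u} h k => by
    obtain ⟨z, a1, a2, a3⟩ := Eq3.test (col := col) (t (l {a, b, u})) (hd _ _ _ h).2.1 (hd _ _ _ h).1
      (hd _ _ _ h).2.2.symm j (fun e => (hc h).2.1 (e.trans k.symm)) (by simp [sel, j, k])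
      (by simpa [sel, j, ← k] using (hc h).2.1)
    obtain ⟨w, a4, a5⟩ := h2 _ h z ((hs h z).2 a1.swap)
    exact ⟨w, a4, by simp [a5 a (by simp), a5 b (by simp), a2, a3]⟩
  let ev : (Bool ⊕ ZMod (2 * (2 + 2))) → ((Bool ⊕ ZMod (2 * (2 + 2))) → Ix → K) →ₗ[K] K := fun a =>
    LinearMap.proj (j, false) ∘ₗ LinearMap.proj a
  obtain ⟨w, hw, hw'⟩ := generic_point Z (fun i : Fin 4 =>
    LinearMap.ker (ev (![x, x, y, y] i) + ev (![c 1, c 3, c 5, c 7] i))) (by
      intro i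
      fin_cases i
      exacts [hp m0 rfl, hp m2 c2, hp m4 c4, hp m6 c6])
  let := Classical.decEq K
  let R : K × K → K × K → ℕ → Prop := fun u p i =>
    p.1 ≠ 0 ∧ p.1 + u.1 = t i * u.2 ∧ p.2 + u.2 = t i * p.1
  let U := fun a => (w a (j, false), w a (j, true))
  have hR : ∀ {a b u}, {a, b, u} ∈ splitWheel 2 2 → col u = col (c 0) →
      w a (j, false) + w b (j, false) ≠ 0 → R (U u) (U a + U b) (l {a, b, u}) := fun h k k' => by
    have a1 := hz h w hw (j, false)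
    have a2 := hz h w hw (j, true)
    have a3 := k ▸ (hc h).2.1
    have a4 := k ▸ (hc h).2.2
    simp [ind, sel, j, k, a3, a4] at a1 a2
    exact ⟨k', a1, a2⟩
  obtain ⟨φ, ψ, h⟩ := exists_potential R (fun u => v u.2) (fun p => v p.1)
    (fun u p i p' i' ⟨a, b, c⟩ ⟨a', b', c'⟩ k k' => by
      by_cases e : i = i'
      · subst e
        have : p.1 = p'.1 := by linear_combination b - b'
        exact ⟨Prod.ext this (by linear_combination c - c' + t i * this), rfl⟩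
      exact absurd (val_key v (hv i i' e ▸ hg) (by linear_combination b - b') k k').1 a)
    (fun p u i u' i' ⟨a, b, c⟩ ⟨a', b', c'⟩ k k' => by
      by_cases e : i = i'
      · subst e
        have : u.2 = u'.2 := by linear_combination c - c'
        exact ⟨Prod.ext (by linear_combination b - b' + t i * this) this, rfl⟩
      exact absurd (val_key v (hv i i' e ▸ hg) (by linear_combination c - c') k k').2 a)
    {(U (c 0), U x + U (c 1), l {x, c 1, c 0}), (U (c 2), U x + U (c 1), l {x, c 1, c 2}),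
      (U (c 2), U x + U (c 3), l {x, c 3, c 2}), (U (c 4), U x + U (c 3), l {x, c 3, c 4}),
      (U (c 4), U y + U (c 5), l {y, c 5, c 4}), (U (c 6), U y + U (c 5), l {y, c 5, c 6}),
      (U (c 6), U y + U (c 7), l {y, c 7, c 6}), (U (c 0), U y + U (c 7), l {y, c 7, c 0})}
    (by
      simp only [mem_insert, mem_singleton, forall_eq_or_imp, forall_eq]
      exact ⟨hR m0 rfl (hw' 0), hR m1 c2 (hw' 0), hR m2 c2 (hw' 1), hR m3 c4 (hw' 1),
        hR m4 c4 (hw' 2), hR m5 c6 (hw' 2), hR m6 c6 (hw' 3), hR m7 rfl (hw' 3)⟩)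
  simp only [mem_insert, mem_singleton, forall_eq_or_imp, forall_eq] at h
  obtain ⟨p0, p1, p2, p3, p4, p5, p6, p7⟩ := h
  obtain ⟨e0, e1, e2, e3⟩ := word_eq n01 n12 n23 n76 n65 n54 (mul_right_cancel (b := φ (U (c 4))) (by
    simp only [mul_assoc]
    conv_lhs => rw [p3, inv_mul_cancel_left, ← p2, p1, inv_mul_cancel_left, ← p0]
    conv_rhs => rw [p4, inv_mul_cancel_left, ← p5, p6, inv_mul_cancel_left, ← p7]))
  by_cases k : col y = col x
  · have c7 : col (c 7) = col (c 1) := h4 _ _ _ _ (hc m0).2.1 (hc m0).1 (hc m0).2.2.symm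
      (k ▸ (hc m7).1) (hc m7).2.2.symm
    obtain ⟨w, a, b⟩ := h3 _ m1 _ m6 (c 2) (by simp) (c 6) (by simp) (by decide) (c2.trans c6.symm)
    exact b (fan_eq (hne n12) (alt_ne ht n01 n12) (det_ne v hg hv n01 n12 n23 (alt_ne ht n01 n12))
      (hc m1).2.1 (hc m1).1 (hc m1).2.2.symm k (c6.trans c2.symm) c7 c3 (c5.trans c7)
      (hz m0 w a) (hz m1 w a) (hz m2 w a) (hz m3 w a) (e0 ▸ hz m7 w a) (e1 ▸ hz m6 w a)
      (e2 ▸ hz m5 w a) (e3 ▸ hz m4 w a))
  · have cy : col y = col (c 1) := h4 _ _ _ _ (hc m0).2.1 (hc m0).1 (hc m0).2.2.symm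
      (Ne.symm k) (hc m7).2.1.symm
    have c7 : col (c 7) = col x := h4 _ _ _ _ (hc m0).2.2 (hc m0).1.symm (hc m0).2.1.symm
      (cy ▸ (hc m7).1) (hc m7).2.2.symm
    obtain ⟨z, a1, a2, -⟩ := Eq3.test (col := col) (t (l {x, c 1, c 2})) (a := c 2) (b := c 1) (c := x)
      (by decide) (by decide) (by decide) (col x, {col (c 2)}) (hc m1).2.1.symm
      (by simp [sel, (hc m1).2.2]) (by simpa [sel] using (hc m1).2.1.symm)
    obtain ⟨w, a, b⟩ := h2 _ m1 z ((hs m1 z).2 fun q => by linear_combination a1 q)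
    have := fan_ne (hne n01) (hne n12) (hne n23) (hc m1).2.1 (hc m1).1 (hc m1).2.2.symm cy
      (c6.trans c2.symm) c7 c3 (c5.trans c7) c2.symm (c4.trans c2.symm)
      (hz m0 w a) (hz m1 w a) (hz m2 w a) (hz m3 w a) (e0 ▸ hz m7 w a) (e1 ▸ hz m6 w a)
      (e2 ▸ hz m5 w a) (e3 ▸ hz m4 w a)
    rw [b _ (by simp), a2] at this
    exact one_ne_zero this

theorem wheel_bound :
    ∃ ε : ℝ, 0 < ε ∧ ∃ n₀ : ℕ, ∀ n ≥ n₀, (n : ℝ) ^ (2 + ε) ≤ ex 3 n (splitWheel 2 2) := by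
  obtain ⟨K, _, _, v, t, g, ht, hg, hv⟩ := exists_labels3
  have e2 : ((3 : ℕ) : ℝ) - 1 = 2 := by norm_num
  have : NeZero (2 * (2 + 2)) := ⟨by norm_num⟩
  rw [← e2]
  refine gen_main (p := 3) (by norm_num) mat (fun _ => 0) (fun i _ => t i) ht ?_ _
    (wheel_not_generic v ht hg hv)
  obtain ⟨y, a, b, c⟩ := Eq3.test (col := id) (t 0) (a := 0) (b := 1) (c := 2) (by decide) (by decide)
    (by decide) (1, {0}) (by decide) (by decide) (by decide)
  have h : ∀ s : K, (∑ c, (mat c).map (aeval fun _ => s) *ᵥ y c =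
      fun _ => aeval (fun _ => s) (0 : MvPolynomial Unit ℤ)) ↔ Eq3 s id y 0 1 2 := fun s =>
    solves3 (col := id) (w := y) (a := 0) (b := 1) (c := 2) (by decide) (by decide) (by decide)
  refine ⟨y, (h _).2 a, fun k => ?_⟩
  have a1 := a ((1, {0}), true)
  have a2 := (h _).1 k ((1, {0}), true)
  simp [ind, sel, b, c] at a1 a2
  have := hv 0 1 zero_ne_one
  rw [a1.symm.trans a2, sub_self, map_zero] at this
  exact (zero_lt_one.trans hg).ne this

end Pool.Agent.Lib.MP_5a6238_co.Host
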