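import Mathlib

/-! Linear systems over a domain: forced equations have certificates. -/

set_option autoImplicit false

namespace Pool.Agent.Lib.MP_5a6238_co.Host

open Finset

variable {R N : Type} [CommRing R] [Fintype N]

/-- The value of a linear form with coefficients in `R` at a point with coordinates in `A`. -/
def ev {A : Type} [CommRing A] (ψ : R →+* A) (ρ : N → R) : (N → A) →ₗ[A] A where
  toFun u := ∑ n, ψ (ρ n) * u n
  map_add' u v := by simp only [Pi.add_apply, mul_add, sum_add_distrib]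
  map_smul' a u := by
    simp only [Pi.smul_apply, smul_eq_mul, RingHom.id_apply, mul_sum, mul_left_comm]

section
variable {A : Type} [CommRing A] (ψ : R →+* A) (u : N → A)

theorem ev_def (ρ : N → R) : ev ψ ρ u = ∑ n, ψ (ρ n) * u n := rfl

theorem ev_single [DecidableEq N] (n : N) : ev ψ (Pi.single n 1) u = u n := by
  rw [ev_def, sum_eq_single n (fun m _ h => by rw [Pi.single_eq_of_ne h, map_zero, zero_mul])
    (fun h => absurd (mem_univ n) h), Pi.single_eq_same, map_one, one_mul]

theorem ev_sub (ρ ρ' : N → R) : ev ψ (ρ - ρ') u = ev ψ ρ u - ev ψ ρ' u := by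
  simp only [ev_def, Pi.sub_apply, map_sub, sub_mul, sum_sub_distrib]

theorem ev_smul (c : R) (ρ : N → R) : ev ψ (c • ρ) u = ψ c * ev ψ ρ u := by
  simp only [ev_def, Pi.smul_apply, smul_eq_mul, map_mul, mul_sum, mul_assoc]

theorem ev_sum {ι : Type} (s : Finset ι) (ρ : ι → N → R) :
    ev ψ (∑ i ∈ s, ρ i) u = ∑ i ∈ s, ev ψ (ρ i) u := by
  simp only [ev_def, Finset.sum_apply, map_sum, sum_mul]
  exact sum_comm

end

variable [IsDomain R] {ι : Type} [Fintype ι]

theorem cert (rows : ι → N → R) (g : N → R)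
    (h : ∀ u : N → FractionRing R, (∀ j, ev (algebraMap R _) (rows j) u = 0) →
      ev (algebraMap R _) g u = 0) :
    ∃ c : R, c ≠ 0 ∧ ∃ μ : ι → R, c • g = ∑ j, μ j • rows j := by
  classical
  obtain ⟨l, hl⟩ := (Submodule.mem_span_range_iff_exists_fun _).1
    (mem_span_of_iInf_ker_le_ker (L := fun j => ev (algebraMap R (FractionRing R)) (rows j))
      (K := ev (algebraMap R _) g) fun u hu => h u fun j => (Submodule.mem_iInf _).1 hu j)
  obtain ⟨b, hb⟩ := IsLocalization.exist_integer_multiples_of_finite (nonZeroDivisors R) l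
  choose μ hμ using hb
  refine ⟨b, nonZeroDivisors.ne_zero b.2, μ, funext fun n =>
    IsFractionRing.injective R (FractionRing R) ?_⟩
  have e : ∀ ρ : N → R, ev (algebraMap R (FractionRing R)) ρ (Pi.single n 1) =
      algebraMap R _ (ρ n) := fun ρ => by
    rw [ev_def, sum_eq_single n (fun m _ h => by rw [Pi.single_eq_of_ne h, mul_zero])
      (fun h => absurd (mem_univ n) h), Pi.single_eq_same, mul_one]
  have h1 := LinearMap.congr_fun hl (Pi.single n 1)
  simp only [LinearMap.sum_apply, LinearMap.smul_apply, e, smul_eq_mul] at h1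
  simp only [Pi.smul_apply, smul_eq_mul, Finset.sum_apply, map_mul, map_sum, hμ, ← h1, mul_sum]
  simp only [Algebra.smul_def, mul_assoc]

/-- If every solution over the fraction field is degenerate in one of finitely many ways, the same
holds over every field in which one nonzero element of `R` survives. -/
theorem cover [Infinite R] {B Γ : Type} [Finite B] [Fintype Γ] (rows : ι → N → R)
    (g : B → Γ → N → R)
    (h : ∀ u : N → FractionRing R, (∀ j, ev (algebraMap R _) (rows j) u = 0) →
      ∃ β, ∀ γ, ev (algebraMap R _) (g β γ) u = 0) :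
    ∃ c : R, c ≠ 0 ∧ ∀ (A : Type) [Field A] (ψ : R →+* A), ψ c ≠ 0 → ∀ u : N → A,
      (∀ j, ev ψ (rows j) u = 0) → ∃ β, ∀ γ, ev ψ (g β γ) u = 0 := by
  have : Infinite (FractionRing R) :=
    Infinite.of_injective _ (IsFractionRing.injective R (FractionRing R))
  let Z : Submodule (FractionRing R) (N → FractionRing R) :=
    ⨅ j, LinearMap.ker (ev (algebraMap R _) (rows j))
  obtain ⟨β, hβ⟩ := Subspace.exists_eq_top_of_iUnion_eq_univ (k := FractionRing R) (E := Z)
    (p := fun β => (⨅ γ, LinearMap.ker (ev (algebraMap R _) (g β γ))).comap Z.subtype)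
    (Set.eq_univ_of_forall fun u => by
      obtain ⟨β, hβ⟩ := h u fun j => (Submodule.mem_iInf _).1 u.2 j
      exact Set.mem_iUnion.2 ⟨β, (Submodule.mem_iInf _).2 hβ⟩)
  choose c hc μ hμ using fun γ => cert rows (g β γ) fun u hu =>
    (Submodule.mem_iInf _).1 (hβ.ge (Submodule.mem_top (x := ⟨u, (Submodule.mem_iInf _).2 hu⟩))) γ
  refine ⟨∏ γ, c γ, prod_ne_zero_iff.2 fun γ _ => hc γ, fun A _ ψ h0 u hu => ⟨β, fun γ => ?_⟩⟩
  have h1 := congrArg (ev ψ · u) (hμ γ)
  simp only [ev_smul, ev_sum, hu, mul_zero, sum_const_zero] at h1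
  rw [map_prod] at h0
  exact (mul_eq_zero.1 h1).resolve_left (prod_ne_zero_iff.1 h0 γ (mem_univ _))

end Pool.Agent.Lib.MP_5a6238_co.Host
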