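import Mathlib

/-! Turan numbers and linear host hypergraphs. -/

set_option autoImplicit false

namespace Pool.Agent.Lib.MP_5a6238_co.Host

open Finset

/-- The hypergraph `H` contains `F` as a (not necessarily induced) subhypergraph. -/
def Contains {V W : Type} (H : Set (Finset W)) (F : Finset (Finset V)) : Prop :=
  ∃ f : V ↪ W, ∀ e ∈ F, e.map f ∈ H

open Classical in
/-- The Turan number: the largest number of edges of an `F`-free `r`-graph on `n` vertices. -/
noncomputable def ex (r n : ℕ) {V : Type} (F : Finset (Finset V)) : ℕ :=
  ((powersetCard r (univ : Finset (Fin n))).powerset.filter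
    fun H : Finset (Finset (Fin n)) => ¬Contains (H : Set (Finset (Fin n))) F).sup card

/-- The linear host. A vertex is a class `c` with one vector for each factor `j`. An edge takes one
vertex `(c, x c)` from each class and one label `i`; in each factor the sum over the classes in
`T j` is nonzero and the matrix of the label sends it to the sum over the classes in `S j`. -/
def host {r d : ℕ} {J L A : Type} [CommRing A] (S T : J → Finset (Fin r))
    (M : L → J → Matrix (Fin d) (Fin d) A) : Set (Finset (Fin r × (J → Fin d → A))) :=
  {e | ∃ (i : L) (x : Fin r → J → Fin d → A), (∀ v, v ∈ e ↔ v.2 = x v.1) ∧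
    ∀ j, ∑ c ∈ T j, x c j ≠ 0 ∧ ∑ c ∈ S j, x c j = (M i j).mulVec (∑ c ∈ T j, x c j)}

end Pool.Agent.Lib.MP_5a6238_co.Host
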