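import Pool.Agent.Lib.MP_5a6238_co.HostA
import Pool.Agent.Lib.MP_5a6238_co.HostDefs

/-! Transfer of non-embedding from the generic host to hosts over other fields. -/

set_option autoImplicit false

namespace Pool.Agent.Lib.MP_5a6238_co.Host

open Finset Matrix MvPolynomial

variable {r d : ℕ} {J V L : Type} [Fintype J] [Fintype V] (S T : J → Finset (Fin r))
  {F : Finset (Finset V)}

/-- Vectors at the vertices that solve the equations of a labelled pattern. -/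
def Good {A : Type} [CommRing A] (M : L → J → Matrix (Fin d) (Fin d) A) (x : F → Fin r → V)
    (l : F → L) (col : V → Fin r) (w : V → J → Fin d → A) : Prop :=
  (∀ e j, ∑ c ∈ T j, w (x e c) j ≠ 0 ∧
    ∑ c ∈ S j, w (x e c) j = M (l e) j *ᵥ ∑ c ∈ T j, w (x e c) j) ∧
  ∀ v v', (∃ e ∈ F, v ∈ e) → (∃ e ∈ F, v' ∈ e) → col v = col v' → w v = w v' → v = v'

theorem good_cover {R : Type} [CommRing R] [IsDomain R] [Infinite R]
    (G : L → J → Matrix (Fin d) (Fin d) R) (x : F → Fin r → V) (l : F → L) (col : V → Fin r)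
    (h : ∀ w, ¬ Good S T (fun i j => (G i j).map (algebraMap R (FractionRing R))) x l col w) :
    ∃ c : R, c ≠ 0 ∧ ∀ (A : Type) [Field A] (ψ : R →+* A), ψ c ≠ 0 →
      ∀ w, ¬ Good S T (fun i j => (G i j).map ψ) x l col w := by
  classical
  let rows : F × J × Fin d → V × J × Fin d → R := fun q =>
    ∑ c ∈ S q.2.1, Pi.single (x q.1 c, q.2.1, q.2.2) 1 -
      ∑ b, G (l q.1) q.2.1 q.2.2 b • ∑ c ∈ T q.2.1, Pi.single (x q.1 c, q.2.1, b) 1
  let g : (F × J) ⊕ {q : V × V // (∃ e ∈ F, q.1 ∈ e) ∧ (∃ e ∈ F, q.2 ∈ e) ∧ col q.1 = col q.2 ∧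
      q.1 ≠ q.2} → J × Fin d → V × J × Fin d → R :=
    Sum.elim (fun q γ => ∑ c ∈ T q.2, Pi.single (x q.1 c, q.2, γ.2) 1)
      fun q γ => Pi.single (q.1.1, γ) 1 - Pi.single (q.1.2, γ) 1
  have key : ∀ (A : Type) [CommRing A] (ψ : R →+* A) (u : V × J × Fin d → A),
      Good S T (fun i j => (G i j).map ψ) x l col (fun v j a => u (v, j, a)) ↔
        (∀ q, ev ψ (rows q) u = 0) ∧ ¬ ∃ β, ∀ γ, ev ψ (g β γ) u = 0 := fun A _ ψ u => by
    simp only [Good, rows, g, ev_sub, ev_sum, ev_smul, ev_single, sub_eq_zero, Sum.exists,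
      Sum.elim_inl, Sum.elim_inr, Prod.forall, Prod.exists, Subtype.exists, not_or, not_exists,
      funext_iff, Finset.sum_apply, mulVec, dotProduct, map_apply, ne_eq, Pi.zero_apply,
      forall_and]
    constructor
    · rintro ⟨⟨h1, h2⟩, h3⟩
      exact ⟨h2, fun e he j k => h1 ⟨e, he⟩ j (k j),
        fun v v' k k' => k.2.2.2 (h3 v v' k.1 k.2.1 k.2.2.1 k')⟩
    · rintro ⟨h2, h1, h3⟩
      exact ⟨⟨fun e j k => h1 e.1 e.2 j fun _ => k, h2⟩,
        fun v v' a b c k => by_contra fun k' => h3 v v' ⟨a, b, c, k'⟩ k⟩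
  obtain ⟨c, hc, h1⟩ := cover rows g fun u hu =>
    by_contra fun k => h _ ((key _ _ u).2 ⟨hu, k⟩)
  refine ⟨c, hc, fun A _ ψ h0 w hw => ?_⟩
  obtain ⟨h2, h3⟩ := (key A ψ fun q => w q.1 q.2.1 q.2.2).1 hw
  exact h3 (h1 A ψ h0 _ h2)

omit [Fintype J] [Fintype V] in
theorem Good.map {A B : Type} [Field A] [Field B] (φ : A →+* B)
    {M : L → J → Matrix (Fin d) (Fin d) A} {x : F → Fin r → V} {l : F → L} {col : V → Fin r}
    {w : V → J → Fin d → A} (h : Good S T M x l col w) :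
    Good S T (fun i j => (M i j).map φ) x l col fun v j a => φ (w v j a) := by
  refine ⟨fun e j => ⟨fun k => (h.1 e j).1 (funext fun a => φ.injective ?_), funext fun a => ?_⟩,
    fun v v' a b c k => h.2 v v' a b c (funext fun j => funext fun a =>
      φ.injective (congrFun (congrFun k j) a))⟩
  · simpa only [Finset.sum_apply, map_sum, Pi.zero_apply, map_zero] using congrFun k a
  · simpa only [Finset.sum_apply, map_sum, map_mul, mulVec, dotProduct, map_apply] using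
      congrArg φ (congrFun (h.1 e j).2 a)

omit [Fintype J] in
theorem Good.contains {A : Type} [CommRing A] [Infinite (Fin r × (J → Fin d → A))]
    {M : L → J → Matrix (Fin d) (Fin d) A} {x : F → Fin r → V} {l : F → L} {col : V → Fin r}
    {w : V → J → Fin d → A} (h : Good S T M x l col w) (h1 : ∀ e c, col (x e c) = c)
    (h2 : ∀ e v, v ∈ e.1 ↔ v = x e (col v)) : Contains (host S T M) F := by
  obtain ⟨f⟩ : Nonempty (V ↪ Fin r × (J → Fin d → A)) :=
    ⟨(Fintype.equivFin V).toEmbedding.trans (Fin.valEmbedding.trans (Infinite.natEmbedding _))⟩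
  obtain ⟨τ, hτ⟩ := Equiv.Perm.exists_extending_pair (α := {v // ∃ e ∈ F, v ∈ e})
    (fun v => f v) (fun v => (col v, w v)) (f.injective.comp Subtype.val_injective)
    fun v v' k => Subtype.ext (h.2 _ _ v.2 v'.2 (congrArg Prod.fst k) (congrArg Prod.snd k))
  refine ⟨f.trans τ.toEmbedding, fun e he =>
    ⟨l ⟨e, he⟩, fun c => w (x ⟨e, he⟩ c), fun v => ?_, h.1 ⟨e, he⟩⟩⟩
  rw [mem_map]
  constructor
  · rintro ⟨a, ha, rfl⟩
    have k : (f.trans τ.toEmbedding) a = (col a, w a) := hτ ⟨a, e, he, ha⟩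
    rw [k]
    exact congrArg w ((h2 ⟨e, he⟩ a).1 ha)
  · intro k
    have ha : x ⟨e, he⟩ v.1 ∈ e := (h2 ⟨e, he⟩ _).2 (by rw [h1])
    refine ⟨_, ha, (hτ ⟨_, e, he, ha⟩).trans (Prod.ext (h1 _ _) k.symm)⟩

omit [Fintype J] [Fintype V] in
/-- A copy of `F` in a host gives a pattern with at most `k` labels and its solution. -/
theorem exists_good {A : Type} [CommRing A] [Fintype L] {M : L → J → Matrix (Fin d) (Fin d) A}
    {k : ℕ} (hk : F.card ≤ k) (hL : k ≤ Fintype.card L) (f : V → Fin r × (J → Fin d → A))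
    (hf : ∀ v v', (∃ e ∈ F, v ∈ e) → (∃ e ∈ F, v' ∈ e) → f v = f v' → v = v')
    (h : ∀ e ∈ F, ∃ s ∈ host S T M, ∀ y, y ∈ s ↔ ∃ v ∈ e, f v = y) :
    ∃ (ι : Fin k ↪ L) (x : F → Fin r → V) (l : F → Fin k) (col : V → Fin r),
      (∀ e c, col (x e c) = c) ∧ (∀ e v, v ∈ e.1 ↔ v = x e (col v)) ∧
        ∃ w, Good S T (fun i => M (ι i)) x l col w := by
  classical
  have h' : ∀ e : F, ∃ (i : L) (y : Fin r → J → Fin d → A),
      (∀ z : Fin r × (J → Fin d → A), (∃ v ∈ e.1, f v = z) ↔ z.2 = y z.1) ∧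
      ∀ j, ∑ c ∈ T j, y c j ≠ 0 ∧ ∑ c ∈ S j, y c j = M i j *ᵥ ∑ c ∈ T j, y c j := fun e => by
    obtain ⟨s, ⟨i, y, h1, h2⟩, h3⟩ := h e.1 e.2
    exact ⟨i, y, fun z => (h3 z).symm.trans (h1 z), h2⟩
  choose l y h1 h2 using h'
  choose x h3 h4 using fun (e : F) c => (h1 e (c, y e c)).2 rfl
  obtain ⟨s, hs, hs'⟩ := exists_superset_card_eq (s := univ.image l) (n := k)
    (card_image_le.trans (by simpa using hk)) hL
  let ι : Fin k ≃ s := (s.equivFinOfCardEq hs').symm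
  refine ⟨ι.toEmbedding.trans (Function.Embedding.subtype _), x,
    fun e => ι.symm ⟨l e, hs (mem_image_of_mem _ (mem_univ e))⟩, fun v => (f v).1,
    fun e c => congrArg Prod.fst (h4 e c), fun e v => ⟨fun k => ?_, fun k => k ▸ h3 e _⟩, fun v => (f v).2,
    fun e j => ?_, fun v v' a b c k => hf v v' a b (Prod.ext c k)⟩
  · refine hf _ _ ⟨_, e.2, k⟩ ⟨_, e.2, h3 e _⟩ ?_
    rw [h4]
    exact Prod.ext rfl ((h1 e _).1 ⟨v, k, rfl⟩)
  · simpa [h4] using h2 e j

end Pool.Agent.Lib.MP_5a6238_co.Host
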