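import Pool.Agent.Lib.MP_5a6238_co.HostB

/-! One polynomial condition on the labels that keeps the host free of `F`. -/

set_option autoImplicit false

namespace Pool.Agent.Lib.MP_5a6238_co.Host

open Finset Matrix MvPolynomial

variable {r d : ℕ} {J V σ : Type} [Fintype J] [Fintype V] (S T : J → Finset (Fin r))
  {F : Finset (Finset V)}

theorem map_nat {R A : Type} [CommRing R] [CommRing A] [Algebra ℤ R] [Algebra ℤ A] (ψ : R →+* A)
    (u : σ → R) (Q : Matrix (Fin d) (Fin d) (MvPolynomial σ ℤ)) :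
    (Q.map (aeval u)).map ψ = Q.map (aeval fun s => ψ (u s)) := by
  ext a b
  rw [map_apply, map_apply, map_apply, map_aeval, RingHom.ext_int (ψ.comp _) (algebraMap ℤ A)]
  rfl

theorem transfer {p k : ℕ} {K : Type} [Field K] [Algebra (ZMod p) K] [Nonempty σ]
    [Nonempty (Fin r)] [Nonempty (Fin d)]
    (P : J → Matrix (Fin d) (Fin d) (MvPolynomial σ ℤ)) (t : ℕ → σ → K)
    (ht : AlgebraicIndependent (ZMod p) fun a : ℕ × σ => t a.1 a.2) (j₀ : J)
    (hP : ((P j₀).map (aeval (t 0)) - (P j₀).map (aeval (t 1))).det ≠ 0)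
    (hF : ¬Contains (host S T fun i j => (P j).map (aeval (t i))) F) :
    ∃ c : MvPolynomial (Fin (k + 2) × σ) (ZMod p), c ≠ 0 ∧ ∀ (A : Type) [Field A]
      (φ : ZMod p →+* A) (τ : Fin (k + 2) × σ → A), eval₂Hom φ τ c ≠ 0 →
      ((P j₀).map (aeval fun s => τ (0, s)) - (P j₀).map (aeval fun s => τ (1, s))).det ≠ 0 ∧
      ∀ (x : F → Fin r → V) (l : F → Fin (k + 2)) (col : V → Fin r), (∀ e c, col (x e c) = c) →
        (∀ e v, v ∈ e.1 ↔ v = x e (col v)) →
        ∀ w, ¬Good S T (fun i j => (P j).map (aeval fun s => τ (i, s))) x l col w := by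
  classical
  have : IsDomain (ZMod p) := ht.algebraMap_injective.isDomain _
  let R := MvPolynomial (Fin (k + 2) × σ) (ZMod p)
  let G : Fin (k + 2) → J → Matrix (Fin d) (Fin d) R := fun i j =>
    (P j).map (aeval fun s => X (i, s))
  let θ : R →+* K := (aeval fun a : Fin (k + 2) × σ => t a.1 a.2).toRingHom
  have hθ : Function.Injective θ :=
    ht.comp (Prod.map Fin.val id) (Fin.val_injective.prodMap Function.injective_id)
  have hX : ∀ a, θ (X a) = t a.1 a.2 := fun a => aeval_X _ a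
  have hG : ∀ i j, (G i j).map θ = (P j).map (aeval (t i)) := fun i j =>
    (map_nat θ _ _).trans (by simp only [hX])
  have : Infinite K := Infinite.of_injective θ hθ
  have : Nonempty J := ⟨j₀⟩
  have key : ∀ π : (F → Fin r → V) × (F → Fin (k + 2)) × (V → Fin r), ∃ c : R, c ≠ 0 ∧
      ((∀ e c, π.2.2 (π.1 e c) = c) → (∀ e v, v ∈ e.1 ↔ v = π.1 e (π.2.2 v)) →
        ∀ (A : Type) [Field A] (ψ : R →+* A), ψ c ≠ 0 →
          ∀ w, ¬Good S T (fun i j => (G i j).map ψ) π.1 π.2.1 π.2.2 w) := by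
    rintro ⟨x, l, col⟩
    by_cases h : (∀ e c, col (x e c) = c) ∧ ∀ e v, v ∈ e.1 ↔ v = x e (col v)
    · obtain ⟨c, hc, h1⟩ := good_cover S T G x l col fun w hw => by
        have h2 := hw.map S T (IsFractionRing.lift hθ : FractionRing R →+* K)
        simp only [Matrix.map_map, Function.comp_def, IsFractionRing.lift_algebraMap, hG] at h2
        exact hF (Good.contains S T (l := fun e => (l e : ℕ)) ⟨h2.1, h2.2⟩ h.1 h.2)
      exact ⟨c, hc, fun _ _ => h1⟩
    · exact ⟨1, one_ne_zero, fun h1 h2 => absurd ⟨h1, h2⟩ h⟩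
  choose c hc h using key
  have hd : ∀ (A : Type) [CommRing A] (ψ : R →+* A), ψ (G 0 j₀ - G 1 j₀).det =
      ((G 0 j₀).map ψ - (G 1 j₀).map ψ).det := fun A _ ψ => by
    rw [RingHom.map_det, RingHom.mapMatrix_apply, Matrix.map_sub _ (map_sub ψ)]
  refine ⟨(G 0 j₀ - G 1 j₀).det * ∏ π, c π, mul_ne_zero (fun h0 => hP ?_)
    (prod_ne_zero_iff.2 fun π _ => hc π), fun A _ φ τ h0 => ?_⟩
  · have := hd K θ
    rw [h0, map_zero, hG, hG] at this
    simpa using this.symm
  · have hG' : ∀ i j, (G i j).map (eval₂Hom φ τ) = (P j).map (aeval fun s => τ (i, s)) :=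
      fun i j => (map_nat (eval₂Hom φ τ) _ _).trans (by simp)
    rw [map_mul, map_prod, mul_ne_zero_iff, prod_ne_zero_iff, hd, hG', hG'] at h0
    refine ⟨h0.1, fun x l col h1 h2 w => ?_⟩
    simpa only [hG'] using h (x, l, col) h1 h2 A _ (h0.2 _ (mem_univ _)) w

theorem labels {A : Type} [Field A] [Fintype A] [Fintype σ] {k D : ℕ}
    (c : MvPolynomial (Fin k × σ) A) (hc : c ≠ 0) (hD : D ^ k * c.totalDegree < Fintype.card A) :
    ∃ τ : Fin D × σ → A, ∀ ι : Fin k ↪ Fin D, eval (fun a => τ (ι a.1, a.2)) c ≠ 0 := by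
  classical
  let Q : MvPolynomial (Fin D × σ) A := ∏ ι : Fin k ↪ Fin D, rename (Prod.map ι id) c
  have hQ : Q ≠ 0 := prod_ne_zero_iff.2 fun ι _ h => hc
    (rename_injective _ (ι.injective.prodMap Function.injective_id) (h.trans (map_zero _).symm))
  have h1 : Q.totalDegree ≤ D ^ k * c.totalDegree := by
    refine (totalDegree_finsetProd _ _).trans ((sum_le_card_nsmul _ _ _ fun ι _ =>
      totalDegree_rename_le _ _).trans (Nat.mul_le_mul_right _ ?_))
    simpa using Fintype.card_le_of_injective (fun ι : Fin k ↪ Fin D => (ι : Fin k → Fin D))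
      DFunLike.coe_injective
  by_contra! h
  refine hQ (eq_zero_of_eval_zero_at_prod_finset Q (fun _ => univ)
    (fun i => ((degreeOf_le_totalDegree _ _).trans h1).trans_lt hD) fun τ _ => ?_)
  obtain ⟨ι, hι⟩ := h τ
  rw [map_prod]
  exact prod_eq_zero (mem_univ ι) (by rw [eval_rename]; exact hι)

theorem fields {p : ℕ} [IsDomain (ZMod p)] (a : ZMod p) (ha : a ≠ 0) :
    ∃ C : ℕ, ∀ N, 0 < N → ∃ (A : Type) (_ : Field A) (_ : Fintype A) (φ : ZMod p →+* A),
      φ a ≠ 0 ∧ N < Fintype.card A ∧ Fintype.card A ≤ C * N := by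
  rcases CharP.char_is_prime_or_zero (ZMod p) p with hp | rfl
  · have := Fact.mk hp
    refine ⟨p, fun N hN => ?_⟩
    have := Fintype.ofFinite (GaloisField p (Nat.log p N + 1))
    refine ⟨GaloisField p (Nat.log p N + 1), inferInstance, this, algebraMap _ _,
      (map_ne_zero _).2 ha, ?_⟩
    rw [← Nat.card_eq_fintype_card, GaloisField.card p _ (Nat.succ_ne_zero _)]
    exact ⟨Nat.lt_pow_succ_log_self hp.one_lt N,
      pow_succ' p _ ▸ Nat.mul_le_mul_left _ (Nat.pow_log_le_self p hN.ne')⟩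
  · have h0 : 0 < Int.natAbs a := Int.natAbs_pos.2 ha
    refine ⟨2 * Int.natAbs a, fun N hN => ?_⟩
    obtain ⟨q, hq, h1, h2⟩ := Nat.exists_prime_lt_and_le_two_mul (Int.natAbs a * N)
      (Nat.mul_pos h0 hN).ne'
    have := Fact.mk hq
    refine ⟨ZMod q, inferInstance, inferInstance, Int.castRingHom _, fun h => ?_, ?_⟩
    · have h3 := Int.natAbs_le_of_dvd_ne_zero ((ZMod.intCast_zmod_eq_zero_iff_dvd a q).1 h) ha
      rw [Int.natAbs_natCast] at h3
      exact absurd (h3.trans (Nat.le_mul_of_pos_right _ hN)) h1.not_ge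
    · rw [ZMod.card]
      exact ⟨(Nat.le_mul_of_pos_left _ h0).trans_lt h1, h2.trans_eq (mul_assoc _ _ _).symm⟩

end Pool.Agent.Lib.MP_5a6238_co.Host
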