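import Pool.Agent.Lib.MP_5a6238_co.HostD

/-! A host with free labels, and the potentials in the free group that it forces. -/

set_option autoImplicit false

namespace Pool.Agent.Lib.MP_5a6238_co.Host

open Finset Matrix MvPolynomial

/-- A labelled bipartite graph in which every vertex has at most one lower neighbour. -/
theorem exists_potential {A B Γ : Type} [LinearOrder Γ] (R : A → B → ℕ → Prop) (f : A → Γ)
    (g : B → Γ) (h1 : ∀ a b l b' l', R a b l → R a b' l' → g b ≤ f a → g b' ≤ f a → b = b' ∧ l = l')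
    (h2 : ∀ b a l a' l', R a b l → R a' b l' → f a ≤ g b → f a' ≤ g b → a = a' ∧ l = l')
    (E : Finset (A × B × ℕ)) : (∀ q ∈ E, R q.1 q.2.1 q.2.2) →
    ∃ (φ : A → FreeGroup ℕ) (ψ : B → FreeGroup ℕ),
      ∀ q ∈ E, φ q.1 = FreeGroup.of q.2.2 * ψ q.2.1 := by
  classical
  induction E using induction_on_max_value fun q : A × B × ℕ => max (f q.1) (g q.2.1) with
  | empty => exact fun _ => ⟨1, 1, by simp⟩
  | insert q E _ hq ih =>
    intro h
    obtain ⟨φ, ψ, ih⟩ := ih fun x hx => h x (mem_insert_of_mem hx)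
    have h0 := h q (mem_insert_self _ _)
    rcases le_total (g q.2.1) (f q.1) with k | k
    · refine ⟨Function.update φ q.1 (FreeGroup.of q.2.2 * ψ q.2.1), ψ,
        forall_mem_insert _ _ _ |>.2 ⟨Function.update_self .., fun x hx => ?_⟩⟩
      by_cases e : x.1 = q.1
      · obtain ⟨e1, e2⟩ := h1 _ _ _ _ _ h0 (e ▸ h x (mem_insert_of_mem hx)) k
          ((le_max_right _ _).trans ((hq x hx).trans_eq (max_eq_left k)))
        rw [e, Function.update_self, e1, e2]
      · rw [Function.update_of_ne e, ih x hx]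
    · refine ⟨φ, Function.update ψ q.2.1 ((FreeGroup.of q.2.2)⁻¹ * φ q.1),
        forall_mem_insert _ _ _ |>.2 ⟨by simp, fun x hx => ?_⟩⟩
      by_cases e : x.2.1 = q.2.1
      · obtain ⟨e1, e2⟩ := h2 _ _ _ _ _ h0 (e ▸ h x (mem_insert_of_mem hx)) k
          ((le_max_left _ _).trans ((hq x hx).trans_eq (max_eq_right k)))
        rw [e, Function.update_self, e1, e2, mul_inv_cancel_left]
      · rw [Function.update_of_ne e, ih x hx]

theorem exists_labels : ∃ (K : Type) (_ : Field K) (_ : Algebra (ZMod 2) K)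
    (v : Valuation K (WithZero (Multiplicative ℤ))) (t : ℕ → K),
    (AlgebraicIndependent (ZMod 2) fun a : ℕ × Unit => t a.1) ∧ ∀ i j, i ≠ j → 1 < v (t i - t j) := by
  classical
  let k := FractionRing (MvPolynomial (ℕ × Unit) (ZMod 2))
  let s : ℕ × Unit → k := IsScalarTower.toAlgHom (ZMod 2) (MvPolynomial (ℕ × Unit) (ZMod 2)) k ∘ X
  have hs : AlgebraicIndependent (ZMod 2) s :=
    (algebraicIndependent_X _ _).map' (IsFractionRing.injective _ k)
  have h1 : AlgebraicIndependent (ZMod 2) fun a => Polynomial.X * Polynomial.C (s a) :=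
    .of_comp ((Polynomial.aeval (1 : k)).restrictScalars _) (by simpa [Function.comp_def] using hs)
  refine ⟨RatFunc k, inferInstance, inferInstance, RatFunc.inftyValuation k,
    fun i => RatFunc.C (s (i, ())) * RatFunc.X, ?_, fun i j h => ?_⟩
  · simpa [Function.comp_def] using h1.map'
      (f := IsScalarTower.toAlgHom (ZMod 2) (Polynomial k) (RatFunc k))
      (IsFractionRing.injective _ _)
  · rw [← sub_mul, ← map_sub, map_mul, RatFunc.inftyValuation.X, RatFunc.inftyValuation.C _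
      (sub_ne_zero.2 fun e => h (congrArg Prod.fst (hs.injective e))), one_mul]
    exact WithZero.exp_lt_exp.2 (zero_lt_one' ℤ)

theorem val_key {K Γ : Type} [Field K] [LinearOrderedCommGroupWithZero Γ] (v : Valuation K Γ)
    {a b c s : K} (hs : 1 < v s) (h : a - b = s * c) (ha : v a ≤ v c) (hb : v b ≤ v c) :
    a = 0 ∧ c = 0 := by
  have hc : v c = 0 := by_contra fun h0 => by
    have := v.map_sub_le ha hb
    rw [h, map_mul] at this
    exact this.not_gt (lt_mul_of_one_lt_left (zero_lt_iff.2 h0) hs)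
  exact ⟨v.zero_iff.1 (le_zero_iff.1 (hc ▸ ha)), v.zero_iff.1 hc⟩

theorem potential {r : ℕ} (hr : 2 ≤ r) {V : Type} [Fintype V] [DecidableEq V]
    (F : Finset (Finset V))
    (hF : ¬∃ (col : V → Fin r) (l : Finset V → ℕ) (φ ψ : Finset V → FreeGroup ℕ),
      (∀ e ∈ F, Set.BijOn col e Set.univ) ∧ (∀ e ∈ F, ∀ e' ∈ F, #(e \ e') = 1 → l e ≠ l e') ∧
      ∀ e ∈ F, ∀ A ⊂ e, A.Nonempty → φ A = FreeGroup.of (l e) * ψ (e \ A)) :
    ∃ ε : ℝ, 0 < ε ∧ ∃ n₀ : ℕ, ∀ n ≥ n₀, (n : ℝ) ^ ((r : ℝ) - 1 + ε) ≤ ex r n F := by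
  classical
  obtain ⟨K, _, _, v, t, ht, hv⟩ := exists_labels
  let J := {s : Finset (Fin r) // s.Nonempty ∧ sᶜ.Nonempty}
  let Q : Matrix (Fin 2) (Fin 2) (MvPolynomial Unit ℤ) := !![1 + X () * X (), X (); X (), 1]
  let M : ℕ → Matrix (Fin 2) (Fin 2) K := fun i => Q.map (aeval fun _ => t i)
  have hM : ∀ i p, M i *ᵥ p = ![p 0 + t i * (p 1 + t i * p 0), p 1 + t i * p 0] := fun i p => by
    ext a
    fin_cases a <;> simp [M, Q, mulVec, dotProduct] <;> ring
  have hM' : ∀ i p p', M i *ᵥ p = M i *ᵥ p' → p = p' := fun i p p' h => by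
    rw [hM, hM] at h
    have h0 : p 0 + t i * (p 1 + t i * p 0) = p' 0 + t i * (p' 1 + t i * p' 0) := congrFun h 0
    have h1 : p 1 + t i * p 0 = p' 1 + t i * p' 0 := congrFun h 1
    rw [h1, add_left_inj] at h0
    rw [h0, add_left_inj] at h1
    ext a
    fin_cases a
    exacts [h0, h1]
  refine main (J := J) (p := 2) (fun j => j.1) (fun j => j.1ᶜ) two_pos (fun j => j.2.1)
    (fun j => j.2.2) (fun j => disjoint_compl_right) (fun _ => Q) (fun i _ => t i) ht
    ⟨⟨{⟨1, hr⟩}, singleton_nonempty _, ⟨0, by omega⟩, by simp [Fin.ext_iff]⟩, fun h => ?_⟩ fun ⟨f, hf⟩ => hF ?_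
  · have h1 : t 0 - t 1 = 0 := by simpa [det_fin_two, Q] using h
    simpa [h1] using hv 0 1 zero_ne_one
  choose! l x h1 h2 using hf
  have h3 : ∀ e ∈ F, ∀ a ∈ e, f a = ((f a).1, x e (f a).1) := fun e he a ha =>
    Prod.ext rfl ((h1 e he _).1 (mem_map_of_mem _ ha))
  have h4 : ∀ e ∈ F, Set.BijOn (fun a => (f a).1) e Set.univ := fun e he =>
    ⟨Set.mapsTo_univ _ _, fun a ha b hb h => f.injective (by
      rw [h3 e he a ha, h3 e he b hb, show (f a).1 = (f b).1 from h]), fun c _ => by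
      obtain ⟨a, ha, h⟩ := mem_map.1 ((h1 e he (c, x e c)).2 rfl)
      exact ⟨a, ha, congrArg Prod.fst h⟩⟩
  obtain ⟨φ, ψ, h⟩ := exists_potential (A := J × (Fin 2 → K)) (B := J × (Fin 2 → K))
    (fun u p i => u.1 = p.1 ∧ p.2 ≠ 0 ∧ u.2 = M i *ᵥ p.2) (fun u => v (u.2 1)) (fun p => v (p.2 0))
    (fun u p i p' i' ⟨a, b, c⟩ ⟨a', b', c'⟩ k k' => by
      by_cases e : i = i'
      · exact ⟨Prod.ext (a.symm.trans a') (hM' i _ _ (by rw [← c, c', e])), e⟩
      rw [hM] at c c'
      have c0 := congrFun c 0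
      have c1 := congrFun c 1
      have c0' := congrFun c' 0
      have c1' := congrFun c' 1
      simp only [cons_val_zero, cons_val_one] at c0 c1 c0' c1'
      obtain ⟨e1, e2⟩ := val_key v (hv i' i (Ne.symm e))
        (by linear_combination c0' - c0 - t i' * c1' + t i * c1) k k'
      exact absurd (_root_.funext (Fin.forall_fin_two.2 ⟨e1, by simpa [e1, e2] using c1.symm⟩)) b)
    (fun p u i u' i' ⟨a, b, c⟩ ⟨a', b', c'⟩ k k' => by
      by_cases e : i = i'
      · exact ⟨Prod.ext (a.trans a'.symm) (by rw [c, c', e]), e⟩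
      rw [hM] at c c'
      have c1 := congrFun c 1
      have c1' := congrFun c' 1
      simp only [cons_val_zero, cons_val_one] at c1 c1'
      obtain ⟨e1, e2⟩ := val_key v (hv i i' e) (by linear_combination c1 - c1') k k'
      exact absurd (_root_.funext (Fin.forall_fin_two.2 ⟨e2, by simpa [e1, e2] using c1.symm⟩)) b)
    ((F ×ˢ univ).image fun q : Finset V × J =>
      ((q.2, ∑ c ∈ q.2.1, x q.1 c q.2), (q.2, ∑ c ∈ q.2.1ᶜ, x q.1 c q.2), l q.1))
    (forall_mem_image.2 fun q hq => ⟨rfl, h2 q.1 (mem_product.1 hq).1 q.2⟩)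
  let c : Finset V → Finset (Fin r) := image fun a => (f a).1
  have h5 : ∀ e ∈ F, ∀ A ⊆ e, ∀ j, ∑ a ∈ A, (f a).2 j = ∑ c ∈ c A, x e c j := fun e he A hA j => by
    rw [sum_image ((h4 e he).injOn.mono hA)]
    exact sum_congr rfl fun a ha => congrFun (congrArg Prod.snd (h3 e he a (hA ha))) j
  refine ⟨fun a => (f a).1, l,
    fun A => if k : (c A).Nonempty ∧ (c A)ᶜ.Nonempty then φ (⟨_, k⟩, ∑ a ∈ A, (f a).2 ⟨_, k⟩) else 1,
    fun A => if k : (c A)ᶜ.Nonempty ∧ (c A)ᶜᶜ.Nonempty then ψ (⟨_, k⟩, ∑ a ∈ A, (f a).2 ⟨_, k⟩)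
      else 1, h4, fun e he e' he' k k' => ?_, fun e he A hA hA' => ?_⟩
  · obtain ⟨a, ha⟩ := card_eq_one.1 k
    have ha' := mem_sdiff.1 (ha ▸ mem_singleton_self a)
    have h6 : ∀ b, b ≠ (f a).1 → x e b = x e' b := fun b hb => by
      obtain ⟨y, hy, rfl⟩ := (h4 e he).surjOn (Set.mem_univ b)
      have : y ∈ e' := by_contra fun k => hb (by
        rw [show y = a from mem_singleton.1 (ha ▸ mem_sdiff.2 ⟨hy, k⟩)])
      exact congrArg Prod.snd ((h3 e he y hy).symm.trans (h3 e' he' y this))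
    have h7 : ∀ j s, (f a).1 ∉ s → ∑ b ∈ s, x e b j = ∑ b ∈ s, x e' b j := fun j s k =>
      sum_congr rfl fun b hb => by rw [h6 b fun e => k (e ▸ hb)]
    have h8 : ∀ j s, (f a).1 ∈ s → ∑ b ∈ s, x e b j = ∑ b ∈ s, x e' b j →
        x e (f a).1 j = x e' (f a).1 j := fun j s k k' => by
      rwa [← add_sum_erase _ _ k, ← add_sum_erase _ _ k, h7 j _ (notMem_erase _ _),
        add_left_inj] at k'
    refine ha'.2 ((mem_map' f).1 ((h1 e' he' _).2 ((congrArg Prod.snd (h3 e he a ha'.1)).trans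
      (funext fun j => ?_))))
    by_cases m : (f a).1 ∈ j.1
    · exact h8 j _ m (by rw [(h2 e he j).2, (h2 e' he' j).2, k', h7 j _ (notMem_compl.2 m)])
    · refine h8 j _ (mem_compl.2 m) (hM' (l e) _ _ ?_)
      exact (h2 e he j).2.symm.trans ((h7 j _ m).trans (k' ▸ (h2 e' he' j).2))
  · have h6 : c (e \ A) = (c A)ᶜ := by
      rw [compl_eq_univ_sdiff, ← coe_eq_univ.1 ((coe_image).trans (h4 e he).image_eq)]
      exact image_sdiff_of_injOn (h4 e he).injOn hA.subset
    have h7 : (c A).Nonempty ∧ (c A)ᶜ.Nonempty :=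
      ⟨hA'.image _, h6 ▸ (sdiff_nonempty.2 hA.not_subset).image _⟩
    have := h _ (mem_image_of_mem _ (mk_mem_product he (mem_univ (⟨_, h7⟩ : J))))
    simp only [h5 e he A hA.subset, h5 e he _ sdiff_subset, h6, compl_compl, h7, and_self,
      dite_true]
    exact this

end Pool.Agent.Lib.MP_5a6238_co.Host
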