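import Mathlib
import Pool.Agent.Lib.MP_5a6238_co.Av

-- part Pool.Agent.Lib.MP_5a6238_co.Clique
section

set_option autoImplicit false

namespace Pool.Agent.Lib.MP_5a6238_co

open Finset Real
open scoped symmDiff

variable {r : ℕ}

/-- Walsh characters. -/
def chi (S : Finset (Fin r)) (ω : Fin r → Bool) : ℝ := ∏ l ∈ S, sg (ω l)

lemma chi_eq (S : Finset (Fin r)) (ω : Fin r → Bool) :
    chi S ω = ∏ l, if l ∈ S then sg (ω l) else 1 := by
  unfold chi; rw [prod_ite_mem, univ_inter]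

lemma chi_mul (S T : Finset (Fin r)) (ω : Fin r → Bool) : chi S ω * chi T ω = chi (S ∆ T) ω := by
  simp only [chi_eq, ← prod_mul_distrib]
  refine prod_congr rfl fun l _ => ?_
  by_cases h1 : l ∈ S <;> by_cases h2 : l ∈ T <;> simp [mem_symmDiff, h1, h2, sg_sq]

lemma av_chi (S : Finset (Fin r)) : av (chi S) = if S = ∅ then 1 else 0 := by
  have : chi S = fun ω => ∏ l, (fun l b => if l ∈ S then sg b else 1) l (ω l) := by
    funext ω; exact chi_eq S ω
  rw [this, av_pi fun l b => if l ∈ S then sg b else 1]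
  split_ifs with h
  · simp [h, av_const]
  · obtain ⟨l, hl⟩ := nonempty_iff_ne_empty.2 h
    refine prod_eq_zero (mem_univ l) ?_
    simp [hl, av_bool, sg]

lemma abs_chi (S : Finset (Fin r)) (ω : Fin r → Bool) : |chi S ω| = 1 := by
  unfold chi; rw [abs_prod]; simp [abs_sg]

/-- The sum of all pair products. -/
def Y (ω : Fin r → Bool) : ℝ := ∑ S ∈ powersetCard 2 univ, chi S ω

lemma abs_Y (ω : Fin r → Bool) : |Y ω| ≤ r.choose 2 := by
  refine le_trans (abs_sum_le_sum_abs _ _) ?_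
  simp [abs_chi]

lemma av_Y : av (Y (r := r)) = 0 := by
  unfold Y
  rw [av_sum]
  refine sum_eq_zero fun S hS => ?_
  rw [av_chi, if_neg]
  rintro rfl
  simp at hS

lemma av_Y_chi {T : Finset (Fin r)} (hT : T ∈ powersetCard 2 univ) :
    av (fun ω => Y ω * chi T ω) = 1 := by
  unfold Y
  simp only [sum_mul, chi_mul]
  rw [av_sum]
  simp only [av_chi, ← bot_eq_empty, symmDiff_eq_bot]
  rw [sum_ite_eq', if_pos hT]

lemma av_Y_sq : av (fun ω : Fin r → Bool => Y ω ^ 2) = r.choose 2 := by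
  have : (fun ω : Fin r → Bool => Y ω ^ 2)
      = fun ω => ∑ S ∈ powersetCard 2 univ, Y ω * chi S ω := by
    funext ω; rw [← mul_sum, sq]; rfl
  rw [this, av_sum, sum_congr rfl fun S hS => av_Y_chi hS]
  simp

lemma av_Y_cube (hr : 3 ≤ r) : 1 ≤ av (fun ω : Fin r → Bool => Y ω ^ 3) := by
  have : (fun ω : Fin r → Bool => Y ω ^ 3)
      = fun ω => ∑ z ∈ (powersetCard 2 univ ×ˢ powersetCard 2 univ) ×ˢ powersetCard 2 univ,
        chi ((z.1.1 ∆ z.1.2) ∆ z.2) ω := by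
    funext ω
    simp only [sum_product, ← chi_mul, ← mul_sum, ← sum_mul]
    unfold Y; ring
  rw [this, av_sum]
  let a : Fin r := ⟨0, by omega⟩
  let b : Fin r := ⟨1, by omega⟩
  let c : Fin r := ⟨2, by omega⟩
  have hab : a ≠ b := by simp [a, b]
  have hac : a ≠ c := by simp [a, c]
  have hbc : b ≠ c := by simp [b, c]
  have hm : ((({a, b} : Finset (Fin r)), ({a, c} : Finset (Fin r))), ({b, c} : Finset (Fin r)))
      ∈ (powersetCard 2 univ ×ˢ powersetCard 2 univ) ×ˢ powersetCard 2 univ := by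
    simp [card_pair hab, card_pair hac, card_pair hbc]
  refine le_trans (le_of_eq ?_) (single_le_sum
    (f := fun z : (Finset (Fin r) × Finset (Fin r)) × Finset (Fin r) =>
      av (chi ((z.1.1 ∆ z.1.2) ∆ z.2))) (fun z _ => by rw [av_chi]; split_ifs <;> norm_num) hm)
  rw [av_chi, if_pos]
  ext l
  simp only [mem_symmDiff, mem_insert, mem_singleton, notMem_empty, iff_false]
  by_cases h1 : l = a
  · subst h1; simp [hab, hac]
  by_cases h2 : l = b
  · subst h2; simp [h1, hbc]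
  by_cases h3 : l = c
  · subst h3; simp [h1, h2]
  · simp [h1, h2, h3]

lemma xlog_le {x : ℝ} (hx : |x| ≤ 1 / 2) :
    (1 + x) * log (1 + x) ≤ x + x ^ 2 / 2 - x ^ 3 / 6 + 4 * x ^ 4 := by
  have h := abs_log_sub_add_sum_range_le (x := -x) (by rw [abs_neg]; linarith) 3
  simp only [sum_range_succ, sum_range_zero, abs_neg, sub_neg_eq_add] at h
  have h1 : |x| ^ (3 + 1) / (1 - |x|) ≤ 2 * x ^ 4 := by
    rw [div_le_iff₀ (by linarith)]
    have : |x| ^ (3 + 1) = x ^ 4 := by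
      rw [show 3 + 1 = 2 * 2 from rfl, pow_mul, sq_abs]; ring
    rw [this]
    nlinarith [pow_nonneg (sq_nonneg x) 2]
  have h2 := (abs_le.1 (le_trans h h1)).2
  have h3 : log (1 + x) ≤ x - x ^ 2 / 2 + x ^ 3 / 3 + 2 * x ^ 4 := by
    norm_num at h2
    linarith
  obtain ⟨h4, h5⟩ := abs_le.1 hx
  have h6 := mul_le_mul_of_nonneg_left h3 (show 0 ≤ 1 + x by linarith)
  have h7 : 0 ≤ x ^ 4 := by positivity
  nlinarith

lemma abs_log_le {x : ℝ} (hx : |x| ≤ 1 / 2) : |log (1 + x)| ≤ 1 := by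
  obtain ⟨h4, h5⟩ := abs_le.1 hx
  have h0 : 0 < 1 + x := by linarith
  have h1 := log_le_sub_one_of_pos h0
  have h2 := one_sub_inv_le_log_of_pos h0
  have h3 : (1 + x)⁻¹ ≤ 2 := by rw [inv_le_comm₀ h0 (by norm_num)]; linarith
  rw [abs_le]; constructor <;> linarith

/-- Inner product of sign vectors. -/
def ip {D : ℕ} (x y : Fin D → Bool) : ℝ := ∑ i, sg (x i) * sg (y i)

open Classical in
lemma clique_prob (hr : 3 ≤ r) {t η : ℝ} (ht : 0 ≤ t) (hts : t * r.choose 2 ≤ 1 / 2) (hη : 0 ≤ η)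
    (hη1 : η ≤ 1) (D : ℕ) (hD : ((r : ℝ) ^ 2 + 1) * exp (-(η ^ 2 / 16) * D) ≤ 1 / 2) :
    exp (-(r.choose 2 * t ^ 2 / 2 - t ^ 3 / 6 + 4 * (r.choose 2 : ℝ) ^ 4 * t ^ 4 + η) * D) / 2 ≤
      av (fun x : Fin r → Fin D → Bool =>
        if ∀ i j, i ≠ j → (t - η) * D ≤ ip (x i) (x j) then (1 : ℝ) else 0) := by
  obtain ⟨s, hs⟩ : ∃ s : ℝ, s = r.choose 2 := ⟨_, rfl⟩
  rw [← hs] at hts ⊢
  have hs1 : 1 ≤ s := by
    rw [hs]; exact_mod_cast Nat.choose_pos (by omega : 2 ≤ r)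
  have ht1 : t ≤ 1 / 2 := by nlinarith
  have htY : ∀ ω : Fin r → Bool, |t * Y ω| ≤ 1 / 2 := fun ω => by
    rw [abs_mul, abs_of_nonneg ht]
    have := abs_Y ω
    rw [← hs] at this
    nlinarith
  let w : (Fin r → Bool) → ℝ := fun ω => 1 + t * Y ω
  have hw0 : ∀ ω, 0 < w ω := fun ω => by
    have := (abs_le.1 (htY ω)).1
    simp only [w]; linarith
  have hw1 : av w = 1 := by
    simp only [w]; rw [av_add, av_mul_left, av_Y, av_const]; ring
  obtain ⟨K, hK⟩ : ∃ K, K = av fun ω => w ω * log (w ω) := ⟨_, rfl⟩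
  have hK1 : K ≤ s * t ^ 2 / 2 - t ^ 3 / 6 + 4 * s ^ 4 * t ^ 4 := by
    have h1 : ∀ ω, w ω * log (w ω) ≤ t * Y ω + t ^ 2 / 2 * Y ω ^ 2 - t ^ 3 / 6 * Y ω ^ 3
        + 4 * s ^ 4 * t ^ 4 := fun ω => by
      have a1 := xlog_le (htY ω)
      have a2 : Y ω ^ 4 ≤ s ^ 4 := by
        have : Y ω ^ 4 = |Y ω| ^ 4 := by
          rw [show 4 = 2 * 2 from rfl, pow_mul, pow_mul, sq_abs]
        rw [this, hs]
        exact pow_le_pow_left₀ (abs_nonneg _) (abs_Y ω) 4
      have a3 := mul_le_mul_of_nonneg_left a2 (show 0 ≤ 4 * t ^ 4 by positivity)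
      simp only [w]
      nlinarith
    rw [hK]
    refine le_trans (av_mono h1) ?_
    rw [av_add, av_sub, av_add, av_mul_left, av_mul_left, av_mul_left, av_Y, av_Y_sq, av_const, ← hs]
    have := mul_le_mul_of_nonneg_left (av_Y_cube hr) (show 0 ≤ t ^ 3 / 6 by positivity)
    linarith
  have hlog : ∀ ω, |log (w ω)| ≤ 1 := fun ω => abs_log_le (htY ω)
  have hK2 : |K| ≤ 1 := by
    rw [abs_le, hK]
    constructor
    · have : av (fun ω => -1 * w ω) ≤ av fun ω => w ω * log (w ω) :=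
        av_mono fun ω => by nlinarith [hw0 ω, (abs_le.1 (hlog ω)).1]
      rwa [av_mul_left, hw1, mul_one] at this
    · have : (av fun ω => w ω * log (w ω)) ≤ av w :=
        av_mono fun ω => by nlinarith [hw0 ω, (abs_le.1 (hlog ω)).2]
      rwa [hw1] at this
  have T1 := tilt_tail w (fun ω => log (w ω) - K) (fun ω => (hw0 ω).le) hw1
    (by simp only [mul_sub]; rw [av_sub, av_mul_right, hw1, ← hK]; ring)
    (fun ω => le_trans (abs_sub _ _) (by linarith [hlog ω])) hη hη1 D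
  have T2 : ∀ p : Fin r × Fin r, av (fun ω : Fin D → Fin r → Bool => (∏ l, w (ω l)) *
      if p.1 ≠ p.2 ∧ η * D ≤ ∑ l, (t - sg (ω l p.1) * sg (ω l p.2)) then 1 else 0)
      ≤ exp (-(η ^ 2 / 16) * D) := by
    rintro ⟨i, j⟩
    by_cases hij : i = j
    · simp only [hij, ne_eq, not_true, false_and, if_false, mul_zero]
      rw [av_const]; exact (exp_pos _).le
    · simp only [ne_eq, hij, not_false_iff, true_and]
      have e : ∀ ω : Fin r → Bool, sg (ω i) * sg (ω j) = chi {i, j} ω := fun ω => by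
        unfold chi; rw [prod_pair hij]
      refine tilt_tail w (fun ω => t - sg (ω i) * sg (ω j)) (fun ω => (hw0 ω).le) hw1 ?_
        (fun ω => ?_) hη hη1 D
      · have h1 : (fun ω => w ω * (t - sg (ω i) * sg (ω j)))
            = fun ω => t * w ω - (chi {i, j} ω + t * (Y ω * chi {i, j} ω)) := by
          funext ω; rw [e]; simp only [w]; ring
        rw [h1, av_sub, av_add, av_mul_left, av_mul_left, hw1, av_chi,
          av_Y_chi (by simp [card_pair hij]), if_neg (by simp)]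
        ring
      · refine le_trans (abs_sub _ _) ?_
        rw [e, abs_chi, abs_of_nonneg ht]; linarith
  rw [← av_equiv (Equiv.piComm fun (_ : Fin D) (_ : Fin r) => Bool)]
  have hpt : ∀ ω : Fin D → Fin r → Bool,
      exp (-(K + η) * D) * ((∏ l, w (ω l))
        - (∏ l, w (ω l)) * (if η * D ≤ ∑ l, (log (w (ω l)) - K) then 1 else 0)
        - ∑ p : Fin r × Fin r, (∏ l, w (ω l)) *
          if p.1 ≠ p.2 ∧ η * D ≤ ∑ l, (t - sg (ω l p.1) * sg (ω l p.2)) then 1 else 0)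
      ≤ if ∀ i j, i ≠ j → (t - η) * D ≤ ip (Equiv.piComm (fun (_ : Fin D) (_ : Fin r) => Bool) ω i)
          (Equiv.piComm (fun (_ : Fin D) (_ : Fin r) => Bool) ω j) then (1 : ℝ) else 0 := by
    intro ω
    have hW : 0 < ∏ l, w (ω l) := prod_pos fun l _ => hw0 _
    have hS : 0 ≤ ∑ p : Fin r × Fin r, (∏ l, w (ω l)) *
        if p.1 ≠ p.2 ∧ η * D ≤ ∑ l, (t - sg (ω l p.1) * sg (ω l p.2)) then 1 else 0 :=
      sum_nonneg fun p _ => mul_nonneg hW.le (by split_ifs <;> norm_num)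
    have hE := exp_pos (-(K + η) * D)
    by_cases h1 : η * D ≤ ∑ l, (log (w (ω l)) - K)
    · rw [if_pos h1]
      refine le_trans (mul_nonpos_of_nonneg_of_nonpos hE.le (by linarith)) ?_
      split_ifs <;> norm_num
    rw [if_neg h1]
    split_ifs with h2
    · have h3 : ∏ l, w (ω l) ≤ exp ((K + η) * D) := by
        rw [← exp_log hW, log_prod fun l _ => (hw0 _).ne']
        apply exp_le_exp.2
        rw [sum_sub_distrib] at h1
        simp only [sum_const, card_univ, Fintype.card_fin, nsmul_eq_mul] at h1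
        linarith
      have h4 : exp (-(K + η) * D) * exp ((K + η) * D) = 1 := by
        rw [← exp_add, ← add_mul, neg_add_cancel, zero_mul, exp_zero]
      nlinarith
    · push Not at h2
      obtain ⟨i, j, hij, h2⟩ := h2
      have h3 : (∏ l, w (ω l)) ≤ ∑ p : Fin r × Fin r, (∏ l, w (ω l)) *
          if p.1 ≠ p.2 ∧ η * D ≤ ∑ l, (t - sg (ω l p.1) * sg (ω l p.2)) then 1 else 0 := by
        refine le_trans (le_of_eq ?_) (single_le_sum (f := fun p : Fin r × Fin r =>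
          (∏ l, w (ω l)) * if p.1 ≠ p.2 ∧ η * D ≤ ∑ l, (t - sg (ω l p.1) * sg (ω l p.2))
            then 1 else 0)
          (fun p _ => mul_nonneg hW.le (by split_ifs <;> norm_num)) (mem_univ (i, j)))
        rw [if_pos, mul_one]
        refine ⟨hij, ?_⟩
        rw [sum_sub_distrib]
        simp only [sum_const, card_univ, Fintype.card_fin, nsmul_eq_mul]
        have : ip (Equiv.piComm (fun (_ : Fin D) (_ : Fin r) => Bool) ω i)
          (Equiv.piComm (fun (_ : Fin D) (_ : Fin r) => Bool) ω j)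
          = ∑ l, sg (ω l i) * sg (ω l j) := rfl
        rw [this] at h2
        linarith
      exact mul_nonpos_of_nonneg_of_nonpos hE.le (by linarith)
  refine le_trans ?_ (av_mono hpt)
  rw [av_mul_left, av_sub, av_sub, av_sum, av_pi fun _ x => w x]
  simp only [hw1, prod_const_one]
  have T3 := sum_le_sum fun p (_ : p ∈ (univ : Finset (Fin r × Fin r))) => T2 p
  simp only [sum_const, card_univ, Fintype.card_prod, Fintype.card_fin, nsmul_eq_mul] at T3
  push_cast at T3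
  have h5 : exp (-(s * t ^ 2 / 2 - t ^ 3 / 6 + 4 * s ^ 4 * t ^ 4 + η) * D) ≤ exp (-(K + η) * D) :=
    exp_le_exp.2 (mul_le_mul_of_nonneg_right (by linarith) (Nat.cast_nonneg D))
  have hE := exp_pos (-(K + η) * D)
  refine le_trans (show _ ≤ exp (-(K + η) * D) * (1 / 2) by linarith) ?_
  exact mul_le_mul_of_nonneg_left (by nlinarith) hE.le

end Pool.Agent.Lib.MP_5a6238_co
end

-- part Pool.Agent.Lib.MP_5a6238_co.Bad
section

set_option autoImplicit false

namespace Pool.Agent.Lib.MP_5a6238_co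

open Finset Real

/-- Squared length of the sum of a family of sign vectors. -/
def N {k D : ℕ} (a : Fin k → Fin D → Bool) : ℝ := ∑ i, (∑ j, sg (a j i)) ^ 2

lemma bad1 {k : ℕ} (hk : 0 < k) (D : ℕ) (σ : ℝ) :
    av (fun a : Fin k → Fin D → Bool => if σ * k ^ 2 * D < N a then (1 : ℝ) else 0)
      ≤ (2 * k + 1) ^ D * exp (-(k * σ / 2) * D) := by
  have hk' : (0 : ℝ) < k := Nat.cast_pos.2 hk
  rw [← av_equiv (Equiv.piComm fun (_ : Fin D) (_ : Fin k) => Bool)]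
  have h1 : ∀ ω : Fin D → Fin k → Bool,
      (if σ * k ^ 2 * D < N (Equiv.piComm (fun (_ : Fin D) (_ : Fin k) => Bool) ω) then (1 : ℝ)
        else 0) ≤ (∏ i, exp ((∑ j, sg (ω i j)) ^ 2 / (2 * k))) * exp (-(k * σ / 2) * D) := by
    intro ω
    rw [← exp_sum, ← exp_add, ← sum_div]
    split_ifs with h
    · apply one_le_exp
      have e : N (Equiv.piComm (fun (_ : Fin D) (_ : Fin k) => Bool) ω)
          = ∑ i, (∑ j, sg (ω i j)) ^ 2 := rfl
      rw [e] at h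
      have : (k * σ / 2) * D ≤ (∑ i, (∑ j, sg (ω i j)) ^ 2) / (2 * k) := by
        rw [le_div_iff₀ (by positivity)]; linarith
      linarith
    · exact (exp_pos _).le
  refine le_trans (av_mono h1) ?_
  rw [av_mul_right, av_pi fun _ (a : Fin k → Bool) => exp ((∑ j, sg (a j)) ^ 2 / (2 * k))]
  simp only [prod_const, card_univ, Fintype.card_fin]
  exact mul_le_mul_of_nonneg_right
    (pow_le_pow_left₀ (av_nonneg fun _ => (exp_pos _).le) (av_exp_sq k hk) D) (exp_pos _).le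

lemma second_moment {X : Type*} [Fintype X] [Nonempty X] (z : X → ℝ) (hz : ∀ x, z x * z x = 1)
    (s : ℕ) : av (fun f : Fin s → X => (∑ j, z (f j)) ^ 2) ≤ s + s ^ 2 * av z ^ 2 := by
  have e : (fun f : Fin s → X => (∑ j, z (f j)) ^ 2)
      = fun f => ∑ p : Fin s × Fin s, z (f p.1) * z (f p.2) := by
    funext f; rw [sq, sum_mul_sum, Fintype.sum_prod_type]
  rw [e, av_sum]
  have h : ∀ p : Fin s × Fin s, av (fun f : Fin s → X => z (f p.1) * z (f p.2))
      ≤ (if p.1 = p.2 then 1 else 0) + av z ^ 2 := by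
    rintro ⟨i, j⟩
    by_cases hij : i = j
    · subst hij
      simp only [hz, if_true]
      rw [av_const]; nlinarith [sq_nonneg (av z)]
    · have e2 : (fun f : Fin s → X => z (f i) * z (f j))
          = fun f => ∏ l, (fun l x => if l ∈ ({i, j} : Finset (Fin s)) then z x else 1) l (f l) := by
        funext f
        simp only
        rw [prod_ite_mem, univ_inter, prod_pair hij]
      simp only [e2]
      rw [av_pi fun l x => if l ∈ ({i, j} : Finset (Fin s)) then z x else 1]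
      have e3 : ∀ l, av (fun x => if l ∈ ({i, j} : Finset (Fin s)) then z x else 1)
          = if l ∈ ({i, j} : Finset (Fin s)) then av z else 1 := by
        intro l
        split_ifs
        · rfl
        · exact av_const 1
      simp only [e3]
      rw [prod_ite_mem, univ_inter, prod_pair hij, if_neg hij]
      linarith
  refine le_trans (sum_le_sum fun p _ => h p) (le_of_eq ?_)
  rw [sum_add_distrib, Fintype.sum_prod_type]
  simp [sq]

open Classical in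
lemma bad2 {k : ℕ} (hk : 0 < k) (s D : ℕ) (σ : ℝ) {τ : ℝ} (hτ : 0 ≤ τ) :
    av (fun y : Fin k ⊕ (Fin s → Fin k) → Fin D → Bool =>
      if N (fun j => y (Sum.inl j)) ≤ σ * k ^ 2 * D ∧
        ∀ b j, τ * D ≤ ip (y (Sum.inr b)) (y (Sum.inl (b j))) then (1 : ℝ) else 0)
      ≤ exp (-((k : ℝ) ^ s * (s * τ ^ 2 / 2 - s ^ 2 * τ ^ 2 * σ / 2)) * D) := by
  have hk' : (0 : ℝ) < k := Nat.cast_pos.2 hk
  have : Nonempty (Fin k) := ⟨⟨0, hk⟩⟩
  rw [← av_equiv (Equiv.sumArrowEquivProdArrow _ _ _).symm, av_prod_type]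
  refine le_trans (av_mono fun a => ?_) (le_of_eq (av_const _))
  simp only [Equiv.sumArrowEquivProdArrow_symm_apply_inl,
    Equiv.sumArrowEquivProdArrow_symm_apply_inr]
  by_cases hN : N a ≤ σ * k ^ 2 * D
  swap
  · simp only [hN, false_and, if_false]
    rw [av_const]; exact (exp_pos _).le
  have h1 : ∀ z : (Fin s → Fin k) → Fin D → Bool,
      (if N a ≤ σ * k ^ 2 * D ∧ ∀ b j, τ * D ≤ ip (z b) (a (b j)) then (1 : ℝ) else 0)
      ≤ ∏ b : Fin s → Fin k, exp (∑ i, (τ * ∑ j, sg (a (b j) i)) * sg (z b i))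
        * exp (-(s * τ ^ 2 * D)) := by
    intro z
    split_ifs with h
    · refine le_trans (le_of_eq (prod_const_one (s := univ)).symm)
        (prod_le_prod (fun _ _ => zero_le_one) fun b _ => ?_)
      rw [← exp_add]
      apply one_le_exp
      have e : ∑ i, (τ * ∑ j, sg (a (b j) i)) * sg (z b i) = τ * ∑ j, ip (z b) (a (b j)) := by
        unfold ip
        rw [sum_comm, mul_sum]
        refine sum_congr rfl fun i _ => ?_
        rw [← mul_sum]; ring
      have h2 := sum_le_sum fun j (_ : j ∈ (univ : Finset (Fin s))) => h.2 b j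
      simp only [sum_const, card_univ, Fintype.card_fin, nsmul_eq_mul] at h2
      rw [e]
      nlinarith
    · exact prod_nonneg fun b _ => by positivity
  refine le_trans (av_mono h1) ?_
  rw [av_pi fun (b : Fin s → Fin k) (y : Fin D → Bool) =>
    exp (∑ i, (τ * ∑ j, sg (a (b j) i)) * sg (y i)) * exp (-(s * τ ^ 2 * D))]
  have h2 : ∀ b : Fin s → Fin k, av (fun y : Fin D → Bool =>
      exp (∑ i, (τ * ∑ j, sg (a (b j) i)) * sg (y i)) * exp (-(s * τ ^ 2 * D)))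
      ≤ exp ((∑ i, (τ * ∑ j, sg (a (b j) i)) ^ 2) / 2 + -(s * τ ^ 2 * D)) := fun b => by
    rw [av_mul_right, exp_add]
    exact mul_le_mul_of_nonneg_right (av_exp_sum _) (exp_pos _).le
  refine le_trans (prod_le_prod (fun b _ => av_nonneg fun _ => by positivity) fun b _ => h2 b) ?_
  rw [← exp_sum]
  apply exp_le_exp.2
  have hcard : (Fintype.card (Fin s → Fin k) : ℝ) = (k : ℝ) ^ s := by simp
  have h3 : ∀ i, ∑ b : Fin s → Fin k, (∑ j, sg (a (b j) i)) ^ 2
      ≤ (k : ℝ) ^ s * (s + s ^ 2 * ((∑ j, sg (a j i)) ^ 2 / k ^ 2)) := fun i => by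
    have := second_moment (fun j : Fin k => sg (a j i)) (fun _ => sg_sq _) s
    unfold av at this
    rw [hcard, div_le_iff₀ (by positivity), Fintype.card_fin, div_pow] at this
    linarith
  have h4 : ∑ b : Fin s → Fin k, ∑ i, (∑ j, sg (a (b j) i)) ^ 2
      ≤ (k : ℝ) ^ s * (s * D + s ^ 2 * (σ * D)) := by
    rw [sum_comm]
    refine le_trans (sum_le_sum fun i _ => h3 i) ?_
    rw [← mul_sum, sum_add_distrib, ← mul_sum, ← sum_div]
    simp only [sum_const, card_univ, Fintype.card_fin, nsmul_eq_mul]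
    have : (∑ i, (∑ j, sg (a j i)) ^ 2) / (k : ℝ) ^ 2 ≤ σ * D := by
      rw [div_le_iff₀ (by positivity)]
      unfold N at hN
      linarith
    refine mul_le_mul_of_nonneg_left ?_ (by positivity)
    have := mul_le_mul_of_nonneg_left this (show (0 : ℝ) ≤ s ^ 2 by positivity)
    linarith
  simp only [mul_pow, ← mul_sum]
  rw [sum_add_distrib, ← sum_div, ← mul_sum]
  simp only [sum_const, card_univ, nsmul_eq_mul, hcard]
  have h5 := mul_le_mul_of_nonneg_left h4 (sq_nonneg τ)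
  linarith

end Pool.Agent.Lib.MP_5a6238_co
end

-- part Pool.Agent.Lib.MP_5a6238_co.Main
section

set_option autoImplicit false

namespace Pool.Agent.Lib.MP_5a6238_co

open Finset Real

lemma card_emb_le (α : Type*) [Fintype α] (n : ℕ) :
    (Fintype.card (α ↪ Fin n) : ℝ) ≤ (n : ℝ) ^ Fintype.card α := by
  classical
  rw [Fintype.card_embedding_eq, Fintype.card_fin]
  exact_mod_cast Nat.descFactorial_le_pow _ _

lemma card_emb_ge {r n : ℕ} (h : 2 * r ≤ n) :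
    ((n : ℝ) / 2) ^ r ≤ Fintype.card (Fin r ↪ Fin n) := by
  rw [Fintype.card_embedding_eq, Fintype.card_fin, Fintype.card_fin]
  have h1 := Nat.pow_sub_le_descFactorial n r
  have h2 : (n : ℝ) / 2 ≤ ((n + 1 - r : ℕ) : ℝ) := by
    rw [Nat.cast_sub (by omega)]
    have : (2 * r : ℝ) ≤ n := by exact_mod_cast h
    push_cast; linarith
  calc ((n : ℝ) / 2) ^ r ≤ ((n + 1 - r : ℕ) : ℝ) ^ r := pow_le_pow_left₀ (by positivity) h2 r
    _ ≤ _ := by exact_mod_cast h1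

lemma av_sum_emb {V W X : Type*} [Fintype V] [Fintype W] [Fintype X] [DecidableEq V]
    [DecidableEq W] [Nonempty X] (F : (V → X) → ℝ) :
    av (fun x : W → X => ∑ φ : V ↪ W, F (x ∘ φ)) = Fintype.card (V ↪ W) * av F := by
  rw [av_sum univ fun (φ : V ↪ W) (x : W → X) => F (x ∘ φ)]
  simp only [av_comp_inj, sum_const, card_univ, nsmul_eq_mul]

/-- The first moment argument. -/
lemma exists_labels {X : Type*} [Fintype X] [Nonempty X] {r n : ℕ} {A B : Type*} [Fintype A]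
    [Fintype B] [DecidableEq A] [DecidableEq B] (P : (Fin r → X) → Prop) (Q₁ : (A → X) → Prop)
    (Q₂ : (B → X) → Prop) {_ : DecidablePred P} {_ : DecidablePred Q₁} {_ : DecidablePred Q₂}
    {p q₁ q₂ : ℝ} (hn : 2 * r ≤ n) (hp0 : 0 ≤ p)
    (hp : p ≤ av fun y => if P y then (1 : ℝ) else 0)
    (h₁ : (av fun y => if Q₁ y then (1 : ℝ) else 0) ≤ q₁)
    (h₂ : (av fun y => if Q₂ y then (1 : ℝ) else 0) ≤ q₂)
    (e₁ : (n : ℝ) ^ r * ((n : ℝ) ^ Fintype.card A * q₁) ≤ 1)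
    (e₂ : (n : ℝ) ^ r * ((n : ℝ) ^ Fintype.card B * q₂) ≤ 1)
    (hM : 2 < ((n : ℝ) / 2) ^ r * p) :
    ∃ x : Fin n → X, (∀ φ : A ↪ Fin n, ¬Q₁ (x ∘ φ)) ∧ (∀ φ : B ↪ Fin n, ¬Q₂ (x ∘ φ)) ∧
      ((n : ℝ) / 2) ^ r * p - 2 ≤ #{φ : Fin r ↪ Fin n | P (x ∘ φ)} := by
  let T : (Fin n → X) → ℝ := fun x => ∑ φ : Fin r ↪ Fin n, if P (x ∘ φ) then 1 else 0
  let B₁ : (Fin n → X) → ℝ := fun x => ∑ φ : A ↪ Fin n, if Q₁ (x ∘ φ) then 1 else 0
  let B₂ : (Fin n → X) → ℝ := fun x => ∑ φ : B ↪ Fin n, if Q₂ (x ∘ φ) then 1 else 0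
  have hT : ((n : ℝ) / 2) ^ r * p ≤ av T := by
    rw [av_sum_emb fun y => if P y then (1 : ℝ) else 0]
    exact mul_le_mul (card_emb_ge hn) hp hp0 (Nat.cast_nonneg _)
  have ind : ∀ (c : Prop) [Decidable c], (0 : ℝ) ≤ if c then 1 else 0 := fun c _ => by
    split_ifs <;> norm_num
  have hB₁ : (n : ℝ) ^ r * av B₁ ≤ 1 := by
    refine le_trans (mul_le_mul_of_nonneg_left ?_ (by positivity)) e₁
    rw [av_sum_emb fun y => if Q₁ y then (1 : ℝ) else 0]
    exact mul_le_mul (card_emb_le _ _) h₁ (av_nonneg fun _ => ind _) (by positivity)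
  have hB₂ : (n : ℝ) ^ r * av B₂ ≤ 1 := by
    refine le_trans (mul_le_mul_of_nonneg_left ?_ (by positivity)) e₂
    rw [av_sum_emb fun y => if Q₂ y then (1 : ℝ) else 0]
    exact mul_le_mul (card_emb_le _ _) h₂ (av_nonneg fun _ => ind _) (by positivity)
  obtain ⟨x, hx⟩ := exists_ge_av fun x => T x - ((n : ℝ) ^ r * B₁ x + (n : ℝ) ^ r * B₂ x)
  rw [av_sub, av_add, av_mul_left, av_mul_left] at hx
  have hTx : T x = #{φ : Fin r ↪ Fin n | P (x ∘ φ)} := by simp [T]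
  have hTle : T x ≤ (n : ℝ) ^ r := by
    rw [hTx]
    have := card_emb_le (Fin r) n
    rw [Fintype.card_fin] at this
    refine le_trans ?_ this
    exact_mod_cast card_le_univ _
  have p₁ : 0 ≤ (n : ℝ) ^ r * B₁ x := mul_nonneg (by positivity) (sum_nonneg fun _ _ => ind _)
  have p₂ : 0 ≤ (n : ℝ) ^ r * B₂ x := mul_nonneg (by positivity) (sum_nonneg fun _ _ => ind _)
  refine ⟨x, fun φ h => ?_, fun φ h => ?_, by linarith⟩
  · have : 1 ≤ B₁ x := by
      refine le_trans ?_ (single_le_sum (f := fun φ : A ↪ Fin n => if Q₁ (x ∘ φ) then (1 : ℝ) else 0)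
        (fun _ _ => ind _) (mem_univ φ))
      simp [h]
    have := mul_le_mul_of_nonneg_left this (by positivity : (0 : ℝ) ≤ (n : ℝ) ^ r)
    linarith
  · have : 1 ≤ B₂ x := by
      refine le_trans ?_ (single_le_sum (f := fun φ : B ↪ Fin n => if Q₂ (x ∘ φ) then (1 : ℝ) else 0)
        (fun _ _ => ind _) (mem_univ φ))
      simp [h]
    have := mul_le_mul_of_nonneg_left this (by positivity : (0 : ℝ) ≤ (n : ℝ) ^ r)
    linarith

lemma card_le_image {r n : ℕ} (S : Finset (Fin r ↪ Fin n)) :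
    #S ≤ r ^ r * #(S.image fun φ => univ.map φ) := by
  classical
  refine card_le_mul_card_image S _ fun e he => ?_
  obtain ⟨ψ, -, rfl⟩ := mem_image.1 he
  have : #(Fintype.piFinset fun _ : Fin r => univ.map ψ) = r ^ r := by simp
  rw [← this]
  refine card_le_card_of_injOn (fun φ => (φ : Fin r → Fin n)) (fun φ hφ => ?_)
    fun φ _ φ' _ h => DFunLike.coe_injective h
  simp only [coe_filter, Set.mem_ofPred_eq] at hφ
  simp only [Fintype.coe_piFinset, Set.mem_pi, Set.mem_univ, forall_const, mem_coe]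
  intro i
  rw [← hφ.2]
  exact mem_map_of_mem _ (mem_univ i)

lemma exists_k {ν δ : ℝ} (hν : 0 < ν) (hδ : 0 < δ) (r : ℕ) {s : ℕ} (hs : 2 ≤ s) :
    ∃ k : ℕ, 0 < k ∧ r * ν ≤ k * ν - log (2 * k + 1) ∧ r * ν ≤ (k : ℝ) ^ s * δ - k * ν := by
  obtain ⟨k, hk⟩ := exists_nat_ge (max (max 1 ((r + 1) * ν / δ))
    ((r * ν + ν / 4 - log (ν / 4)) / (ν / 2)))
  have h1 : (1 : ℝ) ≤ k := le_trans (le_trans (le_max_left _ _) (le_max_left _ _)) hk
  have h2 : (r + 1) * ν / δ ≤ k := le_trans (le_trans (le_max_right _ _) (le_max_left _ _)) hk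
  have h3 := le_trans (le_max_right _ _) hk
  rw [div_le_iff₀ (by positivity)] at h2 h3
  refine ⟨k, by exact_mod_cast (by linarith : (0 : ℝ) < k), ?_, ?_⟩
  · have h4 := log_le_sub_one_of_pos (x := (2 * k + 1) * (ν / 4)) (by positivity)
    rw [log_mul (by positivity) (by positivity)] at h4
    linarith
  · have h4 : (k : ℝ) ^ 2 ≤ k ^ s := pow_le_pow_right₀ h1 hs
    have h5 := mul_le_mul_of_nonneg_right h4 hδ.le
    have h6 : (0 : ℝ) ≤ r * ν := by positivity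
    nlinarith

/-- Main probabilistic construction. -/
theorem construction {r : ℕ} (hr : 3 ≤ r) : ∃ k : ℕ, ∃ ε : ℝ, 0 < ε ∧ ∃ n₀ : ℕ, ∀ n ≥ n₀,
    ∃ (R : Fin n → Fin n → Prop) (H : Finset (Finset (Fin n))),
      (∀ e ∈ H, #e = r ∧ ∀ u ∈ e, ∀ v ∈ e, u ≠ v → R u v) ∧ (n : ℝ) ^ ((r : ℝ) - 1 + ε) ≤ #H ∧
      ∀ φ : Fin k ⊕ (Fin (r.choose 2) → Fin k) ↪ Fin n,
        ¬∀ b j, R (φ (Sum.inr b)) (φ (Sum.inl (b j))) := by
  classical
  have hs3 : 3 ≤ r.choose 2 := le_trans (by decide) (Nat.choose_le_choose 2 hr)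
  obtain ⟨s, hs⟩ : ∃ s : ℝ, s = r.choose 2 := ⟨_, rfl⟩
  have hs3' : 3 ≤ s := by rw [hs]; exact_mod_cast hs3
  obtain ⟨t, ht⟩ : ∃ t : ℝ, t = 1 / (200 * s ^ 4) := ⟨_, rfl⟩
  have ht0 : 0 < t := by rw [ht]; positivity
  have hts4 : s ^ 4 * t = 1 / 200 := by rw [ht]; field_simp
  have hs13 : s ≤ s ^ 3 := by
    simpa using pow_le_pow_right₀ (by linarith : 1 ≤ s) (by norm_num : 1 ≤ 3)
  have hs34 : s ^ 3 ≤ s ^ 4 := pow_le_pow_right₀ (by linarith : 1 ≤ s) (by norm_num)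
  have hts3 : s ^ 3 * t ≤ 1 / 200 := by nlinarith
  have hts : s * t ≤ 1 / 200 := by nlinarith
  have ht1 : t ≤ 1 / 200 := by nlinarith
  have ht2 : 0 < t ^ 2 := by positivity
  have ht3 : 0 < t ^ 3 := by positivity
  have ht32 : t ^ 3 ≤ t ^ 2 := by nlinarith
  have ht31 : t ^ 3 ≤ t := by nlinarith
  obtain ⟨η, hη⟩ : ∃ η : ℝ, η = t ^ 3 / 50 := ⟨_, rfl⟩
  have hη0 : 0 < η := by linarith
  obtain ⟨κ, hκ⟩ : ∃ κ : ℝ, κ = s * t ^ 2 / 2 - t ^ 3 / 6 + 4 * s ^ 4 * t ^ 4 + η := ⟨_, rfl⟩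
  have hκ' : κ = s * t ^ 2 / 2 - 19 * t ^ 3 / 150 := by
    have : 4 * s ^ 4 * t ^ 4 = 4 * (s ^ 4 * t) * t ^ 3 := by ring
    rw [hκ, this, hts4, hη]; ring
  obtain ⟨ν₁, hν₁⟩ : ∃ ν : ℝ, ν = s * t ^ 2 / 2 - t ^ 3 / 10 := ⟨_, rfl⟩
  obtain ⟨ν₂, hν₂⟩ : ∃ ν : ℝ, ν = s * t ^ 2 / 2 - t ^ 3 / 20 := ⟨_, rfl⟩
  have hst : 3 * t ^ 2 ≤ s * t ^ 2 := by nlinarith
  have hκ0 : 0 < κ := by linarith
  have hκν : κ < ν₁ := by linarith
  have hν0 : 0 < ν₁ := by linarith
  have hν12 : ν₁ < ν₂ := by linarith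
  have hν20 : 0 < ν₂ := by linarith
  obtain ⟨γ, hγ⟩ : ∃ γ : ℝ, γ = s * (t - η) ^ 2 / 2 - s ^ 2 * (t - η) ^ 2 * (4 * ν₂) / 2 := ⟨_, rfl⟩
  have hγν : ν₂ < γ := by
    have a1 : (t - η) ^ 2 ≤ t ^ 2 := by nlinarith
    have a2 : s ^ 2 * (t - η) ^ 2 * (4 * ν₂) / 2 ≤ s ^ 2 * t ^ 2 * (2 * (s * t ^ 2)) / 2 := by
      have b1 : 4 * ν₂ ≤ 2 * (s * t ^ 2) := by linarith
      have b2 : s ^ 2 * (t - η) ^ 2 ≤ s ^ 2 * t ^ 2 := by gcongr
      have := mul_le_mul b2 b1 (by linarith) (by positivity)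
      linarith
    have a3 : s ^ 2 * t ^ 2 * (2 * (s * t ^ 2)) / 2 = (s ^ 3 * t) * t ^ 3 := by ring
    have a4 : (s ^ 3 * t) * t ^ 3 ≤ 1 / 200 * t ^ 3 := by gcongr
    have a5 : s * (t - η) ^ 2 / 2 = s * t ^ 2 / 2 - s * t * η + s * η ^ 2 / 2 := by ring
    have a6 : s * t * η ≤ 1 / 200 * η := by gcongr
    have a7 : 0 ≤ s * η ^ 2 / 2 := by positivity
    linarith
  obtain ⟨k, hk0, hk1, hk2⟩ := exists_k hν20 (sub_pos.2 hγν) r (s := r.choose 2) (by omega)
  obtain ⟨ε, hε⟩ : ∃ ε : ℝ, ε = (1 - κ / ν₁) / 2 := ⟨_, rfl⟩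
  have hε0 : 0 < ε := by
    have := (div_lt_one hν0).2 hκν
    linarith
  refine ⟨k, ε, hε0, ?_⟩
  have tD : Filter.Tendsto (fun n : ℕ => (⌊log n / ν₁⌋₊ : ℝ)) Filter.atTop Filter.atTop :=
    tendsto_natCast_atTop_atTop.comp (tendsto_nat_floor_atTop.comp
      ((tendsto_log_atTop.comp tendsto_natCast_atTop_atTop).atTop_div_const hν0))
  have tE : Filter.Tendsto (fun n : ℕ => ((r : ℝ) ^ 2 + 1) * exp (-(η ^ 2 / 16) * ⌊log n / ν₁⌋₊))
      Filter.atTop (nhds (((r : ℝ) ^ 2 + 1) * 0)) :=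
    (tendsto_exp_atBot.comp (tD.const_mul_atTop_of_neg
      (by have : 0 < η ^ 2 / 16 := by positivity
          linarith))).const_mul _
  have tN : Filter.Tendsto (fun n : ℕ => (n : ℝ) ^ ε) Filter.atTop Filter.atTop :=
    (tendsto_rpow_atTop hε0).comp tendsto_natCast_atTop_atTop
  obtain ⟨n₀, hn₀⟩ := Filter.eventually_atTop.1 ((tD.eventually_ge_atTop (ν₁ / (ν₂ - ν₁))).and
    ((tE.eventually_le_const (by norm_num : ((r : ℝ) ^ 2 + 1) * 0 < 1 / 2)).and
    ((tN.eventually_ge_atTop (2 ^ (r + 1) * (r ^ r + 3))).and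
    (Filter.eventually_ge_atTop (2 * r)))))
  refine ⟨n₀, fun n hn => ?_⟩
  obtain ⟨c1, c2, c3, c4⟩ := hn₀ n hn
  obtain ⟨D, hD⟩ : ∃ D : ℕ, D = ⌊log n / ν₁⌋₊ := ⟨_, rfl⟩
  rw [← hD] at c1 c2
  have hn1 : (1 : ℝ) ≤ n := by exact_mod_cast (by omega : 1 ≤ n)
  have hn0 : (0 : ℝ) < n := by linarith
  have hl0 : 0 ≤ log n := log_nonneg hn1
  have d1 : ν₁ * D ≤ log n := by
    have := Nat.floor_le (div_nonneg hl0 hν0.le)
    rw [← hD, le_div_iff₀ hν0] at this
    linarith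
  have d2 : log n ≤ ν₂ * D := by
    have := Nat.lt_floor_add_one (log n / ν₁)
    rw [← hD, div_lt_iff₀ hν0] at this
    rw [div_le_iff₀ (by linarith)] at c1
    linarith
  have hD0 : (0 : ℝ) ≤ D := Nat.cast_nonneg _
  have npow : ∀ m : ℕ, (n : ℝ) ^ m ≤ exp (m * (ν₂ * D)) := fun m => by
    rw [exp_nat_mul]
    exact pow_le_pow_left₀ hn0.le ((log_le_iff_le_exp hn0).1 d2) m
  have hcl := clique_prob hr ht0.le (by rw [← hs]; linarith) hη0.le (by linarith) D c2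
  rw [← hs, ← hκ] at hcl
  have hb1 := bad1 hk0 D (4 * ν₂)
  have hb2 := bad2 hk0 (r.choose 2) D (4 * ν₂) (τ := t - η) (by linarith)
  rw [← hs, ← hγ] at hb2
  have key : (n : ℝ) ^ ((r : ℝ) - 1 + ε) * (r ^ r + 3) ≤ ((n : ℝ) / 2) ^ r * (exp (-κ * D) / 2) := by
    have a1 : (n : ℝ) ^ (-(κ / ν₁)) ≤ exp (-κ * D) := by
      rw [rpow_def_of_pos hn0, exp_le_exp]
      have : κ * D ≤ log n * (κ / ν₁) := by
        rw [← mul_div_assoc, le_div_iff₀ hν0]; nlinarith
      linarith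
    have a2 : (n : ℝ) ^ ((r : ℝ) - 1 + ε) * (n : ℝ) ^ ε = (n : ℝ) ^ r * (n : ℝ) ^ (-(κ / ν₁)) := by
      rw [← rpow_natCast, ← rpow_add hn0, ← rpow_add hn0]
      congr 1; linarith
    have a3 : (0 : ℝ) < (n : ℝ) ^ ((r : ℝ) - 1 + ε) := rpow_pos_of_pos hn0 _
    have a4 := mul_le_mul_of_nonneg_left c3 a3.le
    have a5 := mul_le_mul_of_nonneg_left a1 (by positivity : (0 : ℝ) ≤ (n : ℝ) ^ r)
    have a6 : ((n : ℝ) / 2) ^ r * (exp (-κ * D) / 2) = (n : ℝ) ^ r * exp (-κ * D) / 2 ^ (r + 1) := by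
      rw [div_pow, pow_succ]; field_simp
    rw [a6, le_div_iff₀ (by positivity)]
    linarith
  have hone : (1 : ℝ) ≤ (n : ℝ) ^ ((r : ℝ) - 1 + ε) := by
    refine one_le_rpow hn1 ?_
    have : (3 : ℝ) ≤ r := by exact_mod_cast hr
    linarith
  have hrr : (0 : ℝ) < (r : ℝ) ^ r := by
    have : (0 : ℝ) < r := by exact_mod_cast (by omega : 0 < r)
    positivity
  refine Exists.elim (exists_labels (n := n) _ _ _ c4 (half_pos (exp_pos _)).le hcl
    hb1 hb2 ?_ ?_ ?_) ?_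
  rotate_right
  · rintro x ⟨hx1, hx2, hx3⟩
    refine ⟨fun u v => (t - η) * D ≤ ip (x u) (x v),
      ({φ : Fin r ↪ Fin n | ∀ i j, i ≠ j → (t - η) * D ≤ ip (x (φ i)) (x (φ j))} : Finset _).image
        fun φ => univ.map φ, fun e he => ?_, ?_, fun φ hφ => ?_⟩
    · obtain ⟨φ, hφ, rfl⟩ := mem_image.1 he
      refine ⟨by simp, fun u hu v hv huv => ?_⟩
      obtain ⟨i, -, rfl⟩ := mem_map.1 hu
      obtain ⟨j, -, rfl⟩ := mem_map.1 hv
      exact (mem_filter.1 hφ).2 i j fun h => huv (by rw [h])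
    · have a1 := card_le_image
        ({φ : Fin r ↪ Fin n | ∀ i j, i ≠ j → (t - η) * D ≤ ip (x (φ i)) (x (φ j))} : Finset _)
      have a2 := (Nat.cast_le (α := ℝ)).2 a1
      push_cast at a2
      refine le_of_mul_le_mul_left ?_ hrr
      refine le_trans ?_ a2
      refine le_trans ?_ (le_trans hx3 (le_of_eq ?_))
      · linarith
      · congr
    · exact hx2 φ ⟨not_lt.1 (hx1 (Function.Embedding.inl.trans φ)), hφ⟩
  · rw [Fintype.card_fin]
    have a1 : (2 * (k : ℝ) + 1) ^ D = exp (log (2 * k + 1) * D) := by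
      rw [mul_comm (log _), exp_nat_mul, exp_log (by positivity)]
    refine le_trans (mul_le_mul (npow r) (mul_le_mul_of_nonneg_right (npow k) (by positivity))
      (by positivity) (by positivity)) ?_
    rw [a1, ← exp_add, ← exp_add, ← exp_add, exp_le_one_iff]
    nlinarith [mul_le_mul_of_nonneg_right hk1 hD0]
  · refine le_trans (mul_le_mul (npow r) (mul_le_mul_of_nonneg_right (npow _) (by positivity))
      (by positivity) (by positivity)) ?_
    rw [← exp_add, ← exp_add, exp_le_one_iff]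
    simp only [Fintype.card_sum, Fintype.card_fin, Fintype.card_fun]
    push_cast
    nlinarith [mul_le_mul_of_nonneg_right hk2 hD0]
  · nlinarith

end Pool.Agent.Lib.MP_5a6238_co
end
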